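import Pool.Agent.MP_71da5e_an.EstA
import Pool.Agent.MP_71da5e_an.Three

namespace Pool.Agent.MP_71da5e_an

open MeasureTheory Metric Set Laplacian Filter Topology
open scoped ContDiff ENNReal RealInnerProductSpace

variable {n : ℕ}

lemma est_pow {ρ r : ℝ} (hρ : 0 < ρ) (h : ρ ≤ r) {N : ℕ} (hN : 4 ≤ N) :
    r ^ 4 / r ^ N ≤ ρ ^ 4 / ρ ^ N := by
  obtain ⟨j, rfl⟩ := Nat.exists_eq_add_of_le hN
  have hr := hρ.trans_le h
  rw [pow_add, pow_add, div_mul_cancel_left₀ (by positivity), div_mul_cancel_left₀ (by positivity)]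
  exact inv_anti₀ (by positivity) (pow_le_pow_left₀ hρ.le h j)

lemma est_abs {a b : E n → ℝ} {w F : E n → ℂ} (h : Q a w ≠ ⊤)
    (h1 : Q a w ≤ Q (fun x => 1 / 2 * b x) F + Q (fun x => 1 / 2 * a x) w) : Q a w ≤ Q b F := by
  rw [Q_const_mul (by norm_num), Q_const_mul (by norm_num)] at h1
  have e : Q a w = ENNReal.ofReal (1 / 2) * Q a w + ENNReal.ofReal (1 / 2) * Q a w := by
    rw [← add_mul, ← ENNReal.ofReal_add (by norm_num) (by norm_num)]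
    norm_num
  nth_rewrite 1 [e] at h1
  exact (ENNReal.mul_le_mul_iff_right (by simp) ENNReal.ofReal_ne_top).1
    ((ENNReal.add_le_add_iff_right (ENNReal.mul_ne_top ENNReal.ofReal_ne_top h)).1 h1)

lemma est_low (k : ℕ) {ρ : ℝ} (hρ : 0 < ρ) {x : E n} (hx : ‖x‖ ≤ 30 * ρ) :
    1 / ρ ^ (2 * k + n + 1) ≤ 901 * 30 ^ (2 * k + n + 1) * aW k ρ x := by
  unfold aW
  split_ifs with h
  · rw [one_div]
    refine le_mul_of_one_le_left (by positivity) ?_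
    linarith [one_le_pow₀ (show (1 : ℝ) ≤ 30 by norm_num) (n := 2 * k + n + 1)]
  · have hr : 0 < ‖x‖ := hρ.trans_le (not_lt.1 h)
    have h1 : 1 / 901 ≤ k ^ 2 * ‖x‖ ^ 2 / (1 + ‖x‖ ^ 2) + ρ ^ 2 / (‖x‖ ^ 2 + ρ ^ 2) := by
      refine le_add_of_nonneg_of_le (by positivity) ?_
      rw [div_le_div_iff₀ (by norm_num) (by positivity)]
      nlinarith
    refine le_trans (le_of_eq ?_) (mul_le_mul_of_nonneg_left (div_le_div₀ (by positivity) h1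
      (by positivity) (pow_le_pow_left₀ hr.le hx _)) (by positivity))
    rw [mul_pow]
    field_simp

lemma est_sh {t : ℝ} (x : E n) : sh 0 0 t x = if ‖x‖ ≤ t then 1 else 0 := by
  simp [sh]

theorem Q_aW_ne_top (hn : 3 ≤ n) {k : ℕ} (hk : 4 ≤ k) {ρ : ℝ} (hρ : 0 < ρ) {w : E n → ℂ}
    (hw : WL2 w) : Q (aW k ρ) w ≠ ⊤ := by
  refine ne_top_of_le_ne_top (b := Q (fun x => (k ^ 2 + 1) * (1 / ρ ^ 2 + 1) ^ 2 *
    (ρ ^ 4 / ρ ^ (2 * k + n + 1)) * wt x) w) ?_ (Q_mono_left w fun x => ?_)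
  · rw [Q_const_mul (by positivity)]
    exact ENNReal.mul_ne_top ENNReal.ofReal_ne_top hw.2
  rw [wt, ← div_eq_mul_inv, le_div_iff₀ (by positivity), aW]
  split_ifs with h
  · have h1 : (1 + ‖x‖ ^ 2) ^ 2 ≤ (1 + ρ ^ 2) ^ 2 := by gcongr
    have e : (1 / ρ ^ 2 + 1) ^ 2 * (ρ ^ 4 / ρ ^ (2 * k + n + 1)) =
        (ρ ^ (2 * k + n + 1))⁻¹ * (1 + ρ ^ 2) ^ 2 := by field_simp
    rw [mul_assoc, e]
    exact (mul_le_mul_of_nonneg_left h1 (by positivity)).trans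
      (le_mul_of_one_le_left (by positivity) (by linarith [sq_nonneg (k : ℝ)]))
  · have h0 := not_lt.1 h
    have hr : 0 < ‖x‖ := hρ.trans_le h0
    have h1 : k ^ 2 * ‖x‖ ^ 2 / (1 + ‖x‖ ^ 2) + ρ ^ 2 / (‖x‖ ^ 2 + ρ ^ 2) ≤ k ^ 2 + 1 := by
      refine add_le_add ?_ ((div_le_one (by positivity)).2 (by linarith [sq_nonneg ‖x‖]))
      rw [div_le_iff₀ (by positivity)]
      nlinarith [sq_nonneg (k : ℝ)]
    have h2 : 1 + ‖x‖ ^ 2 ≤ (1 / ρ ^ 2 + 1) * ‖x‖ ^ 2 := by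
      rw [add_mul, one_mul, add_le_add_iff_right, one_div_mul_eq_div, one_le_div (by positivity)]
      gcongr
    have h3 := est_pow hρ h0 (N := 2 * k + n + 1) (by omega)
    calc _ ≤ (k ^ 2 + 1) / ‖x‖ ^ (2 * k + n + 1) * ((1 / ρ ^ 2 + 1) * ‖x‖ ^ 2) ^ 2 := by gcongr
      _ = (k ^ 2 + 1) * (1 / ρ ^ 2 + 1) ^ 2 * (‖x‖ ^ 4 / ‖x‖ ^ (2 * k + n + 1)) := by ring
      _ ≤ _ := by gcongr

theorem est (hn : 3 ≤ n) {k : ℕ} (hk : 4 ≤ k) : ∃ Λ : ℝ, 1 ≤ Λ ∧ ∀ (ν : E n) (ρ : ℝ)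
    (w F : E n → ℂ), ‖ν‖ = 1 → 0 < ρ → 30 * ρ ≤ 1 → HP ν (ball 0 (30 * ρ)) w F →
    Q (aW k ρ) w ≤ Q (bW k ρ 12 Λ) F := by
  obtain ⟨C, hC, h1⟩ := est_out hn hk
  obtain ⟨D, hD⟩ : ∃ D : ℝ, D = 901 * 30 ^ (2 * k + n + 1) := ⟨_, rfl⟩
  have hD0 : 0 < D := by rw [hD]; positivity
  obtain ⟨C', hC', h2⟩ := three n (ε := 1 / (2 * (C + 1) * D)) (by positivity)
  refine ⟨2 * (12 + C + (C + 1) * C'), by nlinarith, fun ν ρ w F hν hρ hρ1 H => ?_⟩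
  have h3 := h1 ν ρ _ w F hν hρ (by linarith) H
  have h4 := h2 ν ρ w F hν hρ H.zw H.zF H.wp
  have hlow := fun x : E n => hD ▸ est_low k hρ (x := x)
  obtain ⟨P, hP⟩ : ∃ P, P = ρ ^ (2 * k + n + 1) := ⟨_, rfl⟩
  have hP0 : 0 < P := by rw [hP]; positivity
  rw [← hP] at h3 hlow
  have m1 : MeasurableSet {x : E n | ‖x‖ < ρ} := measurableSet_lt (by fun_prop) measurable_const
  have h5 : Q (aW k ρ) w ≤ Q (fun x => if ‖x‖ < ρ then 0 else aW k ρ x) w +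
      Q (fun x => 1 / P * sh 0 0 (2 * ρ) x) w := by
    refine Q_le_add (Measurable.ite m1 measurable_const (measurable_aW k ρ)) H.l2w.1 fun x => ?_
    rw [← add_mul, est_sh]
    refine mul_le_mul_of_nonneg_right ?_ (sq_nonneg _)
    split_ifs with h h' h'
    · rw [aW, if_pos h, ← hP]
      simp
    · linarith
    · exact le_add_of_nonneg_right (by positivity)
    · simp
  rw [Q_const_mul (by positivity)] at h5
  have h6 := (h5.trans (add_le_add_left h3 _)).trans_eq (add_assoc _ _ _)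
  rw [← add_mul, ← ENNReal.ofReal_add (by positivity) (by positivity)] at h6
  have h7 := h6.trans (add_le_add_right (mul_le_mul_right h4 _) _)
  rw [mul_add, ← mul_assoc, ← mul_assoc, ← ENNReal.ofReal_mul (by positivity),
    ← ENNReal.ofReal_mul (by positivity), ← Q_const_mul (by positivity),
    ← Q_const_mul (by positivity), ← Q_const_mul (by positivity), add_comm (Q _ w), ← add_assoc]
    at h7
  have m2 : Measurable fun x : E n =>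
      if ‖x‖ < ρ then 0 else 6 * (‖x‖ ^ 4 * (1 + ‖x‖ ^ 2)) / ‖x‖ ^ (2 * k + n + 1) :=
    Measurable.ite m1 measurable_const (by fun_prop)
  have p2 : ∀ x : E n,
      0 ≤ if ‖x‖ < ρ then 0 else 6 * (‖x‖ ^ 4 * (1 + ‖x‖ ^ 2)) / ‖x‖ ^ (2 * k + n + 1) :=
    fun x => by split_ifs <;> positivity
  have p3 := sh_nonneg (0 : E n) 0
  rw [← Q_add_left m2 H.l2F.1 p2 fun x => mul_nonneg (by positivity) (p3 _ x),
    ← Q_add_left (m2.fun_add ((measurable_sh 0 0 _).const_mul _)) H.l2F.1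
      (fun x => add_nonneg (p2 x) (mul_nonneg (by positivity) (p3 _ x)))
      fun x => mul_nonneg (by positivity) (p3 _ x)] at h7
  refine est_abs (Q_aW_ne_top hn hk hρ H.l2w) (h7.trans (add_le_add (Q_mono_left F fun x => ?_)
    (Q_mono_left w fun x => ?_)))
  · rw [bW, ← hP]
    by_cases h : ‖x‖ ≤ 30 * ρ
    · have b1 : (if ‖x‖ < ρ then 0 else 6 * (‖x‖ ^ 4 * (1 + ‖x‖ ^ 2)) / ‖x‖ ^ (2 * k + n + 1)) ≤
          12 * (ρ ^ 4 / P) := by
        split_ifs with h'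
        · positivity
        · have b2 : ‖x‖ ^ 2 ≤ 1 := pow_le_one₀ (norm_nonneg _) (h.trans hρ1)
          have b3 := est_pow hρ (not_lt.1 h') (N := 2 * k + n + 1) (by omega)
          rw [← hP] at b3
          calc _ = 6 * (1 + ‖x‖ ^ 2) * (‖x‖ ^ 4 / ‖x‖ ^ (2 * k + n + 1)) := by ring
            _ ≤ _ := mul_le_mul (by linarith) b3 (by positivity) (by norm_num)
      have b2 := mul_le_mul_of_nonneg_left (sh_le_one (0 : E n) 0 (2 * ρ) x)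
        (show 0 ≤ C * ρ ^ 4 / P by positivity)
      have b3 := mul_le_mul_of_nonneg_left (sh_le_one (0 : E n) 0 (30 * ρ) x)
        (show 0 ≤ (C / P + 1 / P) * (C' * ρ ^ 4) by positivity)
      rw [if_pos h]
      refine (add_le_add (add_le_add b1 b2) b3).trans_eq ?_
      ring
    · rw [est_sh, est_sh, if_neg h, if_neg h, if_neg (by linarith [not_le.1 h]),
        if_neg (by linarith [not_le.1 h])]
      apply le_of_eq
      ring
  · rw [est_sh]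
    split_ifs with h
    · refine le_trans (le_of_eq ?_) ((mul_le_mul_of_nonneg_left (hlow x h)
        (show 0 ≤ 1 / (2 * D) by positivity)).trans_eq ?_)
      · field_simp
      · field_simp
    · rw [mul_zero]
      exact mul_nonneg (by norm_num) (aW_pos k hρ x).le

theorem estQ (hn : 3 ≤ n) (A : ℝ) : ∃ k₀ : ℕ, 4 ≤ k₀ ∧ ∀ k, k₀ ≤ k → ∃ Λ ρ₀ : ℝ, 1 ≤ Λ ∧
    0 < ρ₀ ∧ 30 * ρ₀ ≤ 1 ∧ ∀ (ν : E n) (ρ : ℝ) (q w G : E n → ℂ), ‖ν‖ = 1 → 0 < ρ → ρ ≤ ρ₀ →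
    Dec A q → Measurable G → HP ν (ball 0 (30 * ρ)) w (fun x => G x + q x * w x) →
    Q (aW k ρ) w ≤ Q (bW k ρ 48 Λ) G := by
  refine ⟨4 + ⌈7 * A⌉₊, by omega, fun k hk => ?_⟩
  have hk4 : 4 ≤ k := by omega
  have hkA : 7 * A ≤ k := (Nat.le_ceil _).trans (by exact_mod_cast (by omega))
  obtain ⟨Λ, hΛ, h1⟩ := est hn hk4
  obtain ⟨D, hD⟩ : ∃ D : ℝ, D = 901 * 30 ^ (2 * k + n + 1) := ⟨_, rfl⟩
  have hD0 : 0 < D := by rw [hD]; positivity
  have hΛ0 : 0 < Λ := by linarith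
  refine ⟨4 * Λ, min (1 / 30) (1 / (4 * Λ * A ^ 2 * D + 1)), by linarith,
    lt_min (by norm_num) (by positivity),
    by linarith [min_le_left (1 / 30) (1 / (4 * Λ * A ^ 2 * D + 1))],
    fun ν ρ q w G hν hρ hρ0 hq hG H => ?_⟩
  have hρ1 : 30 * ρ ≤ 1 := by linarith [hρ0.trans (min_le_left _ _)]
  have hρ2 := (le_div_iff₀ (by positivity)).1 (hρ0.trans (min_le_right _ _))
  have hA := hq.nonneg
  refine est_abs (Q_aW_ne_top hn hk4 hρ H.l2w) ((h1 ν ρ w _ hν hρ hρ1 H).trans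
    (Q_le_add ((measurable_bW k ρ _ _).const_mul _) hG fun x => ?_))
  have hb := bW_pos k hρ (C := 12) (by norm_num) hΛ0 x
  have e : 1 / 2 * bW k ρ 48 (4 * Λ) x = 2 * bW k ρ 12 Λ x := by
    unfold bW
    split_ifs <;> ring
  have h2 : 4 * (bW k ρ 12 Λ x * (A * wt x) ^ 2) ≤ aW k ρ x := by
    rw [bW]
    split_ifs with h
    · have b1 := hD ▸ est_low k hρ h
      have b2 : ρ ^ 4 ≤ ρ := pow_le_of_le_one hρ.le (by linarith) (by norm_num)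
      have b3 : A * wt x ≤ A := mul_le_of_le_one_right hA (wt_le_one x)
      have b4 := (wt_pos x).le
      have b5 := (aW_pos k hρ x).le
      calc _ = 4 * Λ * ρ ^ 4 * (A * wt x) ^ 2 * (1 / ρ ^ (2 * k + n + 1)) := by ring
        _ ≤ 4 * Λ * ρ * A ^ 2 * (D * aW k ρ x) := by gcongr
        _ = ρ * (4 * Λ * A ^ 2 * D) * aW k ρ x := by ring
        _ ≤ _ := mul_le_of_le_one_left b5 (by nlinarith)
    · have hr : 0 < ‖x‖ := by linarith [not_le.1 h]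
      rw [aW, if_neg (by linarith [not_le.1 h]), div_mul_eq_mul_div, ← mul_div_assoc]
      refine div_le_div_of_nonneg_right (le_add_of_le_of_nonneg ?_ (by positivity)) (by positivity)
      have b1 : ‖x‖ ^ 2 / (1 + ‖x‖ ^ 2) ^ 2 ≤ 1 :=
        (div_le_one (by positivity)).2 (by nlinarith [sq_nonneg ‖x‖, sq_nonneg (‖x‖ ^ 2)])
      have b2 : 48 * A ^ 2 ≤ (k : ℝ) ^ 2 := by nlinarith
      calc _ = 48 * A ^ 2 * ‖x‖ ^ 2 / (1 + ‖x‖ ^ 2) * (‖x‖ ^ 2 / (1 + ‖x‖ ^ 2) ^ 2) := by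
            rw [wt]
            field_simp
            ring
        _ ≤ k ^ 2 * ‖x‖ ^ 2 / (1 + ‖x‖ ^ 2) * 1 := by gcongr
        _ = _ := mul_one _
  have h3 : ‖G x + q x * w x‖ ≤ ‖G x‖ + A * wt x * ‖w x‖ := (norm_add_le _ _).trans (by
    rw [norm_mul]
    exact add_le_add_right (mul_le_mul_of_nonneg_right (hq.2 x) (norm_nonneg _)) _)
  have h4 : ‖G x + q x * w x‖ ^ 2 ≤ 2 * ‖G x‖ ^ 2 + 2 * ((A * wt x) ^ 2 * ‖w x‖ ^ 2) := by
    nlinarith [pow_le_pow_left₀ (norm_nonneg _) h3 2, sq_nonneg (‖G x‖ - A * wt x * ‖w x‖)]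
  rw [e]
  nlinarith [mul_le_mul_of_nonneg_left h4 hb.le, mul_le_mul_of_nonneg_right h2 (sq_nonneg ‖w x‖)]

end Pool.Agent.MP_71da5e_an
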