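import Pool.Agent.MP_71da5e_an.Sol
import Pool.Agent.MP_71da5e_an.Est
import Pool.Agent.MP_71da5e_an.KelB

namespace Pool.Agent.MP_71da5e_an

open MeasureTheory Metric Set Laplacian Filter Topology
open scoped ContDiff ENNReal RealInnerProductSpace

variable {n : ℕ}

lemma asm_ae_ne (hn : 3 ≤ n) : ∀ᵐ x : E n, x ≠ 0 := by
  have : Nonempty (Fin n) := ⟨⟨0, by omega⟩⟩
  exact compl_mem_ae_iff.2 (measure_singleton _)

lemma asm_dec_ind {A : ℝ} {q : E n → ℂ} (h : Dec A q) {s : Set (E n)} (hs : MeasurableSet s) :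
    Dec A (s.indicator q) :=
  ⟨h.1.indicator hs, fun x => (norm_indicator_le_norm_self q x).trans (h.2 x)⟩

lemma asm_integrable (hn : 3 ≤ n) {ν a b : E n} (hν : ‖ν‖ = 1) (h : ON a b) (k : ℕ) {A : ℝ}
    {q : E n → ℂ} (hq : Dec A q) :
    Integrable fun x => q x * (obeam ν a (-b) k x * kbeam ν a b k x) := by
  have h1 := integrable_wt_kap hn h k
  have h2 := integrable_rf hν h1
  refine Integrable.mono' ((h1.add h2).const_mul (2 * A)) ?_ ?_
  · exact (hq.1.mul ((contDiff_obeam ν a (-b) k).continuous.measurable.mul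
      (measurable_kbeam ν a b k))).aestronglyMeasurable
  · filter_upwards [asm_ae_ne hn] with x hx
    have hr : 0 < ‖x‖ ^ (2 * k + n - 2) := pow_pos (norm_pos_iff.2 hx) _
    have h3 := norm_obeam_sq_le hν a b k hx
    have h4 : wt (rf ν x) = wt x := by simp only [wt, norm_rf hν]
    have h5 : ‖obeam ν a (-b) k x * kbeam ν a b k x‖ ≤
        2 * (kap a b k x + kap a b k (rf ν x)) := by
      rw [kbeam, norm_mul, norm_div, norm_obeam_neg, Complex.norm_real, Real.norm_of_nonneg hr.le,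
        ← mul_div_assoc, div_le_iff₀ hr]
      linarith
    rw [norm_mul, Pi.add_apply, h4]
    calc _ ≤ A * wt x * (2 * (kap a b k x + kap a b k (rf ν x))) :=
          mul_le_mul (hq.2 x) h5 (norm_nonneg _) (mul_nonneg hq.nonneg (wt_pos x).le)
      _ = _ := by ring

lemma asm_kelU (hn : 3 ≤ n) {k : ℕ} {ρ C Λ A : ℝ} (hρ : 0 < ρ) (hC : 0 < C) (hΛ : 0 < Λ)
    (hw : ∀ x : E n, x ≠ 0 →
      ‖x‖ ^ 4 * wt x ^ 2 * bW k ρ C Λ x * bW k ρ C Λ (inv 0 1 x) ≤ C ^ 2)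
    {q : E n → ℂ} (hq : Dec A q) (U : E n → ℂ) :
    Q (bW k ρ C Λ) (fun x => q x * kel 0 1 U x) ≤
      ENNReal.ofReal (A ^ 2 * C ^ 2) * Q (fun x => (bW k ρ C Λ x)⁻¹) U := by
  have h1 : Q (bW k ρ C Λ) (fun x => q x * kel 0 1 U x) ≤
      Q (fun x => A ^ 2 * (wt x ^ 2 * bW k ρ C Λ x)) (kel 0 1 U) := by
    refine Q_mono fun x => ?_
    have := pow_le_pow_left₀ (norm_nonneg _) (hq.2 x) 2
    have hb := (bW_pos k hρ hC hΛ x).le
    rw [norm_mul, mul_pow]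
    calc _ ≤ bW k ρ C Λ x * ((A * wt x) ^ 2 * ‖kel 0 1 U x‖ ^ 2) := by gcongr
      _ = _ := by ring
  refine h1.trans ?_
  rw [Q_kel 0 one_pos hn, ← Q_const_mul (by positivity)]
  refine Q_mono_left U fun y => ?_
  have hb := bW_pos k hρ hC hΛ y
  by_cases hy : y = 0
  · subst hy
    simp only [jac, sub_zero, norm_zero, ne_eq, OfNat.ofNat_ne_zero, not_false_eq_true, zero_pow,
      div_zero, zero_mul]
    positivity
  · have h2 := hw _ (inv_ne one_pos hy)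
    rw [inv_inv' 0 one_pos, norm_inv_zero] at h2
    have h3 : jac 0 1 y ^ 2 = ‖y‖⁻¹ ^ 4 := by
      rw [jac, sub_zero]; ring
    rw [h3, ← div_eq_mul_inv, le_div_iff₀ hb]
    calc _ = A ^ 2 * (‖y‖⁻¹ ^ 4 * wt (inv 0 1 y) ^ 2 * bW k ρ C Λ (inv 0 1 y) * bW k ρ C Λ y) := by
          ring
      _ ≤ _ := by gcongr

lemma asm_step (hn : 3 ≤ n) {ν a b : E n} (hν : ‖ν‖ = 1) (h : ON a b) {k : ℕ} (hk : 4 ≤ k)
    {ρ C Λ r A e₁ e₂ : ℝ} (hρ : 0 < ρ) (hC : 0 < C) (hΛ : 0 < Λ) (hr : 30 * ρ ≤ r)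
    (he₁ : 0 ≤ e₁) (he₂ : 0 ≤ e₂) {q₁ q₂ : E n → ℂ} (h₁ : Dec A q₁) (h₂ : Dec A q₂)
    (hest : ∀ q w G : E n → ℂ, Dec A q → Measurable G →
      HP ν (ball 0 (30 * ρ)) w (fun x => G x + q x * w x) → Q (aW k ρ) w ≤ Q (bW k ρ C Λ) G)
    (hw : ∀ x : E n, x ≠ 0 →
      ‖x‖ ^ 4 * wt x ^ 2 * bW k ρ C Λ x * bW k ρ C Λ (inv 0 1 x) ≤ C ^ 2)
    (hf : ∀ b' q, b' = b ∨ b' = -b → Dec A q → Q (fun x => (aW k ρ x)⁻¹)
      (fun x => Δ (cb ν a b' k ρ) x - q x * cb ν a b' k ρ x) ≤ ENNReal.ofReal e₁)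
    (hp : ∀ b' (q χ : E n → ℂ), b' = b ∨ b' = -b → Dec (2 * A) q → (∀ x, ‖χ x‖ ≤ 1) →
      Q (bW k ρ C Λ) (fun x => q x * (χ x * obeam ν a b' k x)) ≤ ENNReal.ofReal e₂)
    (hyp : Hyp ν {x | r < ‖x‖ ∧ ‖x‖ < r⁻¹} (ball 0 r) q₁ q₂) :
    ‖∫ x, ((chi ρ x * chi ρ (inv 0 1 x) : ℝ) : ℂ) * ((Hs ν).indicator (fun y => q₁ y - q₂ y) x *
        (obeam ν a (-b) k x * kbeam ν a b k x))‖ ≤
      √e₁ * √(2 * e₂ + 2 * ((2 * A) ^ 2 * C ^ 2 * e₁)) + √e₁ * √e₂ := by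
  have hr0 : 0 < r := by linarith
  have hH := (isOpen_Hs ν).measurableSet
  have hq := asm_dec_ind (h₁.sub h₂) hH
  set q := (Hs ν).indicator fun y => q₁ y - q₂ y with hqd
  obtain ⟨U, hUm, hU, hadm⟩ := sol hn hν h.neg hk hρ hC hΛ hr h₁.kq fun w G => hest _ w G h₁.kq
  replace hU := hU.trans (hf _ _ (Or.inr rfl) h₁.kq)
  have hu := hadm.kel hn hr0
  obtain ⟨w, hw'⟩ := hyp _ hu
  set u := kel 0 1 ((Hs ν).indicator fun x => cb ν a (-b) k ρ x - U x) with hud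
  have hgm : Measurable fun x => (q₁ x - q₂ x) * u x := (h₁.1.sub h₂.1).mul hu.l2.1
  have hQw := hest q₂ w _ h₂ hgm (hw'.mono (ball_subset_ball hr))
  have hid := test_idq hn hν h hk hρ h₂ hw'
  have hχ : ∀ x : E n, ‖((chi ρ (inv 0 1 x) : ℝ) : ℂ)‖ ≤ 1 := fun x => by
    rw [Complex.norm_real, Real.norm_of_nonneg (chi_nonneg _ _)]
    exact chi_le_one _ _
  have hg : ∀ x, x ≠ 0 → (q₁ x - q₂ x) * u x =
      q x * (chi ρ (inv 0 1 x) * obeam ν a (-b) k x) - q x * kel 0 1 U x := by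
    intro x hx
    have hx' : inv 0 1 x ∈ Hs ν ↔ x ∈ Hs ν := by
      have : 0 < ‖x‖ ^ 2 := pow_pos (norm_pos_iff.2 hx) 2
      simp only [Hs, mem_ofPred_eq, inner_inv_zero, div_pos_iff_of_pos_right this]
    rw [← kel_cb hn ν a (-b) k ρ hx, hud, hqd]
    by_cases hxH : x ∈ Hs ν
    · simp only [kel, indicator_of_mem hxH, indicator_of_mem (hx'.2 hxH)]
      ring
    · simp only [kel, indicator_of_notMem hxH, indicator_of_notMem (mt hx'.1 hxH)]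
      ring
  have hbm := measurable_bW (n := n) k ρ C Λ
  have hχm : Measurable fun x : E n => ((chi ρ (inv 0 1 x) : ℝ) : ℂ) :=
    Complex.measurable_ofReal.comp
      ((contDiff_chi ρ).continuous.measurable.comp (measurable_inv' 0 1))
  have hom : ∀ b', Measurable (obeam ν a b' k) := fun b' =>
    (contDiff_obeam ν a b' k).continuous.measurable
  have hQg : Q (bW k ρ C Λ) (fun x => (q₁ x - q₂ x) * u x) ≤
      ENNReal.ofReal (2 * e₂ + 2 * ((2 * A) ^ 2 * C ^ 2 * e₁)) := by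
    rw [Q_congr ((asm_ae_ne hn).mono hg)]
    refine (Q_le_add (a₁ := fun x => 2 * bW k ρ C Λ x) (a₂ := fun x => 2 * bW k ρ C Λ x)
      (w₁ := fun x => q x * (chi ρ (inv 0 1 x) * obeam ν a (-b) k x))
      (w₂ := fun x => q x * kel 0 1 U x) (hbm.const_mul 2) (hq.1.mul (hχm.mul (hom _)))
      fun x => ?_).trans ?_
    · have hb := (bW_pos k hρ hC hΛ x).le
      generalize q x * (chi ρ (inv 0 1 x) * obeam ν a (-b) k x) = s
      generalize q x * kel 0 1 U x = t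
      have h1 : ‖s - t‖ ^ 2 ≤ 2 * ‖s‖ ^ 2 + 2 * ‖t‖ ^ 2 := by
        have := pow_le_pow_left₀ (norm_nonneg _) (norm_sub_le s t) 2
        nlinarith [sq_nonneg (‖s‖ - ‖t‖)]
      nlinarith [mul_le_mul_of_nonneg_left h1 hb]
    · rw [Q_const_mul zero_le_two, Q_const_mul zero_le_two,
        ENNReal.ofReal_add (by positivity) (by positivity), ENNReal.ofReal_mul zero_le_two,
        ENNReal.ofReal_mul zero_le_two, ENNReal.ofReal_mul (by positivity)]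
      gcongr
      · exact hp _ _ _ (Or.inr rfl) hq hχ
      · exact (asm_kelU hn hρ hC hΛ hw hq U).trans (by gcongr)
  have hcb := contDiff_cb ν a b k hρ
  have h3 : ‖∫ x, cb ν a b k ρ x * ((q₁ x - q₂ x) * u x)‖ ≤
      √e₁ * √(2 * e₂ + 2 * ((2 * A) ^ 2 * C ^ 2 * e₁)) := by
    rw [hid]
    exact cs_real (measurable_aW k ρ) (aW_pos k hρ)
      ((contDiff_lap hcb).continuous.measurable.sub (h₂.1.mul hcb.continuous.measurable))
      hw'.l2w.1 he₁ (by positivity) (hf _ _ (Or.inl rfl) h₂) (hQw.trans hQg)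
  have h4 : ‖∫ x, kel 0 1 U x * (q x * cb ν a b k ρ x)‖ ≤ √e₁ * √e₂ := by
    rw [integral_kel_mul 0 one_pos hn]
    refine cs_real hbm (bW_pos k hρ hC hΛ) hUm
      (hq.kq.1.mul (measurable_kel 0 1 hcb.continuous.measurable)) he₁ he₂ hU ?_
    rw [Q_congr (w' := fun x => kq 0 1 q x * (chi ρ (inv 0 1 x) * obeam ν a b k x))
      ((asm_ae_ne hn).mono fun x hx => by simp only [Pi.mul_apply, kel_cb hn ν a b k ρ hx])]
    exact hp _ _ _ (Or.inl rfl) hq.kq hχ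
  have i1 : Integrable fun x => cb ν a b k ρ x * ((q₁ x - q₂ x) * u x) :=
    cs_integrable continuous_wt.measurable wt_pos hcb.continuous.measurable hgm
      (Q_cb_ne_top hn hν h hk hρ) (hu.l2.dec (h₁.sub h₂)).2
  have i2 : Integrable fun x => ((chi ρ x * chi ρ (inv 0 1 x) : ℝ) : ℂ) *
      (q x * (obeam ν a (-b) k x * kbeam ν a b k x)) := by
    refine (asm_integrable hn hν h k hq).bdd_mul (c := 1) ?_ (ae_of_all _ fun x => ?_)
    · exact (Complex.measurable_ofReal.comp ((contDiff_chi ρ).continuous.measurable.mul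
        ((contDiff_chi ρ).continuous.measurable.comp (measurable_inv' 0 1)))).aestronglyMeasurable
    · rw [Complex.norm_real, Real.norm_of_nonneg (mul_nonneg (chi_nonneg _ _) (chi_nonneg _ _))]
      exact mul_le_one₀ (chi_le_one _ _) (chi_nonneg _ _) (chi_le_one _ _)
  have e1 : (fun x => kel 0 1 U x * (q x * cb ν a b k ρ x)) =ᵐ[volume] fun x =>
      ((chi ρ x * chi ρ (inv 0 1 x) : ℝ) : ℂ) * (q x * (obeam ν a (-b) k x * kbeam ν a b k x)) -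
        cb ν a b k ρ x * ((q₁ x - q₂ x) * u x) := by
    filter_upwards [asm_ae_ne hn] with x hx
    rw [hg x hx, cb]
    push_cast
    ring
  rw [integral_congr_ae e1, integral_sub i2 i1] at h4
  exact (norm_le_norm_add_norm_sub' _ _).trans (add_le_add h3 h4)

theorem asm (hn : 3 ≤ n) (A : ℝ) : ∃ (C : ℝ) (k₀ : ℕ), ∀ k, k₀ ≤ k → ∀ (ν a b : E n) (r : ℝ)
    (q₁ q₂ : E n → ℂ), ‖ν‖ = 1 → ON a b → 0 < r → Dec A q₁ → Dec A q₂ →
    Hyp ν {x | r < ‖x‖ ∧ ‖x‖ < r⁻¹} (ball 0 r) q₁ q₂ →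
    ‖∫ x in Hs ν, (q₁ x - q₂ x) * (obeam ν a (-b) k x * kbeam ν a b k x)‖ ≤
      C * mass a b k / k := by
  obtain ⟨k₀, hk₀, hest⟩ := estQ hn A
  obtain ⟨α, hα⟩ : ∃ α, α = 8 * A ^ 2 := ⟨_, rfl⟩
  obtain ⟨β, hβ⟩ : ∃ β, β = 4 * 48 * (2 * A) ^ 2 := ⟨_, rfl⟩
  obtain ⟨γ, hγ⟩ : ∃ γ, γ = (2 * A) ^ 2 * 48 ^ 2 := ⟨_, rfl⟩
  have hα0 : 0 ≤ α := by rw [hα]; positivity
  have hβ0 : 0 ≤ β := by rw [hβ]; positivity
  have hγ0 : 0 ≤ γ := by rw [hγ]; positivity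
  refine ⟨√α * √(2 * β + 2 * (γ * α)) + √α * √β, k₀,
    fun k hk ν a b r q₁ q₂ hν h hr h₁ h₂ hyp => ?_⟩
  obtain ⟨Λ, ρ₀, hΛ, hρ₀, hρ₀', hest⟩ := hest k hk
  have hk4 : 4 ≤ k := hk₀.trans hk
  have hΛ0 : 0 < Λ := by linarith
  obtain ⟨c₁, hc₁, hf₁⟩ := fb hn hν h (k := k) (by omega)
  obtain ⟨c₂, hc₂, hf₂⟩ := fb hn hν h.neg (k := k) (by omega)
  obtain ⟨c₃, hc₃, hp₁⟩ := pb hn hν h k (C := 48) (by norm_num) hΛ0.le (2 * A)
  obtain ⟨c₄, hc₄, hp₂⟩ := pb hn hν h.neg k (C := 48) (by norm_num) hΛ0.le (2 * A)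
  obtain ⟨ρ₁, hρ₁, hw⟩ := wb hn k (C := 48) (by norm_num) hΛ0.le
  rw [mass_neg] at hf₂ hp₂
  have hM := mass_pos hn h k
  set M := mass a b k with hMd
  have hH := (isOpen_Hs ν).measurableSet
  have hq := asm_dec_ind (h₁.sub h₂) hH
  have hI := asm_integrable hn hν h k hq
  have hkR : (1 : ℝ) ≤ k := by exact_mod_cast (by omega)
  have t1 : Tendsto (fun ρ : ℝ => ∫ x, ((chi ρ x * chi ρ (inv 0 1 x) : ℝ) : ℂ) *
      ((Hs ν).indicator (fun y => q₁ y - q₂ y) x * (obeam ν a (-b) k x * kbeam ν a b k x)))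
      (𝓝[>] 0) (𝓝 (∫ x, (Hs ν).indicator (fun y => q₁ y - q₂ y) x *
        (obeam ν a (-b) k x * kbeam ν a b k x))) := by
    refine tendsto_integral_filter_of_dominated_convergence _ (Eventually.of_forall fun ρ => ?_)
      (Eventually.of_forall fun ρ => ae_of_all _ fun x => ?_) hI.norm ?_
    · exact (Complex.measurable_ofReal.comp ((contDiff_chi ρ).continuous.measurable.mul
        ((contDiff_chi ρ).continuous.measurable.comp
          (measurable_inv' 0 1)))).aestronglyMeasurable.mul hI.1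
    · rw [norm_mul, Complex.norm_real,
        Real.norm_of_nonneg (mul_nonneg (chi_nonneg _ _) (chi_nonneg _ _))]
      exact mul_le_of_le_one_left (norm_nonneg _)
        (mul_le_one₀ (chi_le_one _ _) (chi_nonneg _ _) (chi_le_one _ _))
    · filter_upwards [asm_ae_ne hn] with x hx
      refine tendsto_const_nhds.congr' ?_
      have hx1 : 0 < ‖x‖ / 2 := half_pos (norm_pos_iff.2 hx)
      have hx2 : 0 < ‖inv 0 1 x‖ / 2 := half_pos (norm_pos_iff.2 (inv_ne one_pos hx))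
      filter_upwards [Ioc_mem_nhdsGT hx1, Ioc_mem_nhdsGT hx2] with ρ h1 h2
      rw [chi_eq_one h1.1 (by linarith [h1.2]), chi_eq_one h1.1 (by linarith [h2.2])]
      simp
  have t2 : Tendsto (fun ρ : ℝ => √(α * M / k ^ 2 + (c₁ + c₂) * ρ) *
      √(2 * (β * M + (c₃ + c₄) * ρ) + 2 * (γ * (α * M / k ^ 2 + (c₁ + c₂) * ρ))) +
      √(α * M / k ^ 2 + (c₁ + c₂) * ρ) * √(β * M + (c₃ + c₄) * ρ)) (𝓝[>] 0)
      (𝓝 (√(α * M / k ^ 2) * √(2 * (β * M) + 2 * (γ * (α * M / k ^ 2))) +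
        √(α * M / k ^ 2) * √(β * M))) := by
    refine Tendsto.mono_left ?_ nhdsWithin_le_nhds
    refine Continuous.tendsto' (by fun_prop) _ _ ?_
    simp
  have t3 := le_of_tendsto_of_tendsto t1.norm t2 (by
    filter_upwards [Ioc_mem_nhdsGT hρ₀, Ioc_mem_nhdsGT hρ₁,
      Ioc_mem_nhdsGT (show 0 < r / 30 by positivity)] with ρ h1 h2 h3
    have hρ := h1.1
    have hρ1 : ρ ≤ 1 := by linarith [h1.2]
    rw [hγ]
    refine asm_step hn hν h hk4 hρ (by norm_num) hΛ0 (by linarith [h3.2]) (by positivity)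
      (by positivity) h₁ h₂ (fun q w G hq hG hw => hest ν ρ q w G hν hρ h1.2 hq hG hw)
      (hw ρ hρ h2.2) ?_ ?_ hyp
    · rintro b' q (rfl | rfl) hq
      · exact (hf₁ A ρ q hρ hq).trans (ENNReal.ofReal_le_ofReal (by rw [hα]; nlinarith))
      · exact (hf₂ A ρ q hρ hq).trans (ENNReal.ofReal_le_ofReal (by rw [hα]; nlinarith))
    · rintro b' q χ (rfl | rfl) hq hχ
      · exact (hp₁ ρ q χ hρ hρ1 hq hχ).trans (ENNReal.ofReal_le_ofReal (by rw [hβ]; nlinarith))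
      · exact (hp₂ ρ q χ hρ hρ1 hq hχ).trans (ENNReal.ofReal_le_ofReal (by rw [hβ]; nlinarith)))
  rw [← integral_indicator hH]
  have e1 : ((Hs ν).indicator fun x => (q₁ x - q₂ x) * (obeam ν a (-b) k x * kbeam ν a b k x)) =
      fun x => (Hs ν).indicator (fun y => q₁ y - q₂ y) x *
        (obeam ν a (-b) k x * kbeam ν a b k x) := by
    funext x
    by_cases hx : x ∈ Hs ν <;> simp [hx]
  rw [e1]
  refine t3.trans ?_
  have hk0 : (0 : ℝ) < k := by linarith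
  have s1 : √(α * M / k ^ 2) = √α * √M / k := by
    rw [Real.sqrt_div' _ (by positivity), Real.sqrt_sq hk0.le, Real.sqrt_mul hα0]
  have s2 : √(2 * (β * M) + 2 * (γ * (α * M / k ^ 2))) ≤ √(2 * β + 2 * (γ * α)) * √M := by
    rw [← Real.sqrt_mul (by positivity)]
    refine Real.sqrt_le_sqrt ?_
    have : α * M / k ^ 2 ≤ α * M := div_le_self (by positivity) (one_le_pow₀ hkR)
    nlinarith [mul_le_mul_of_nonneg_left this hγ0]
  have s3 : √M * √M = M := Real.mul_self_sqrt hM.le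
  rw [s1, Real.sqrt_mul hβ0]
  calc _ ≤ √α * √M / k * (√(2 * β + 2 * (γ * α)) * √M) + √α * √M / k * (√β * √M) := by gcongr
    _ = (√α * √(2 * β + 2 * (γ * α)) + √α * √β) * (√M * √M) / k := by ring
    _ = _ := by rw [s3]

end Pool.Agent.MP_71da5e_an
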