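import Pool.Agent.MP_71da5e_an.BeamA

namespace Pool.Agent.MP_71da5e_an

open MeasureTheory Metric Set Laplacian Filter Topology
open scoped ContDiff ENNReal RealInnerProductSpace

variable {n : ℕ}

/-- The average of `q` over translations along the hyperplane and dilations. -/
noncomputable def avg (ν : E n) (f : E n → ℝ) (q : E n → ℂ) (x : E n) : ℂ :=
  ∫ w, f w • q (⟪w, ν⟫ • x + (w - ⟪w, ν⟫ • ν))

theorem avg_nu (ν : E n) (f : E n → ℝ) (q : E n → ℂ) : avg ν f q ν = ∫ w, f w • q w := by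
  simp [avg]

lemma avgA_wt {l W : ℝ} (hl : 0 < l) (hl1 : l ≤ 1) {t : ℝ} (ht : l ≤ t) (x z : E n)
    (hz : ‖z‖ ≤ W) : wt (t • x + z) ≤ (2 * (1 + W ^ 2)) ^ 2 * (l ^ 4)⁻¹ * wt x := by
  have h1 : wt (t • x) ≤ (l ^ 4)⁻¹ * wt x := by
    rw [wt, wt, ← mul_inv, norm_smul, Real.norm_of_nonneg (hl.le.trans ht)]
    refine inv_anti₀ (by positivity) ?_
    rw [show l ^ 4 * (1 + ‖x‖ ^ 2) ^ 2 = (l ^ 2 + (l * ‖x‖) ^ 2) ^ 2 by ring]
    gcongr
    exact pow_le_one₀ hl.le hl1
  have h2 := (wt_pos (t • x)).le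
  refine (wt_add_le z _).trans ?_
  rw [mul_assoc]
  gcongr

theorem dec_avg {ν : E n} (hν : ‖ν‖ = 1) {f : E n → ℝ} (hf : Continuous f)
    (hc : HasCompactSupport f) (hs : tsupport f ⊆ Hs ν) {A : ℝ} {q : E n → ℂ} (hq : Dec A q) :
    ∃ A', Dec A' (avg ν f q) := by
  obtain ⟨l, hl, hl1, h⟩ : ∃ l : ℝ, 0 < l ∧ l ≤ 1 ∧ ∀ w ∈ tsupport f, l ≤ ⟪w, ν⟫ := by
    rcases (tsupport f).eq_empty_or_nonempty with h | h
    · exact ⟨1, one_pos, le_rfl, by simp [h]⟩
    · obtain ⟨w, hw, h1⟩ := hc.isCompact.exists_isMinOn h (f := fun w => ⟪w, ν⟫) (by fun_prop)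
      exact ⟨min ⟪w, ν⟫ 1, lt_min (hs hw) one_pos, min_le_right _ _,
        fun v hv => (min_le_left _ _).trans (h1 hv)⟩
  obtain ⟨R, hR⟩ := hc.isBounded.subset_closedBall 0
  have hi := (hf.integrable_of_hasCompactSupport (μ := volume) hc).norm
  refine ⟨(∫ w, ‖f w‖) * (A * ((2 * (1 + (2 * R) ^ 2)) ^ 2 * (l ^ 4)⁻¹)), ?_, fun x => ?_⟩
  · refine (StronglyMeasurable.integral_prod_right
      (f := fun x w => f w • q (⟪w, ν⟫ • x + (w - ⟪w, ν⟫ • ν))) ?_).measurable
    refine Measurable.stronglyMeasurable ?_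
    exact (hf.measurable.comp measurable_snd).smul (hq.1.comp (Continuous.measurable (by fun_prop)))
  · rw [mul_assoc, ← integral_mul_const]
    refine norm_integral_le_of_norm_le (hi.mul_const _) (ae_of_all _ fun w => ?_)
    rw [norm_smul]
    by_cases hw : w ∈ tsupport f
    · refine mul_le_mul_of_nonneg_left ((hq.2 _).trans ?_) (norm_nonneg _)
      rw [mul_assoc]
      refine mul_le_mul_of_nonneg_left (avgA_wt hl hl1 (h w hw) x _ ?_) hq.nonneg
      have h1 : ‖w‖ ≤ R := mem_closedBall_zero_iff.1 (hR hw)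
      have h2 := abs_real_inner_le_norm w ν
      refine (norm_sub_le _ _).trans ?_
      rw [norm_smul, hν, Real.norm_eq_abs]
      rw [hν] at h2
      linarith
    · simp [image_eq_zero_of_notMem_tsupport hw]

/-- The inverse of the linear map `w ↦ ⟪w, ν⟫ • x + (w - ⟪w, ν⟫ • ν)`. -/
noncomputable def avgC (ν x : E n) : E n →L[ℝ] E n :=
  ContinuousLinearMap.id ℝ _ - (innerSL ℝ ν).smulRight (⟪x, ν⟫⁻¹ • (x - ν))

lemma avgC_apply (ν x v : E n) : avgC ν x v = v - ⟪v, ν⟫ • ⟪x, ν⟫⁻¹ • (x - ν) := by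
  simp [avgC, real_inner_comm]

lemma avgC_right {ν x : E n} (hν : ‖ν‖ = 1) (hx : ⟪x, ν⟫ ≠ 0) (v : E n) :
    ⟪avgC ν x v, ν⟫ • x + (avgC ν x v - ⟪avgC ν x v, ν⟫ • ν) = v := by
  have h : ⟪avgC ν x v, ν⟫ = ⟪v, ν⟫ * ⟪x, ν⟫⁻¹ := by
    simp only [avgC_apply, inner_sub_left, real_inner_smul_left, real_inner_self_eq_norm_sq, hν]
    field_simp
    ring
  rw [h, avgC_apply]
  module

lemma avg_eq {ν x : E n} (hν : ‖ν‖ = 1) (hx : ⟪x, ν⟫ ≠ 0) (f : E n → ℝ) (q : E n → ℂ) :
    avg ν f q x = |(avgC ν x).det| • ∫ v, f (avgC ν x v) • q v := by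
  have hi : Function.Injective (avgC ν x) := fun v w h => by
    rw [← avgC_right hν hx v, h, avgC_right hν hx]
  have hs : Function.Surjective (avgC ν x) :=
    LinearMap.injective_iff_surjective (f := (avgC ν x).toLinearMap).1 hi
  have := integral_image_eq_integral_abs_det_fderiv_smul volume MeasurableSet.univ
    (fun v _ => (avgC ν x).hasFDerivAt.hasFDerivWithinAt) hi.injOn
    fun w => f w • q (⟪w, ν⟫ • x + (w - ⟪w, ν⟫ • ν))
  rw [image_univ, hs.range_eq, Measure.restrict_univ, integral_smul] at this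
  simp only [avgC_right hν hx] at this
  exact this

theorem continuousOn_avg {ν : E n} (hν : ‖ν‖ = 1) {f : E n → ℝ} (hf : Continuous f)
    (hc : HasCompactSupport f) {A : ℝ} {q : E n → ℂ} (hq : Dec A q) :
    ContinuousOn (avg ν f q) (Pl ν)ᶜ := by
  intro x₀ hx₀
  have hx₀' : ⟪x₀, ν⟫ ≠ 0 := hx₀
  have hev : ∀ᶠ x in 𝓝 x₀, ⟪x, ν⟫ ≠ 0 := (isClosed_Pl ν).isOpen_compl.mem_nhds hx₀
  have h1 : ContinuousAt (fun x : E n => ⟪x, ν⟫⁻¹ • (x - ν)) x₀ :=
    (ContinuousAt.inv₀ (f := fun x : E n => ⟪x, ν⟫) (by fun_prop) hx₀').smul (by fun_prop)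
  have h2 : ContinuousAt (avgC ν) x₀ :=
    continuousAt_const.sub
      ((ContinuousLinearMap.smulRightL ℝ (E n) (E n) (innerSL ℝ ν)).continuous.continuousAt.comp h1)
  obtain ⟨R, hR0, hR⟩ := hc.isBounded.subset_closedBall_lt 0 0
  obtain ⟨M, hM⟩ := hf.bounded_above_of_compact_support hc
  refine ContinuousAt.continuousWithinAt (ContinuousAt.congr ?_
    (hev.mono fun x hx => (avg_eq hν hx f q).symm))
  refine (ContinuousLinearMap.continuous_det.continuousAt.comp h2).abs.smul ?_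
  refine continuousAt_of_dominated
    (bound := (closedBall 0 (R * (‖x₀‖ + 3))).indicator fun _ => M * A)
    (Eventually.of_forall fun x => ?_) ?_ ?_ (ae_of_all _ fun v => ?_)
  · exact ((hf.comp (avgC ν x).continuous).measurable.smul hq.1).aestronglyMeasurable
  · filter_upwards [hev, ball_mem_nhds x₀ one_pos] with x hx hx1
    refine ae_of_all _ fun v => ?_
    by_cases hv : avgC ν x v ∈ tsupport f
    · have h3 : ‖avgC ν x v‖ ≤ R := mem_closedBall_zero_iff.1 (hR hv)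
      have h4 := abs_real_inner_le_norm (avgC ν x v) ν
      have h5 : ‖x‖ ≤ ‖x₀‖ + 1 := by
        have := norm_le_norm_add_norm_sub' x x₀
        linarith [mem_ball_iff_norm.1 hx1]
      have h6 : ‖v‖ ≤ R * (‖x₀‖ + 3) := by
        rw [← avgC_right hν hx v]
        refine (norm_add_le _ _).trans ((add_le_add le_rfl (norm_sub_le _ _)).trans ?_)
        rw [norm_smul, norm_smul, hν, Real.norm_eq_abs]
        rw [hν] at h4
        have h7 : |⟪avgC ν x v, ν⟫| * ‖x‖ ≤ R * (‖x₀‖ + 1) :=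
          mul_le_mul (by linarith) h5 (norm_nonneg _) hR0.le
        linarith
      rw [indicator_of_mem (mem_closedBall_zero_iff.2 h6), norm_smul]
      exact mul_le_mul (hM _) ((hq.2 v).trans (mul_le_of_le_one_right hq.nonneg (wt_le_one v)))
        (norm_nonneg _) ((norm_nonneg _).trans (hM 0))
    · rw [image_eq_zero_of_notMem_tsupport hv, zero_smul, norm_zero]
      exact indicator_nonneg (fun _ _ => mul_nonneg ((norm_nonneg _).trans (hM 0)) hq.nonneg) v
  · exact (integrableOn_const measure_closedBall_lt_top.ne).integrable_indicator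
      measurableSet_closedBall
  · exact (hf.continuousAt.comp (h2.clm_apply continuousAt_const)).smul continuousAt_const

end Pool.Agent.MP_71da5e_an
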