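import Pool.Agent.MP_71da5e_an.AvgA

namespace Pool.Agent.MP_71da5e_an

open MeasureTheory Metric Set Laplacian Filter Topology
open scoped ContDiff ENNReal RealInnerProductSpace

variable {n : ℕ}

lemma avgB_wt_smul {l t : ℝ} (hl : 0 < l) (hl1 : l ≤ 1) (ht : l ≤ t) (x : E n) :
    wt (t • x) ≤ (l ^ 4)⁻¹ * wt x := by
  unfold wt
  rw [← mul_inv, norm_smul, Real.norm_of_nonneg (hl.le.trans ht)]
  refine inv_anti₀ (by positivity) ?_
  have h1 : l ^ 2 * (1 + ‖x‖ ^ 2) ≤ 1 + (t * ‖x‖) ^ 2 := by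
    have h2 : l ^ 2 ≤ 1 := pow_le_one₀ hl.le hl1
    have h3 : l ^ 2 ≤ t ^ 2 := pow_le_pow_left₀ hl.le ht 2
    have h4 : l ^ 2 * ‖x‖ ^ 2 ≤ t ^ 2 * ‖x‖ ^ 2 := mul_le_mul_of_nonneg_right h3 (sq_nonneg _)
    nlinarith
  calc l ^ 4 * (1 + ‖x‖ ^ 2) ^ 2 = (l ^ 2 * (1 + ‖x‖ ^ 2)) ^ 2 := by ring
    _ ≤ _ := pow_le_pow_left₀ (by positivity) h1 2

lemma avgB_scale (hn : 3 ≤ n) (a b : E n) (k : ℕ) (q : E n → ℂ) (y : E n) {t : ℝ} (ht : 0 < t) :
    ∫ x, q (t • x + y) * kap a b k x =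
      (((t ^ 2)⁻¹ : ℝ) : ℂ) * ∫ x, q (x + y) * kap a b k x := by
  have h := Measure.integral_comp_smul (volume : Measure (E n))
    (fun x => q (x + y) * (kap a b k x : ℂ)) t
  simp only [kap_smul hn a b k ht, finrank_euclideanSpace, Fintype.card_fin] at h
  have h2 : ∫ x, q (t • x + y) * (((t ^ (n - 2))⁻¹ * kap a b k x : ℝ) : ℂ) =
      (((t ^ (n - 2))⁻¹ : ℝ) : ℂ) * ∫ x, q (t • x + y) * kap a b k x := by
    rw [← integral_const_mul]
    refine integral_congr_ae (Eventually.of_forall fun x => ?_)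
    push_cast
    ring
  rw [h2, abs_of_pos (by positivity), Complex.real_smul] at h
  have h3 : t ^ n = t ^ (n - 2) * t ^ 2 := by
    rw [← pow_add]
    congr 1
    omega
  have h4 : (((t ^ (n - 2))⁻¹ : ℝ) : ℂ) ≠ 0 := by
    exact_mod_cast (by positivity : (t ^ (n - 2))⁻¹ ≠ 0)
  refine mul_left_cancel₀ h4 ?_
  rw [h, h3, mul_inv]
  push_cast
  ring

lemma avgB_consts {ν : E n} {f : E n → ℝ} (hc : HasCompactSupport f) (hs : tsupport f ⊆ Hs ν) :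
    ∃ l W : ℝ, 0 < l ∧ l ≤ 1 ∧ 0 ≤ W ∧ ∀ w, f w ≠ 0 → l ≤ ⟪w, ν⟫ ∧ ‖w‖ ≤ W := by
  obtain ⟨l, hl, hl'⟩ := hc.isCompact.exists_forall_le' (f := fun w : E n => ⟪w, ν⟫)
    (by fun_prop) (a := 0) fun w hw => hs hw
  obtain ⟨W, hW⟩ := hc.isCompact.isBounded.exists_norm_le
  refine ⟨min l 1, max W 0, lt_min hl one_pos, min_le_right _ _, le_max_right _ _, fun w hw => ?_⟩
  have hw' : w ∈ tsupport f := subset_tsupport f hw
  exact ⟨(min_le_left _ _).trans (hl' w hw'), (hW w hw').trans (le_max_left _ _)⟩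

lemma avgB_shift {ν : E n} (hν : ‖ν‖ = 1) {l W : ℝ} (hl : 0 < l) {w z : E n} (hz : z ∈ Pl ν)
    (h₁ : l ≤ ⟪w, ν⟫) (h₂ : ‖w‖ ≤ W) :
    ⟪w, ν⟫ • z + (w - ⟪w, ν⟫ • ν) ∈ Pl ν ∧
      l * ‖z‖ - 2 * W ≤ ‖⟪w, ν⟫ • z + (w - ⟪w, ν⟫ • ν)‖ ∧
      ‖⟪w, ν⟫ • z + (w - ⟪w, ν⟫ • ν)‖ ≤ W * ‖z‖ + 2 * W := by
  have h0 : 0 ≤ ⟪w, ν⟫ := hl.le.trans h₁
  have h3 : ⟪w, ν⟫ ≤ W := by
    have := real_inner_le_norm w ν
    rw [hν, mul_one] at this
    exact this.trans h₂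
  have h4 : ‖w - ⟪w, ν⟫ • ν‖ ≤ 2 * W := by
    have := norm_sub_le w (⟪w, ν⟫ • ν)
    rw [norm_smul, hν, mul_one, Real.norm_of_nonneg h0] at this
    linarith
  have h5 : ‖⟪w, ν⟫ • z‖ = ⟪w, ν⟫ * ‖z‖ := by rw [norm_smul, Real.norm_of_nonneg h0]
  refine ⟨?_, ?_, ?_⟩
  · have hz' : ⟪z, ν⟫ = 0 := hz
    change ⟪⟪w, ν⟫ • z + (w - ⟪w, ν⟫ • ν), ν⟫ = 0
    rw [inner_add_left, inner_sub_left, real_inner_smul_left, real_inner_smul_left, hz',
      real_inner_self_eq_norm_sq, hν]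
    ring
  · have h6 := norm_sub_le (⟪w, ν⟫ • z + (w - ⟪w, ν⟫ • ν)) (w - ⟪w, ν⟫ • ν)
    rw [add_sub_cancel_right, h5] at h6
    have h7 : l * ‖z‖ ≤ ⟪w, ν⟫ * ‖z‖ := mul_le_mul_of_nonneg_right h₁ (norm_nonneg _)
    linarith
  · have h6 := norm_add_le (⟪w, ν⟫ • z) (w - ⟪w, ν⟫ • ν)
    rw [h5] at h6
    have h7 : ⟪w, ν⟫ * ‖z‖ ≤ W * ‖z‖ := mul_le_mul_of_nonneg_right h3 (norm_nonneg _)
    linarith

theorem tendsto_avg (hn : 3 ≤ n) {ν : E n} (hν : ‖ν‖ = 1) {f : E n → ℝ} (hf : Continuous f)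
    (hc : HasCompactSupport f) (hs : tsupport f ⊆ Hs ν) {A : ℝ} {q : E n → ℂ} (hq : Dec A q)
    (R : ℝ) : ∃ R' : ℝ, ∀ a b : E n, ON a b →
      (∀ z ∈ Pl ν, R ≤ ‖z‖ →
        Tendsto (fun k => (∫ x, q (x + z) * kap a b k x) / mass a b k) atTop (𝓝 0)) →
      ∀ z ∈ Pl ν, R' ≤ ‖z‖ →
        Tendsto (fun k => (∫ x, avg ν f q (x + z) * kap a b k x) / mass a b k) atTop (𝓝 0) := by
  obtain ⟨l, W, hl, hl1, hW, hlW⟩ := avgB_consts hc hs
  refine ⟨(R + 2 * W) / l, fun a b hab hlim z hz hR => ?_⟩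
  have hA := hq.nonneg
  have hfi : Integrable f := hf.integrable_of_hasCompactSupport hc
  set ζ : E n → E n := fun w => ⟪w, ν⟫ • z + (w - ⟪w, ν⟫ • ν) with hζ
  set C : ℝ := A * (2 * (1 + (W * ‖z‖ + 2 * W) ^ 2)) ^ 2 * (l ^ 4)⁻¹ with hC
  set G : ℕ → E n → E n → ℂ := fun k x w => f w • q (⟪w, ν⟫ • x + ζ w) * kap a b k x with hG
  have hb : ∀ k x w, ‖G k x w‖ ≤ wt x * kap a b k x * (C * ‖f w‖) := by
    intro k x w
    by_cases hw : f w = 0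
    · simp [hG, hw]
    obtain ⟨h₁, h₂⟩ := hlW w hw
    obtain ⟨-, -, h₃⟩ := avgB_shift hν hl hz h₁ h₂
    have h4 : ‖q (⟪w, ν⟫ • x + ζ w)‖ ≤ C * wt x := by
      have h5 : (2 * (1 + ‖ζ w‖ ^ 2)) ^ 2 ≤ (2 * (1 + (W * ‖z‖ + 2 * W) ^ 2)) ^ 2 := by
        gcongr
      have h6 := (wt_pos (⟪w, ν⟫ • x)).le
      calc ‖q (⟪w, ν⟫ • x + ζ w)‖ ≤ A * wt (⟪w, ν⟫ • x + ζ w) := hq.2 _
        _ ≤ A * ((2 * (1 + ‖ζ w‖ ^ 2)) ^ 2 * wt (⟪w, ν⟫ • x)) :=
          mul_le_mul_of_nonneg_left (wt_add_le _ _) hA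
        _ ≤ A * ((2 * (1 + (W * ‖z‖ + 2 * W) ^ 2)) ^ 2 * ((l ^ 4)⁻¹ * wt x)) :=
          mul_le_mul_of_nonneg_left
            (mul_le_mul h5 (avgB_wt_smul hl hl1 h₁ x) h6 (by positivity)) hA
        _ = C * wt x := by rw [hC]; ring
    have h7 := kap_nonneg a b k x
    calc ‖G k x w‖ = ‖f w‖ * ‖q (⟪w, ν⟫ • x + ζ w)‖ * kap a b k x := by
          simp only [hG, norm_mul, norm_smul, Complex.norm_real, Real.norm_of_nonneg h7]
      _ ≤ ‖f w‖ * (C * wt x) * kap a b k x := by gcongr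
      _ = _ := by ring
  have hm : ∀ k, Measurable (Function.uncurry (G k)) := by
    intro k
    have h1 : Measurable fun p : E n × E n => q (⟪p.2, ν⟫ • p.1 + ζ p.2) :=
      hq.1.comp (by simp only [hζ]; fun_prop)
    have h2 : Measurable fun p : E n × E n => (kap a b k p.1 : ℂ) :=
      Complex.measurable_ofReal.comp ((measurable_kap a b k).comp measurable_fst)
    exact ((hf.measurable.comp measurable_snd).smul h1).mul h2
  have hi : ∀ k, Integrable (Function.uncurry (G k)) (volume.prod volume) := fun k =>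
    ((integrable_wt_kap hn hab k).mul_prod (hfi.norm.const_mul C)).mono'
      (hm k).aestronglyMeasurable (Eventually.of_forall fun p => hb k p.1 p.2)
  have he : ∀ k, (∫ x, avg ν f q (x + z) * kap a b k x) / mass a b k =
      ∫ w, (∫ x, G k x w) / mass a b k := by
    intro k
    rw [integral_div, ← integral_integral_swap (hi k)]
    congr 1
    refine integral_congr_ae (Eventually.of_forall fun x => ?_)
    simp only [avg, hG, hζ, smul_add, add_assoc]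
    rw [integral_mul_const]
  simp only [he]
  have h0 : (0 : ℂ) = ∫ _ : E n, (0 : ℂ) := by simp
  rw [h0]
  refine tendsto_integral_of_dominated_convergence (fun w => C * ‖f w‖)
    (fun k => ((hi k).integral_prod_right.div_const _).aestronglyMeasurable)
    (hfi.norm.const_mul C) (fun k => Eventually.of_forall fun w => ?_)
    (Eventually.of_forall fun w => ?_)
  · have h1 := mass_pos hn hab k
    rw [norm_div, Complex.norm_real, Real.norm_of_nonneg h1.le, div_le_iff₀ h1]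
    calc ‖∫ x, G k x w‖ ≤ ∫ x, wt x * kap a b k x * (C * ‖f w‖) :=
          norm_integral_le_of_norm_le ((integrable_wt_kap hn hab k).mul_const _)
            (Eventually.of_forall fun x => hb k x w)
      _ = _ := by rw [integral_mul_const, mass, mul_comm]
  · by_cases hw : f w = 0
    · simp [hG, hw]
    obtain ⟨h₁, h₂⟩ := hlW w hw
    obtain ⟨h₃, h₄, -⟩ := avgB_shift hν hl hz h₁ h₂
    have h5 : R ≤ ‖ζ w‖ := by
      rw [div_le_iff₀ hl] at hR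
      change R ≤ ‖⟪w, ν⟫ • z + (w - ⟪w, ν⟫ • ν)‖
      linarith
    have h6 := (hlim (ζ w) h₃ h5).const_mul ((f w : ℂ) * (((⟪w, ν⟫ ^ 2)⁻¹ : ℝ) : ℂ))
    rw [mul_zero] at h6
    refine h6.congr fun k => ?_
    have h7 : ∫ x, G k x w = (f w : ℂ) * ∫ x, q (⟪w, ν⟫ • x + ζ w) * kap a b k x := by
      rw [← integral_const_mul]
      refine integral_congr_ae (Eventually.of_forall fun x => ?_)
      simp only [hG, Complex.real_smul, mul_assoc]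
    rw [h7, avgB_scale hn a b k q (ζ w) (hl.trans_le h₁)]
    ring

end Pool.Agent.MP_71da5e_an
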