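import Pool.Agent.MP_71da5e_an.Calc

namespace Pool.Agent.MP_71da5e_an

open MeasureTheory Metric Set Laplacian Filter Topology
open scoped ContDiff ENNReal RealInnerProductSpace

variable {n : ℕ}

lemma ball1_bound {F : Type*} [NormedAddCommGroup F] {g : E n → F} (hg : Continuous g) :
    ∃ C, 0 ≤ C ∧ ∀ x ∈ closedBall (0 : E n) 1, ‖g x‖ ≤ C := by
  obtain ⟨C, hC⟩ := (isCompact_closedBall (0 : E n) 1).exists_bound_of_continuousOn
    hg.continuousOn
  exact ⟨max C 0, le_max_right _ _, fun x hx => (hC x hx).trans (le_max_left _ _)⟩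

lemma ball1_mul {f g : E n → ℂ} (hf : IntegrableOn f (ball 0 1)) (hg : Continuous g) :
    IntegrableOn (fun x => f x * g x) (ball 0 1) := by
  obtain ⟨C, -, hC⟩ := ball1_bound hg
  refine Integrable.mul_bdd (c := C) hf hg.aestronglyMeasurable ?_
  filter_upwards [ae_restrict_mem measurableSet_ball] with x hx
  exact hC x (ball_subset_closedBall hx)

lemma ball1_int_u {u : E n → ℂ} (hu : MemLp u 2 (volume.restrict (ball 0 1))) :
    IntegrableOn u (ball 0 1) := by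
  have : IsFiniteMeasure (volume.restrict (ball (0 : E n) 1)) :=
    isFiniteMeasure_restrict.2 measure_ball_lt_top.ne
  exact hu.integrable one_le_two

lemma ball1_int_qu {q u : E n → ℂ} (hq : MemLp q ⊤ (volume.restrict (ball 0 1)))
    (hu : MemLp u 2 (volume.restrict (ball 0 1))) :
    IntegrableOn (fun x => q x * u x) (ball 0 1) :=
  Integrable.mul_of_top_right (ball1_int_u hu) hq

lemma ball1_two {F : Type*} [NormedAddCommGroup F] [NormedSpace ℝ F] {φ : E n → F}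
    (hφ : ContDiff ℝ ∞ φ) (x : E n) : ContDiffAt ℝ 2 φ x :=
  (hφ.of_le (WithTop.coe_le_coe.2 le_top :
    ((2 : ℕ∞) : WithTop ℕ∞) ≤ ((⊤ : ℕ∞) : WithTop ℕ∞))).contDiffAt

theorem integrable_green {q u φ : E n → ℂ} (hq : MemLp q ⊤ (volume.restrict (ball 0 1)))
    (hu : MemLp u 2 (volume.restrict (ball 0 1))) (hφ : ContDiff ℝ ∞ φ) :
    IntegrableOn (fun x => q x * u x * φ x - u x * Δ φ x) (ball 0 1) :=
  Integrable.sub (ball1_mul (ball1_int_qu hq hu) hφ.continuous)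
    (ball1_mul (ball1_int_u hu) (contDiff_lap hφ).continuous)

theorem green_add {q u φ ψ : E n → ℂ} (hq : MemLp q ⊤ (volume.restrict (ball 0 1)))
    (hu : MemLp u 2 (volume.restrict (ball 0 1))) (hφ : ContDiff ℝ ∞ φ) (hψ : ContDiff ℝ ∞ ψ) :
    green q u (fun x => φ x + ψ x) = green q u φ + green q u ψ := by
  unfold green
  rw [← integral_add (integrable_green hq hu hφ) (integrable_green hq hu hψ)]
  refine integral_congr_ae (Eventually.of_forall fun x => ?_)
  have h : Δ (fun x => φ x + ψ x) x = Δ φ x + Δ ψ x :=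
    (ball1_two hφ x).laplacian_add (ball1_two hψ x)
  simp only [h]
  ring

theorem contDiff_rho : ContDiff ℝ ∞ (rho : E n → ℂ) := by
  unfold rho
  exact Complex.ofRealCLM.contDiff.comp (((contDiff_norm_sq ℝ).sub contDiff_const).div_const 2)

theorem green_split {q u φ : E n → ℂ} (hq : MemLp q ⊤ (volume.restrict (ball 0 1)))
    (hu : MemLp u 2 (volume.restrict (ball 0 1))) (hφ : ContDiff ℝ ∞ φ) :
    green q u φ = neumann q u φ - dirichlet q u fun x => fderiv ℝ φ x x := by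
  have hD : ContDiff ℝ ∞ fun x : E n => fderiv ℝ φ x x :=
    (hφ.fderiv_right (m := ∞) (by simp)).clm_apply contDiff_id
  have h1 : ContDiff ℝ ∞ fun x : E n => rho x * fderiv ℝ φ x x := contDiff_rho.mul hD
  unfold neumann dirichlet
  rw [sub_neg_eq_add, ← green_add hq hu (hφ.sub h1) h1]
  simp only [sub_add_cancel]

lemma ball1_hasFDeriv {g : ℝ → ℝ} (hg : Differentiable ℝ g) (j : ℝ) (x : E n) :
    HasFDerivAt (fun y : E n => g (j * (1 - ‖y‖ ^ 2) - 1))
      ((-(2 * j) * deriv g (j * (1 - ‖x‖ ^ 2) - 1)) • innerSL ℝ x) x := by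
  have h1 : HasFDerivAt (fun y : E n => ‖y‖ ^ 2) (2 • innerSL ℝ x) x :=
    (hasStrictFDerivAt_norm_sq x).hasFDerivAt
  have h2 := ((h1.const_sub 1).const_mul j).sub_const 1
  have h3 := (hg (j * (1 - ‖x‖ ^ 2) - 1)).hasDerivAt.comp_hasFDerivAt x h2
  refine h3.congr_fderiv ?_
  ext v
  simp
  ring

lemma ball1_contDiff {g : ℝ → ℝ} (hg : ContDiff ℝ ∞ g) (j : ℝ) :
    ContDiff ℝ ∞ fun y : E n => g (j * (1 - ‖y‖ ^ 2) - 1) :=
  hg.comp ((contDiff_const.mul (contDiff_const.sub (contDiff_norm_sq ℝ))).sub contDiff_const)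

lemma ball1_norm_ev (i : Fin n) : ‖(ev i : E n)‖ = 1 := by simp [ev]

lemma ball1_grad {g : ℝ → ℝ} (hg : ContDiff ℝ ∞ g) {j M : ℝ} (hj : 0 ≤ j) {x : E n}
    (hx : ‖x‖ ≤ 1) (hM : |deriv g (j * (1 - ‖x‖ ^ 2) - 1)| ≤ M) :
    ‖gradient (fun y : E n => g (j * (1 - ‖y‖ ^ 2) - 1)) x‖ ≤ 2 * j * M := by
  rw [norm_gradient_eq, (ball1_hasFDeriv (hg.differentiable (by simp)) j x).fderiv, norm_smul,
    innerSL_apply_norm, Real.norm_eq_abs, abs_mul, abs_neg, abs_of_nonneg (by positivity)]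
  have h0 : 0 ≤ M := (abs_nonneg _).trans hM
  calc 2 * j * |deriv g (j * (1 - ‖x‖ ^ 2) - 1)| * ‖x‖ ≤ 2 * j * M * 1 := by gcongr
    _ = 2 * j * M := mul_one _

lemma ball1_lap {g : ℝ → ℝ} (hg : ContDiff ℝ ∞ g) {j M : ℝ} (hj : 1 ≤ j) {x : E n}
    (hx : ‖x‖ ≤ 1) (hM : |deriv g (j * (1 - ‖x‖ ^ 2) - 1)| ≤ M)
    (hM' : |deriv (deriv g) (j * (1 - ‖x‖ ^ 2) - 1)| ≤ M) :
    |Δ (fun y : E n => g (j * (1 - ‖y‖ ^ 2) - 1)) x| ≤ n * (6 * j ^ 2 * M) := by
  have hd : Differentiable ℝ g := hg.differentiable (by simp)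
  have hd' : Differentiable ℝ (deriv g) :=
    (hg.iterate_deriv 1).differentiable (by simp)
  have h0 : 0 ≤ M := (abs_nonneg _).trans hM
  rw [lap_eq (ball1_two (ball1_contDiff hg j) x)]
  refine (Finset.abs_sum_le_sum_abs _ _).trans ?_
  refine (Finset.sum_le_card_nsmul _ _ (6 * j ^ 2 * M) fun i _ => ?_).trans (by simp)
  have h1 : (fun y : E n => fderiv ℝ (fun y : E n => g (j * (1 - ‖y‖ ^ 2) - 1)) y (ev i)) =
      fun y => (-(2 * j) * deriv g (j * (1 - ‖y‖ ^ 2) - 1)) * innerSL ℝ (ev i : E n) y := by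
    funext y
    rw [(ball1_hasFDeriv hd j y).fderiv]
    simp [real_inner_comm]
  have h2 := ((ball1_hasFDeriv hd' j x).const_mul (-(2 * j))).mul
    (innerSL ℝ (ev i : E n)).hasFDerivAt
  rw [h1]
  erw [h2.fderiv]
  have ha : |⟪x, (ev i : E n)⟫| ≤ 1 := (abs_real_inner_le_norm _ _).trans (by
    rw [ball1_norm_ev, mul_one]; exact hx)
  have hb : ⟪(ev i : E n), ev i⟫ = 1 := by
    rw [real_inner_self_eq_norm_sq, ball1_norm_ev]; norm_num
  simp only [add_apply, smul_apply, innerSL_apply_apply,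
    smul_eq_mul, hb, real_inner_comm x (ev i)]
  set a := ⟪x, (ev i : E n)⟫
  set A := deriv g (j * (1 - ‖x‖ ^ 2) - 1)
  set B := deriv (deriv g) (j * (1 - ‖x‖ ^ 2) - 1)
  have e : -(2 * j) * A * 1 + a * (-(2 * j) * (-(2 * j) * B * a)) =
      -(2 * j * A) + 4 * j ^ 2 * (a * a * B) := by ring
  rw [e]
  have h3 : |a * a * B| ≤ M := by
    rw [abs_mul, abs_mul]
    calc |a| * |a| * |B| ≤ 1 * 1 * M := by gcongr
      _ = M := by ring
  have hj0 : 0 ≤ j := by linarith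
  calc |-(2 * j * A) + 4 * j ^ 2 * (a * a * B)|
      ≤ |-(2 * j * A)| + |4 * j ^ 2 * (a * a * B)| := abs_add_le _ _
    _ = 2 * j * |A| + 4 * j ^ 2 * |a * a * B| := by
        rw [abs_neg, abs_mul (2 * j), abs_mul (4 * j ^ 2), abs_of_nonneg (by positivity : 0 ≤ 2 * j),
          abs_of_nonneg (by positivity : 0 ≤ 4 * j ^ 2)]
    _ ≤ 2 * j ^ 2 * M + 4 * j ^ 2 * M := by
        gcongr
        nlinarith
    _ = 6 * j ^ 2 * M := by ring

/-- A smooth function that vanishes to second order on the sphere. -/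
lemma ball1_flat {ψ : E n → ℂ} (hψ : ContDiff ℝ ∞ ψ)
    (h0 : ∀ x ∈ sphere (0 : E n) 1, ψ x = 0) (h1 : ∀ x ∈ sphere (0 : E n) 1, fderiv ℝ ψ x = 0) :
    ∃ C, 0 ≤ C ∧ ∀ x : E n, x ≠ 0 → ‖x‖ ≤ 1 →
      ‖fderiv ℝ ψ x‖ ≤ C * (1 - ‖x‖ ^ 2) ∧ ‖ψ x‖ ≤ C * (1 - ‖x‖ ^ 2) ^ 2 := by
  have hD : ContDiff ℝ ∞ (fderiv ℝ ψ) := hψ.fderiv_right (m := ∞) (by simp)
  obtain ⟨C, hC0, hC⟩ := ball1_bound (hD.continuous_fderiv (by simp))
  refine ⟨C, hC0, fun x hx0 hx => ?_⟩
  have hn : 0 < ‖x‖ := norm_pos_iff.2 hx0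
  set z : E n := ‖x‖⁻¹ • x with hz
  have hz1 : ‖z‖ = 1 := by
    rw [hz, norm_smul, norm_inv, norm_norm, inv_mul_cancel₀ hn.ne']
  have hzs : z ∈ sphere (0 : E n) 1 := mem_sphere_zero_iff_norm.2 hz1
  have hzb : z ∈ closedBall (0 : E n) 1 := sphere_subset_closedBall hzs
  have hxb : x ∈ closedBall (0 : E n) 1 := mem_closedBall_zero_iff.2 hx
  have hxz : ‖x - z‖ ≤ 1 - ‖x‖ ^ 2 := by
    have : x - z = (‖x‖ - 1) • z := by
      rw [hz, smul_smul, sub_mul, mul_inv_cancel₀ hn.ne', one_mul, sub_smul, one_smul]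
    rw [this, norm_smul, hz1, mul_one, Real.norm_eq_abs, abs_of_nonpos (by linarith)]
    nlinarith
  have key : ∀ y ∈ closedBall (0 : E n) 1, ‖fderiv ℝ ψ y‖ ≤ C * ‖y - z‖ := fun y hy => by
    have := (convex_closedBall (0 : E n) 1).norm_image_sub_le_of_norm_fderiv_le
      (fun w _ => hD.differentiable (by simp) w) hC hzb hy
    rwa [h1 z hzs, sub_zero] at this
  refine ⟨(key x hxb).trans (mul_le_mul_of_nonneg_left hxz hC0), ?_⟩
  have h2 := ((convex_closedBall (0 : E n) 1).inter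
    (convex_closedBall z ‖x - z‖)).norm_image_sub_le_of_norm_fderiv_le (C := C * ‖x - z‖)
      (fun w _ => hψ.differentiable (by simp) w)
      (fun y hy => (key y hy.1).trans (mul_le_mul_of_nonneg_left
        (by rw [← dist_eq_norm]; exact hy.2) hC0))
      ⟨hzb, mem_closedBall_self (norm_nonneg _)⟩ ⟨hxb, by rw [mem_closedBall, dist_eq_norm]⟩
  rw [h0 z hzs, sub_zero] at h2
  refine h2.trans ?_
  rw [mul_assoc, ← sq]
  gcongr

theorem green_flat {q u ψ : E n → ℂ} (hq : MemLp q ⊤ (volume.restrict (ball 0 1)))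
    (hu : MemLp u 2 (volume.restrict (ball 0 1)))
    (hs : ∀ φ, ContDiff ℝ ∞ φ → tsupport φ ⊆ ball 0 1 → green q u φ = 0) (hψ : ContDiff ℝ ∞ ψ)
    (h0 : ∀ x ∈ sphere (0 : E n) 1, ψ x = 0) (h1 : ∀ x ∈ sphere (0 : E n) 1, fderiv ℝ ψ x = 0) :
    green q u ψ = 0 := by
  obtain ⟨C, hC0, hC⟩ := ball1_flat hψ h0 h1
  obtain ⟨B0, -, hB0⟩ := ball1_bound hψ.continuous
  obtain ⟨B1, hB10, hB1⟩ := ball1_bound (contDiff_lap hψ).continuous
  have hg : ContDiff ℝ ∞ Real.smoothTransition := Real.smoothTransition.contDiff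
  obtain ⟨M1, hM1⟩ := (isCompact_Icc (a := (-1 : ℝ)) (b := 1)).exists_bound_of_continuousOn
    (hg.iterate_deriv 1).continuous.continuousOn
  obtain ⟨M2, hM2⟩ := (isCompact_Icc (a := (-1 : ℝ)) (b := 1)).exists_bound_of_continuousOn
    (hg.iterate_deriv 2).continuous.continuousOn
  set M := max M1 M2
  have hM0 : 0 ≤ M := ((norm_nonneg _).trans (hM1 0 (by norm_num))).trans (le_max_left _ _)
  let η : ℕ → E n → ℝ := fun k y => Real.smoothTransition (((k : ℝ) + 3) * (1 - ‖y‖ ^ 2) - 1)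
  have hη : ∀ k, ContDiff ℝ ∞ (η k) := fun k => ball1_contDiff hg _
  let φ : ℕ → E n → ℂ := fun k y => (η k y : ℂ) * ψ y
  have hφ : ∀ k, ContDiff ℝ ∞ (φ k) := fun k =>
    (Complex.ofRealCLM.contDiff.comp (hη k)).mul hψ
  have hcont : ∀ k : ℕ, Continuous fun y : E n => ((k : ℝ) + 3) * (1 - ‖y‖ ^ 2) := fun k => by
    fun_prop
  have hsupp : ∀ k, tsupport (φ k) ⊆ ball 0 1 := by
    intro k
    have hc : IsClosed {y : E n | 1 ≤ ((k : ℝ) + 3) * (1 - ‖y‖ ^ 2)} :=
      isClosed_le continuous_const (hcont k)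
    refine (closure_minimal (fun y hy => ?_) hc).trans fun y hy => ?_
    · by_contra h
      apply hy
      have h' : ((k : ℝ) + 3) * (1 - ‖y‖ ^ 2) - 1 ≤ 0 := by
        simp only [mem_ofPred_eq, not_le] at h; linarith
      simp only [φ, η, Real.smoothTransition.zero_of_nonpos h', Complex.ofReal_zero, zero_mul]
    · rw [mem_ball_zero_iff]
      by_contra h
      have h2 : 1 ≤ ‖y‖ ^ 2 := one_le_pow₀ (not_lt.1 h)
      have h3 : (0 : ℝ) ≤ (k : ℝ) + 3 := by positivity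
      have h4 : 1 ≤ ((k : ℝ) + 3) * (1 - ‖y‖ ^ 2) := hy
      nlinarith
  have hev : ∀ (k : ℕ) (x : E n), 2 < ((k : ℝ) + 3) * (1 - ‖x‖ ^ 2) → φ k =ᶠ[𝓝 x] ψ := by
    intro k x hx
    filter_upwards [(isOpen_lt continuous_const (hcont k)).mem_nhds hx] with y hy
    have h' : 1 ≤ ((k : ℝ) + 3) * (1 - ‖y‖ ^ 2) - 1 := by
      have : 2 < ((k : ℝ) + 3) * (1 - ‖y‖ ^ 2) := hy
      linarith
    simp only [φ, η, Real.smoothTransition.one_of_one_le h', Complex.ofReal_one, one_mul]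
  have hη1 : ∀ k x, ‖(η k x : ℂ)‖ ≤ 1 := fun k x => by
    rw [Complex.norm_real, Real.norm_of_nonneg (Real.smoothTransition.nonneg _)]
    exact Real.smoothTransition.le_one _
  have hlap : ∀ (k : ℕ) (x : E n), ‖x‖ < 1 →
      ‖Δ (φ k) x‖ ≤ B1 + 8 * C * M + 24 * n * C * M := by
    intro k x hx
    have hxb : x ∈ closedBall (0 : E n) 1 := mem_closedBall_zero_iff.2 hx.le
    by_cases h : 2 < ((k : ℝ) + 3) * (1 - ‖x‖ ^ 2)
    · rw [lap_congr (hev k x h)]
      have : 0 ≤ 8 * C * M + 24 * n * C * M := by positivity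
      linarith [hB1 x hxb]
    · set j : ℝ := (k : ℝ) + 3 with hj
      have hj3 : 3 ≤ j := by rw [hj]; linarith [Nat.cast_nonneg (α := ℝ) k]
      set d := 1 - ‖x‖ ^ 2 with hd
      have hd0 : 0 ≤ d := by rw [hd]; nlinarith [norm_nonneg x]
      have hjd : j * d ≤ 2 := not_lt.1 h
      have hx0 : x ≠ 0 := by
        rintro rfl
        simp only [norm_zero, ne_eq, OfNat.ofNat_ne_zero, not_false_eq_true, zero_pow,
          sub_zero] at hd
        rw [hd] at hjd; linarith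
      have hmem : j * d - 1 ∈ Icc (-1 : ℝ) 1 := ⟨by nlinarith, by linarith⟩
      have hA : |deriv Real.smoothTransition (j * d - 1)| ≤ M :=
        (hM1 _ hmem).trans (le_max_left _ _)
      have hB : |deriv (deriv Real.smoothTransition) (j * d - 1)| ≤ M :=
        (hM2 _ hmem).trans (le_max_right _ _)
      have h2 : ‖gradient (η k) x‖ ≤ 2 * j * M := ball1_grad hg (by linarith) hx.le hA
      have h3 : |Δ (η k) x| ≤ n * (6 * j ^ 2 * M) := ball1_lap hg (by linarith) hx.le hA hB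
      obtain ⟨h4, h5⟩ := hC x hx0 hx.le
      rw [← hd] at h4 h5
      have e := lap_smul (ball1_two (hη k) x) (ball1_two hψ x)
      have e' : Δ (φ k) x = η k x * Δ ψ x + 2 * fderiv ℝ ψ x (gradient (η k) x) +
        (Δ (η k) x : ℝ) * ψ x := e
      rw [e']
      refine norm_add₃_le.trans (add_le_add (add_le_add ?_ ?_) ?_)
      · rw [norm_mul]
        calc ‖(η k x : ℂ)‖ * ‖Δ ψ x‖ ≤ 1 * B1 := by
              gcongr
              · exact hη1 k x
              · exact hB1 x hxb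
          _ = B1 := one_mul _
      · rw [norm_mul, Complex.norm_two]
        calc 2 * ‖fderiv ℝ ψ x (gradient (η k) x)‖
            ≤ 2 * (‖fderiv ℝ ψ x‖ * ‖gradient (η k) x‖) := by
              gcongr; exact ContinuousLinearMap.le_opNorm _ _
          _ ≤ 2 * (C * d * (2 * j * M)) := by gcongr
          _ = 4 * C * M * (j * d) := by ring
          _ ≤ 4 * C * M * 2 := by gcongr
          _ = 8 * C * M := by ring
      · rw [norm_mul, Complex.norm_real, Real.norm_eq_abs]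
        calc |Δ (η k) x| * ‖ψ x‖ ≤ n * (6 * j ^ 2 * M) * (C * d ^ 2) := by gcongr
          _ = 6 * n * C * M * (j * d) ^ 2 := by ring
          _ ≤ 6 * n * C * M * 2 ^ 2 := by gcongr
          _ = 24 * n * C * M := by ring
  have hlim : Tendsto (fun k => green q u (φ k)) atTop (𝓝 (green q u ψ)) := by
    unfold green
    refine tendsto_integral_of_dominated_convergence
      (fun x => ‖q x * u x‖ * B0 + ‖u x‖ * (B1 + 8 * C * M + 24 * n * C * M))
      (fun k => (integrable_green hq hu (hφ k)).aestronglyMeasurable)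
      (((ball1_int_qu hq hu).norm.mul_const _).add ((ball1_int_u hu).norm.mul_const _))
      (fun k => ?_) ?_
    · filter_upwards [ae_restrict_mem measurableSet_ball] with x hx
      refine (norm_sub_le _ _).trans (add_le_add ?_ ?_)
      · rw [norm_mul]
        refine mul_le_mul_of_nonneg_left ?_ (norm_nonneg _)
        calc ‖φ k x‖ = ‖(η k x : ℂ)‖ * ‖ψ x‖ := norm_mul _ _
          _ ≤ 1 * ‖ψ x‖ := by gcongr; exact hη1 k x
          _ ≤ B0 := by rw [one_mul]; exact hB0 x (ball_subset_closedBall hx)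
      · rw [norm_mul]
        exact mul_le_mul_of_nonneg_left (hlap k x (mem_ball_zero_iff.1 hx)) (norm_nonneg _)
    · filter_upwards [ae_restrict_mem measurableSet_ball] with x hx
      have hx1 : ‖x‖ < 1 := mem_ball_zero_iff.1 hx
      have hd : 0 < 1 - ‖x‖ ^ 2 := by nlinarith [norm_nonneg x]
      have ht : Tendsto (fun k : ℕ => ((k : ℝ) + 3) * (1 - ‖x‖ ^ 2)) atTop atTop :=
        (tendsto_atTop_add_const_right _ 3 tendsto_natCast_atTop_atTop).atTop_mul_const hd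
      refine tendsto_const_nhds.congr' ?_
      filter_upwards [ht.eventually_gt_atTop 2] with k hk
      rw [lap_congr (hev k x hk), (hev k x hk).eq_of_nhds]
  have hz : (fun k => green q u (φ k)) = fun _ => 0 := funext fun k => hs _ (hφ k) (hsupp k)
  rw [hz] at hlim
  exact tendsto_nhds_unique hlim tendsto_const_nhds

end Pool.Agent.MP_71da5e_an
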