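import Pool.Agent.MP_71da5e_an.Ball1

namespace Pool.Agent.MP_71da5e_an

open MeasureTheory Metric Set Laplacian Filter Topology
open scoped ContDiff ENNReal RealInnerProductSpace

variable {n : ℕ}

lemma ball2_rad {φ : E n → ℂ} (hφ : ContDiff ℝ ∞ φ) : ContDiff ℝ ∞ fun x => fderiv ℝ φ x x :=
  (hφ.fderiv_right (m := ∞) le_rfl).clm_apply contDiff_id

/-- Tangential derivatives of a function that vanishes on the sphere vanish. -/
lemma ball2_unit {φ : E n → ℂ} (hφ : ContDiff ℝ ∞ φ) (h0 : ∀ x ∈ sphere (0 : E n) 1, φ x = 0)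
    {x : E n} (hx : ‖x‖ = 1) {u : E n} (hu : ‖u‖ = 1) (hw : ⟪x, u⟫ = 0) :
    fderiv ℝ φ x u = 0 := by
  have h1 : HasDerivAt (fun t : ℝ => Real.cos t • x + Real.sin t • u) u 0 := by
    refine (((Real.hasDerivAt_cos 0).smul_const x).fun_add
      ((Real.hasDerivAt_sin 0).smul_const u)).congr_deriv ?_
    simp
  have h2 : HasFDerivAt φ (fderiv ℝ φ x) (Real.cos 0 • x + Real.sin 0 • u) := by
    simpa using (hφ.differentiable (by simp) x).hasFDerivAt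
  have h3 := h2.comp_hasDerivAt (0 : ℝ) h1
  have h4 : (φ ∘ fun t : ℝ => Real.cos t • x + Real.sin t • u) = fun _ => 0 := by
    funext t
    refine h0 _ (mem_sphere_zero_iff_norm.2 ?_)
    rw [← sq_eq_sq₀ (norm_nonneg _) zero_le_one, norm_add_sq_real, inner_smul_left,
      inner_smul_right, hw, norm_smul, norm_smul, hx, hu]
    simp
  rw [h4] at h3
  exact h3.unique (hasDerivAt_const _ _)

lemma ball2_tan {φ : E n → ℂ} (hφ : ContDiff ℝ ∞ φ) (h0 : ∀ x ∈ sphere (0 : E n) 1, φ x = 0)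
    {x : E n} (hx : ‖x‖ = 1) {w : E n} (hw : ⟪x, w⟫ = 0) : fderiv ℝ φ x w = 0 := by
  by_cases hw0 : w = 0
  · rw [hw0, map_zero]
  have hn : ‖w‖ ≠ 0 := norm_ne_zero_iff.2 hw0
  have := ball2_unit hφ h0 hx (u := ‖w‖⁻¹ • w)
    (by rw [norm_smul, norm_inv, norm_norm, inv_mul_cancel₀ hn])
    (by rw [inner_smul_right, hw, mul_zero])
  rw [map_smul] at this
  exact (smul_eq_zero.1 this).resolve_left (inv_ne_zero hn)

lemma ball2_rho (x : E n) :
    HasFDerivAt (rho : E n → ℂ) (Complex.ofRealCLM.comp (innerSL ℝ x)) x := by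
  have h1 : HasFDerivAt (fun y : E n => (‖y‖ ^ 2 - 1) / 2) (innerSL ℝ x) x := by
    simp only [div_eq_mul_inv]
    refine (((hasStrictFDerivAt_norm_sq x).hasFDerivAt.sub_const 1).mul_const
      (2⁻¹ : ℝ)).congr_fderiv ?_
    ext v
    simp
  exact Complex.ofRealCLM.hasFDerivAt.comp x h1

lemma ball2_rho0 {x : E n} (hx : ‖x‖ = 1) : rho x = 0 := by simp [rho, hx]

lemma ball2_add {q u φ ψ : E n → ℂ} (hq : MemLp q ⊤ (volume.restrict (ball 0 1)))
    (hu : MemLp u 2 (volume.restrict (ball 0 1))) (hφ : ContDiff ℝ ∞ φ) (hψ : ContDiff ℝ ∞ ψ) :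
    dirichlet q u (fun x => φ x + ψ x) = dirichlet q u φ + dirichlet q u ψ := by
  simp only [dirichlet, mul_add]
  rw [green_add hq hu (contDiff_rho.mul hφ) (contDiff_rho.mul hψ), neg_add]

/-- The Dirichlet data agree against every smooth function. -/
lemma ball2_dir {Γ : Set (E n)} (hΓ : ∃ U, IsOpen U ∧ Γ = U ∩ sphere 0 1)
    {q₁ q₂ u₁ u₂ : E n → ℂ} (hq₁ : MemLp q₁ ⊤ (volume.restrict (ball 0 1)))
    (hq₂ : MemLp q₂ ⊤ (volume.restrict (ball 0 1))) (h₁ : IsSol Γ q₁ u₁) (h₂ : IsSol Γ q₂ u₂)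
    (hd : ∀ g : Test Γ, dirichlet q₁ u₁ g.1 = dirichlet q₂ u₂ g.1) {g : E n → ℂ}
    (hg : ContDiff ℝ ∞ g) : dirichlet q₁ u₁ g = dirichlet q₂ u₂ g := by
  have hK : IsCompact (sphere (0 : E n) 1 \ Γ) := by
    obtain ⟨U, hU, rfl⟩ := hΓ
    rw [inter_comm, sdiff_self_inter]
    exact (isCompact_sphere _ _).diff hU
  have key := hK.induction_on (p := fun s => ∀ g : E n → ℂ, ContDiff ℝ ∞ g →
      ∃ g', ContDiff ℝ ∞ g' ∧ tsupport g' ⊆ tsupport g ∧ Disjoint (tsupport g') s ∧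
        dirichlet q₁ u₁ g = dirichlet q₁ u₁ g' ∧ dirichlet q₂ u₂ g = dirichlet q₂ u₂ g')
    (fun g hg => ⟨g, hg, Subset.rfl, disjoint_empty _, rfl, rfl⟩)
    (fun s t hst ht g hg => by
      obtain ⟨g', a, b, c, d⟩ := ht g hg
      exact ⟨g', a, b, c.mono_right hst, d⟩)
    (fun s t hs ht g hg => by
      obtain ⟨g', a, b, c, d, e⟩ := hs g hg
      obtain ⟨g'', a', b', c', d', e'⟩ := ht g' a
      exact ⟨g'', a', b'.trans b, disjoint_union_right.2 ⟨c.mono_left b', c'⟩, d.trans d',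
        e.trans e'⟩)
    (fun x hx => by
      obtain ⟨ε₁, p₁, s₁⟩ := h₁.supp x hx
      obtain ⟨ε₂, p₂, s₂⟩ := h₂.supp x hx
      have hε : 0 < min ε₁ ε₂ := lt_min p₁ p₂
      let β : ContDiffBump x := ⟨min ε₁ ε₂ / 4, min ε₁ ε₂ / 2, by positivity, by linarith⟩
      refine ⟨ball x β.rIn, mem_nhdsWithin_of_mem_nhds (ball_mem_nhds x β.rIn_pos), fun g hg => ?_⟩
      have hβ : ContDiff ℝ ∞ fun y => ((β y : ℝ) : ℂ) := Complex.ofRealCLM.contDiff.comp β.contDiff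
      have c₁ : ContDiff ℝ ∞ fun y => (1 - ((β y : ℝ) : ℂ)) * g y := (contDiff_const.sub hβ).mul hg
      have c₂ : ContDiff ℝ ∞ fun y => ((β y : ℝ) : ℂ) * g y := hβ.mul hg
      have e : g = fun y => (1 - ((β y : ℝ) : ℂ)) * g y + ((β y : ℝ) : ℂ) * g y := by
        funext y
        ring
      have t₂ : tsupport (fun y => ((β y : ℝ) : ℂ) * g y) ⊆ ball x (min ε₁ ε₂) := by
        refine (closure_minimal (fun y hy => ?_) isClosed_closedBall).trans
          (closedBall_subset_ball (half_lt_self hε))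
        by_contra hy'
        rw [mem_closedBall, not_le] at hy'
        exact hy (by simp only [β.zero_of_le_dist hy'.le, Complex.ofReal_zero, zero_mul])
      refine ⟨_, c₁, tsupport_mul_subset_right, ?_, ?_, ?_⟩
      · refine Disjoint.closure_left (disjoint_left.2 fun y hy hy' => hy ?_) isOpen_ball
        simp only [β.one_of_mem_closedBall (ball_subset_closedBall hy'), Complex.ofReal_one,
          sub_self, zero_mul]
      · conv_lhs => rw [e]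
        rw [ball2_add hq₁ h₁.memL2 c₁ c₂, s₁ _ c₂ (t₂.trans (ball_subset_ball (min_le_left _ _))),
          add_zero]
      · conv_lhs => rw [e]
        rw [ball2_add hq₂ h₂.memL2 c₁ c₂, s₂ _ c₂ (t₂.trans (ball_subset_ball (min_le_right _ _))),
          add_zero])
  obtain ⟨g', a, -, c, d, e⟩ := key g hg
  rw [d, e]
  exact hd ⟨g', a, fun y hy => by_contra fun hy' => disjoint_left.1 c hy.1 ⟨hy.2, hy'⟩⟩

theorem neumann_eq_zero {q u φ : E n → ℂ} (hn : 3 ≤ n)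
    (hq : MemLp q ⊤ (volume.restrict (ball 0 1))) (hu : MemLp u 2 (volume.restrict (ball 0 1)))
    (hs : ∀ φ, ContDiff ℝ ∞ φ → tsupport φ ⊆ ball 0 1 → green q u φ = 0) (hφ : ContDiff ℝ ∞ φ)
    (h0 : ∀ x ∈ sphere (0 : E n) 1, φ x = 0) : neumann q u φ = 0 := by
  refine green_flat hq hu hs (hφ.sub (contDiff_rho.mul (ball2_rad hφ))) (fun x hx => ?_)
    fun x hx => ?_
  · rw [h0 x hx, ball2_rho0 (mem_sphere_zero_iff_norm.1 hx), zero_mul, sub_zero]
  have hx1 := mem_sphere_zero_iff_norm.1 hx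
  rw [((hφ.differentiable (by simp) x).hasFDerivAt.fun_sub ((ball2_rho x).fun_mul
    ((ball2_rad hφ).differentiable (by simp) x).hasFDerivAt)).fderiv, ball2_rho0 hx1]
  ext v
  have h1 := ball2_tan hφ h0 hx1 (w := v - ⟪x, v⟫ • x) (by
    rw [inner_sub_right, inner_smul_right, real_inner_self_eq_norm_sq, hx1]
    ring)
  rw [map_sub, map_smul, sub_eq_zero] at h1
  simp [h1, mul_comm]

theorem green_eq (hn : 3 ≤ n) {Γ : Set (E n)} (hΓ : ∃ U, IsOpen U ∧ Γ = U ∩ sphere 0 1)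
    {q₁ q₂ u₁ u₂ : E n → ℂ} (hq₁ : MemLp q₁ ⊤ (volume.restrict (ball 0 1)))
    (hq₂ : MemLp q₂ ⊤ (volume.restrict (ball 0 1))) (h₁ : IsSol Γ q₁ u₁) (h₂ : IsSol Γ q₂ u₂)
    (hd : ∀ g : Test Γ, dirichlet q₁ u₁ g.1 = dirichlet q₂ u₂ g.1)
    (hN : ∀ f : Test Γ, neumann q₁ u₁ f.1 = neumann q₂ u₂ f.1) {φ : E n → ℂ}
    (hφ : ContDiff ℝ ∞ φ)
    (h : (∀ x ∈ sphere (0 : E n) 1, φ x = 0) ∨ tsupport φ ∩ sphere 0 1 ⊆ Γ) :
    green q₁ u₁ φ = green q₂ u₂ φ := by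
  rw [green_split hq₁ h₁.memL2 hφ, green_split hq₂ h₂.memL2 hφ,
    ball2_dir hΓ hq₁ hq₂ h₁ h₂ hd (ball2_rad hφ)]
  rcases h with h | h
  · rw [neumann_eq_zero hn hq₁ h₁.memL2 h₁.solves hφ h,
      neumann_eq_zero hn hq₂ h₂.memL2 h₂.solves hφ h]
  · rw [hN ⟨φ, hφ, h⟩]

end Pool.Agent.MP_71da5e_an
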