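import Pool.Agent.MP_71da5e_an.Ball2
import Pool.Agent.MP_71da5e_an.KelB

namespace Pool.Agent.MP_71da5e_an

open MeasureTheory Metric Set Laplacian Filter Topology
open scoped ContDiff ENNReal RealInnerProductSpace

variable {n : ℕ}

theorem B3_two : (0:ℝ) < √2 := Real.sqrt_pos.2 two_pos

theorem B3_inner_self {p : E n} (hp : ‖p‖ = 1) : ⟪p, -p⟫ = -1 := by
  rw [inner_neg_right, real_inner_self_eq_norm_sq, hp]; norm_num

theorem B3_notMem_Hs {p : E n} (hp : ‖p‖ = 1) : p ∉ Hs (-p) := by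
  simp only [Hs, mem_ofPred_eq, B3_inner_self hp]; norm_num

theorem B3_ne_of_Pl {p : E n} (hp : ‖p‖ = 1) {x : E n} (hx : x ∈ Pl (-p)) : x ≠ p := by
  rintro rfl
  simp only [Pl, mem_ofPred_eq, B3_inner_self hp] at hx
  norm_num at hx

theorem B3_mem_ball {p : E n} (hp : ‖p‖ = 1) {x : E n} (hx : x ≠ p) :
    inv p √2 x ∈ ball (0 : E n) 1 ↔ x ∈ Hs (-p) := by
  have h := one_sub_norm_inv hp hx
  have hj := jac_pos B3_two hx
  have h0 := norm_nonneg (inv p √2 x)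
  rw [mem_ball_zero_iff]
  simp only [Hs, mem_ofPred_eq]
  constructor
  · intro h1
    have : 0 < 2 * jac p √2 x * ⟪x, -p⟫ := by rw [← h]; nlinarith
    exact (mul_pos_iff_of_pos_left (by positivity)).1 this
  · intro h1
    have : 0 < 2 * jac p √2 x * ⟪x, -p⟫ := by positivity
    nlinarith

theorem B3_sphere {p : E n} (hp : ‖p‖ = 1) {x : E n} (hx : x ∈ Pl (-p)) :
    inv p √2 x ∈ sphere (0 : E n) 1 := by
  have h := one_sub_norm_inv hp (B3_ne_of_Pl hp hx)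
  have hx' : ⟪x, -p⟫ = 0 := hx
  rw [hx', mul_zero] at h
  have h0 := norm_nonneg (inv p √2 x)
  rw [mem_sphere_zero_iff_norm]
  nlinarith

theorem B3_Pl {p : E n} (hp : ‖p‖ = 1) {x : E n} (hx : x ∈ sphere (0 : E n) 1) (hxp : x ≠ p) :
    inv p √2 x ∈ Pl (-p) := by
  have hne := inv_ne B3_two hxp
  have h := one_sub_norm_inv hp hne
  have hj := jac_pos B3_two hne
  rw [inv_inv' p B3_two, mem_sphere_zero_iff_norm.1 hx] at h
  have : 2 * jac p √2 (inv p √2 x) * ⟪inv p √2 x, -p⟫ = 0 := by rw [← h]; norm_num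
  exact (mul_eq_zero.1 this).resolve_left (by positivity)

theorem B3_norm_sub {p : E n} (hp : ‖p‖ = 1) (x : E n) :
    ‖x - p‖ ^ 2 = ‖x‖ ^ 2 + 2 * ⟪x, -p⟫ + 1 := by
  rw [norm_sub_sq_real, inner_neg_right, hp]; ring

theorem B3_jac (p x : E n) : jac p √2 x = 2 / ‖x - p‖ ^ 2 := by
  rw [jac, Real.sq_sqrt (by norm_num)]

theorem B3_jac_le {p : E n} (hp : ‖p‖ = 1) {x : E n} (hx : x ∈ Hs (-p)) :
    jac p √2 x ^ 2 ≤ 4 * wt x := by
  have hx' : 0 < ⟪x, -p⟫ := hx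
  have h1 : 1 + ‖x‖ ^ 2 ≤ ‖x - p‖ ^ 2 := by rw [B3_norm_sub hp]; linarith
  have h0 : 0 < 1 + ‖x‖ ^ 2 := by positivity
  have h2 : jac p √2 x ≤ 2 / (1 + ‖x‖ ^ 2) := by
    rw [B3_jac]; exact div_le_div_of_nonneg_left (by norm_num) h0 h1
  have h3 : 0 ≤ jac p √2 x := by rw [B3_jac]; positivity
  calc jac p √2 x ^ 2 ≤ (2 / (1 + ‖x‖ ^ 2)) ^ 2 := pow_le_pow_left₀ h3 h2 2
    _ = 4 * wt x := by rw [wt, div_pow]; norm_num [div_eq_mul_inv]

theorem B3_le_jac {p : E n} (hp : ‖p‖ = 1) {x : E n} (hx : x ≠ p) : wt x ≤ jac p √2 x ^ 2 := by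
  have h0 : 0 < ‖x - p‖ ^ 2 := pow_pos (norm_pos_iff.2 (sub_ne_zero.2 hx)) 2
  have h1 : ‖x - p‖ ^ 2 ≤ 2 * (1 + ‖x‖ ^ 2) := by
    have h := norm_sub_le x p
    rw [hp] at h
    have := pow_le_pow_left₀ (norm_nonneg _) h 2
    nlinarith [sq_nonneg (‖x‖ - 1)]
  have h2 : (1 + ‖x‖ ^ 2)⁻¹ ≤ jac p √2 x := by
    rw [B3_jac, inv_eq_one_div, div_le_div_iff₀ (by positivity) h0]; linarith
  rw [wt, ← inv_pow]
  exact pow_le_pow_left₀ (by positivity) h2 2

theorem B3_jac_wt {p : E n} (hp : ‖p‖ = 1) (y : E n) : jac p √2 y ^ 2 * wt (inv p √2 y) ≤ 1 := by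
  by_cases hy : y = p
  · subst hy; simp [jac]
  · have h := B3_le_jac hp (inv_ne B3_two hy)
    rw [jac_inv p B3_two] at h
    have hj := jac_pos B3_two hy
    calc jac p √2 y ^ 2 * wt (inv p √2 y) ≤ jac p √2 y ^ 2 * (jac p √2 y)⁻¹ ^ 2 := by gcongr
      _ = 1 := by field_simp

theorem dec_kq {p : E n} (hp : ‖p‖ = 1) {A : ℝ} {q : E n → ℂ} (hq : Measurable q)
    (hA : ∀ x, ‖q x‖ ≤ A) : Dec (4 * A) ((Hs (-p)).indicator (kq p √2 q)) := by
  have hA0 : 0 ≤ A := (norm_nonneg _).trans (hA 0)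
  refine ⟨Measurable.indicator ?_ (isOpen_Hs _).measurableSet, fun x => ?_⟩
  · unfold kq
    exact (Complex.measurable_ofReal.comp ((measurable_jac _ _).pow_const 2)).mul
      (hq.comp (measurable_inv' _ _))
  · by_cases hx : x ∈ Hs (-p)
    · rw [indicator_of_mem hx, kq, norm_mul, Complex.norm_real, Real.norm_of_nonneg (sq_nonneg _)]
      calc jac p √2 x ^ 2 * ‖q (inv p √2 x)‖ ≤ (4 * wt x) * A :=
            mul_le_mul (B3_jac_le hp hx) (hA _) (norm_nonneg _) (by have := wt_pos x; positivity)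
        _ = 4 * A * wt x := by ring
    · rw [indicator_of_notMem hx, norm_zero]
      have := wt_pos x
      positivity

theorem B3_kel_ball (hn : 3 ≤ n) {p : E n} (hp : ‖p‖ = 1) {u : E n → ℂ}
    (hz : ∀ x, x ∉ Hs (-p) → u x = 0) {x : E n} (hx : x ∉ ball (0 : E n) 1) :
    kel p √2 u x = 0 := by
  by_cases hxp : x = p
  · rw [hxp]; exact kel_center hn _ _ _
  · have : inv p √2 x ∉ Hs (-p) := fun h => hx (by
      have := (B3_mem_ball hp (inv_ne B3_two hxp)).2 h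
      rwa [inv_inv' p B3_two] at this)
    rw [kel, hz _ this, mul_zero]

theorem B3_kel_Hs (hn : 3 ≤ n) {p : E n} (hp : ‖p‖ = 1) {v : E n → ℂ}
    (hz : ∀ x, x ∉ ball (0 : E n) 1 → v x = 0) {x : E n} (hx : x ∉ Hs (-p)) :
    kel p √2 v x = 0 := by
  by_cases hxp : x = p
  · rw [hxp]; exact kel_center hn _ _ _
  · rw [kel, hz _ fun h => hx ((B3_mem_ball hp hxp).1 h), mul_zero]

theorem B3_green (hn : 3 ≤ n) {p : E n} (hp : ‖p‖ = 1) (q : E n → ℂ) {u φ : E n → ℂ}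
    (hz : ∀ x, x ∉ Hs (-p) → u x = 0) (hφ : ContDiff ℝ ∞ φ) :
    green q (kel p √2 u) φ =
      pair u (fun x => (Hs (-p)).indicator (kq p √2 q) x * u x) (kel p √2 φ) := by
  rw [← pair_kel p B3_two hn _ _ hφ, green, pair,
    setIntegral_eq_integral_of_forall_compl_eq_zero
      (fun x hx => by rw [B3_kel_ball hn hp hz hx]; ring)]
  refine integral_congr_ae (ae_of_all _ fun x => ?_)
  have : q x * kel p √2 u x = ((jac p √2 x ^ 2 : ℝ) : ℂ) *
      kel p √2 (fun x => (Hs (-p)).indicator (kq p √2 q) x * u x) x := by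
    by_cases hxp : x = p
    · rw [hxp, kel_center hn, kel_center hn, mul_zero, mul_zero]
    · have hj : ((jac p √2 x : ℝ) : ℂ) ≠ 0 := by exact_mod_cast (jac_pos B3_two hxp).ne'
      by_cases hH : inv p √2 x ∈ Hs (-p)
      · simp only [kel, indicator_of_mem hH, kq, inv_inv' p B3_two, jac_inv p B3_two]
        push_cast
        field_simp
      · simp only [kel, hz _ hH, mul_zero]
  simp only [this]

theorem B3_pair_kel_kel {p : E n} {w F : E n → ℂ} (φ : E n → ℂ) (hw : w p = 0) (hF : F p = 0) :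
    pair w F (kel p √2 (kel p √2 φ)) = pair w F φ := by
  refine integral_congr_ae (ae_of_all _ fun x => ?_)
  by_cases hxp : x = p
  · simp only [hxp, hw, hF, zero_mul]
  · have he : kel p √2 (kel p √2 φ) =ᶠ[𝓝 x] φ :=
      (isOpen_ne.mem_nhds hxp : {y | y ≠ p} ∈ 𝓝 x) |> fun h =>
        mem_of_superset h fun y hy => kel_kel B3_two φ hy
    simp only [kel_kel B3_two φ hxp, lap_congr he]

theorem B3_memLp {w : E n → ℂ} (hw : Measurable w) (h : Q (fun _ => 1) w ≠ ⊤) :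
    MemLp w 2 (volume : Measure (E n)) := by
  rw [memLp_two_iff_integrable_sq_norm hw.aestronglyMeasurable]
  refine (lintegral_ofReal_ne_top_iff_integrable (by fun_prop)
    (ae_of_all _ fun x => sq_nonneg _)).1 ?_
  simpa [Q] using h

theorem B3_Q_ne_top {w : E n → ℂ} (hw : Measurable w) (h : MemLp w 2 (volume : Measure (E n))) :
    Q (fun _ => 1) w ≠ ⊤ := by
  rw [memLp_two_iff_integrable_sq_norm hw.aestronglyMeasurable] at h
  have := (lintegral_ofReal_ne_top_iff_integrable (f := fun x => ‖w x‖ ^ 2) (μ := volume)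
    (by fun_prop) (ae_of_all _ fun x => sq_nonneg _)).2 h
  simpa [Q] using this

theorem B3_compact {φ : E n → ℂ} {c : E n} {r : ℝ} (h : tsupport φ ⊆ ball c r) :
    HasCompactSupport φ :=
  (isCompact_closedBall c r).of_isClosed_subset (isClosed_tsupport _) (h.trans ball_subset_closedBall)

theorem isSol_of_adm (hn : 3 ≤ n) {Γ : Set (E n)} {p : E n} (hp : ‖p‖ = 1) (hpΓ : p ∈ Γ) {R : ℝ}
    (hR : ∀ x ∈ Pl (-p), R ≤ ‖x‖ → inv p √2 x ∈ Γ) {q u : E n → ℂ}
    (hu : Adm (-p) (ball 0 R) ((Hs (-p)).indicator (kq p √2 q)) u) :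
    IsSol Γ q (kel p √2 u) := by
  refine ⟨?_, fun φ hφ hs => ?_, fun x₀ hx₀ => ?_⟩
  · refine (B3_memLp (measurable_kel _ _ hu.l2.1) ?_).restrict _
    rw [Q_kel p B3_two hn]
    refine ne_top_of_le_ne_top (Q_ne_top_of_le (a := fun x => 4 * wt x) hu.l2.2 (c := 4)
      fun _ => le_rfl) (Q_mono fun x => ?_)
    by_cases hx : x ∈ Hs (-p)
    · rw [mul_one]; exact mul_le_mul_of_nonneg_right (B3_jac_le hp hx) (sq_nonneg _)
    · simp [hu.z x hx]
  · have hc := B3_compact hs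
    have hno : ∀ x ∈ Pl (-p), inv p √2 x ∉ tsupport φ := fun x hx h => by
      have h1 := mem_ball_zero_iff.1 (hs h)
      rw [mem_sphere_zero_iff_norm.1 (B3_sphere hp hx)] at h1
      exact lt_irrefl _ h1
    rw [B3_green hn hp q hu.z hφ]
    refine hu.weak _ (Tst.kel hn B3_two ⟨hφ, hc⟩ fun h => ?_) (fun x hx => ?_) fun x hx => ?_
    · have h1 := mem_ball_zero_iff.1 (hs h)
      rw [hp] at h1
      exact lt_irrefl _ h1
    · rw [kel, image_eq_zero_of_notMem_tsupport (hno x hx), mul_zero]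
    · exact absurd (inv_mem_tsupport hn p B3_two hc hx.1) (hno x hx.2)
  · have hne : x₀ ≠ p := fun h => hx₀.2 (h ▸ hpΓ)
    have hPl := B3_Pl hp hx₀.1 hne
    have hlt : ‖inv p √2 x₀‖ < R := by
      by_contra h
      have := hR _ hPl (not_lt.1 h)
      rw [inv_inv' p B3_two] at this
      exact hx₀.2 this
    have hev : ∀ᶠ x in 𝓝 x₀, ‖inv p √2 x‖ < R ∧ x ≠ p :=
      (((contDiffAt_inv' (c := p) √2 hne).continuousAt.norm).eventually_lt continuousAt_const
        hlt).and (isOpen_ne.mem_nhds hne)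
    obtain ⟨ε, hε, hb⟩ := Metric.eventually_nhds_iff_ball.1 hev
    refine ⟨ε, hε, fun g hg hs => ?_⟩
    have hφ : ContDiff ℝ ∞ fun x => rho x * g x := contDiff_rho.mul hg
    have hs' : tsupport (fun x => rho x * g x) ⊆ ball x₀ ε := tsupport_mul_subset_right.trans hs
    have hc := B3_compact hs'
    rw [dirichlet, B3_green hn hp q hu.z hφ, neg_eq_zero]
    refine hu.weak _ (Tst.kel hn B3_two ⟨hφ, hc⟩ fun h => (hb _ (hs' h)).2 rfl) (fun x hx => ?_)
      fun x hx => ?_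
    · simp [kel, rho, mem_sphere_zero_iff_norm.1 (B3_sphere hp hx)]
    · have := (hb _ (hs' (inv_mem_tsupport hn p B3_two hc hx.1))).1
      rw [inv_inv' p B3_two] at this
      exact mem_ball_zero_iff.2 this

theorem B3_pair_sub {w w' F F' φ : E n → ℂ} (hw : WL2 w) (hw' : WL2 w') (hF : WL2 F) (hF' : WL2 F')
    (hφ : Tst φ) :
    pair (fun x => w x - w' x) (fun x => F x - F' x) φ = pair w F φ - pair w' F' φ := by
  have i1 := hF.integrable_mul hφ.1.continuous hφ.2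
  have i2 := hF'.integrable_mul hφ.1.continuous hφ.2
  have i3 := hw.integrable_mul hφ.lap.1.continuous hφ.lap.2
  have i4 := hw'.integrable_mul hφ.lap.1.continuous hφ.lap.2
  unfold pair
  have j1 : Integrable fun x => F x * φ x - w x * Δ φ x := i1.sub i3
  have j2 : Integrable fun x => F' x * φ x - w' x * Δ φ x := i2.sub i4
  rw [← integral_sub j1 j2]
  refine integral_congr_ae (ae_of_all _ fun x => ?_)
  simp only
  ring

theorem hyp_of_cauchy (hn : 3 ≤ n) {Γ : Set (E n)} (hΓ : ∃ U, IsOpen U ∧ Γ = U ∩ sphere 0 1)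
    {p : E n} (hpΓ : p ∈ Γ) {A : ℝ} {q₁ q₂ : E n → ℂ} (hq₁ : Measurable q₁) (hq₂ : Measurable q₂)
    (hA₁ : ∀ x, ‖q₁ x‖ ≤ A) (hA₂ : ∀ x, ‖q₂ x‖ ≤ A) (h : cauchy Γ q₁ ⊆ cauchy Γ q₂) :
    ∃ R, Hyp (-p) (ball 0 R) {x | R < ‖x‖} ((Hs (-p)).indicator (kq p √2 q₁))
      ((Hs (-p)).indicator (kq p √2 q₂)) := by
  obtain ⟨U, hU, hΓU⟩ := id hΓ
  have hpU : p ∈ U ∩ sphere (0 : E n) 1 := hΓU ▸ hpΓ
  have hp : ‖p‖ = 1 := mem_sphere_zero_iff_norm.1 hpU.2
  obtain ⟨δ, hδ, hb⟩ := Metric.isOpen_iff.1 hU p hpU.1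
  have hR : ∀ x ∈ Pl (-p), 2 / δ + 1 ≤ ‖x‖ → inv p √2 x ∈ Γ := by
    intro x hx hx'
    rw [hΓU]
    refine ⟨hb ?_, B3_sphere hp hx⟩
    have hx0 : ⟪x, -p⟫ = 0 := hx
    have h1 : ‖x‖ ≤ ‖x - p‖ := by
      refine (pow_le_pow_iff_left₀ (norm_nonneg _) (norm_nonneg _) two_ne_zero).1 ?_
      rw [B3_norm_sub hp, hx0]; linarith
    have h2 : 2 / δ < ‖x - p‖ := by linarith
    have h3 : 0 < ‖x - p‖ := lt_trans (by positivity) h2
    rw [mem_ball_iff_norm, norm_inv_sub, Real.sq_sqrt (by norm_num), div_lt_iff₀ h3]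
    rw [div_lt_iff₀ hδ] at h2
    linarith
  refine ⟨2 / δ + 1, fun u hu => ?_⟩
  have h₁ := isSol_of_adm hn hp hpΓ hR hu
  obtain ⟨u₂, h₂, he⟩ := h ⟨_, h₁, rfl⟩
  have hd := fun g => congrFun (congrArg Prod.fst he) g
  have hN := fun g => congrFun (congrArg Prod.snd he) g
  have m₁ : MemLp q₁ ⊤ (volume.restrict (ball (0 : E n) 1)) :=
    memLp_top_of_bound hq₁.aestronglyMeasurable A (ae_of_all _ hA₁)
  have m₂ : MemLp q₂ ⊤ (volume.restrict (ball (0 : E n) 1)) :=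
    memLp_top_of_bound hq₂.aestronglyMeasurable A (ae_of_all _ hA₂)
  have hm := h₂.memL2.aestronglyMeasurable
  set v : E n → ℂ := (ball (0 : E n) 1).indicator (hm.mk u₂) with hv
  have hvm : Measurable v := hm.stronglyMeasurable_mk.measurable.indicator measurableSet_ball
  have hvz : ∀ x, x ∉ ball (0 : E n) 1 → v x = 0 := fun x hx => indicator_of_notMem hx _
  have hvL : MemLp v 2 (volume : Measure (E n)) :=
    (memLp_indicator_iff_restrict measurableSet_ball).2 (h₂.memL2.ae_eq hm.ae_eq_mk)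
  have hgv : ∀ φ, green q₂ u₂ φ = green q₂ v φ := fun φ => by
    refine integral_congr_ae ?_
    filter_upwards [hm.ae_eq_mk, ae_restrict_mem measurableSet_ball] with x hx hx'
    rw [hv, indicator_of_mem hx', hx]
  have hkz : ∀ x, x ∉ Hs (-p) → kel p √2 v x = 0 := fun x hx => B3_kel_Hs hn hp hvz hx
  have hkk : kel p √2 (kel p √2 v) = v := by
    funext x
    by_cases hxp : x = p
    · rw [hxp, kel_center hn, hvz p (by rw [mem_ball_zero_iff, hp]; exact lt_irrefl _)]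
    · exact kel_kel B3_two v hxp
  have hkv : WL2 (kel p √2 v) := by
    refine ⟨measurable_kel _ _ hvm, ?_⟩
    rw [Q_kel p B3_two hn]
    exact ne_top_of_le_ne_top (B3_Q_ne_top hvm hvL) (Q_mono_left _ (B3_jac_wt hp))
  have d₁ := dec_kq hp hq₁ hA₁
  have d₂ := dec_kq hp hq₂ hA₂
  have hw : WL2 fun x => u x - kel p √2 v x := hu.l2.sub hkv
  refine ⟨fun x => u x - kel p √2 v x, hw, (hu.l2.dec (d₁.sub d₂)).add (hw.dec d₂),
    fun x hx => ?_, fun x hx => ?_, fun φ hφ hc => ?_⟩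
  · simp only [hu.z x hx, hkz x hx, sub_zero]
  · simp only [hu.z x hx, hkz x hx, sub_zero, mul_zero, add_zero]
  · have hψ := contDiff_kel hn p B3_two hφ
    have hF : (fun x => ((Hs (-p)).indicator (kq p √2 q₁) x - (Hs (-p)).indicator (kq p √2 q₂) x) *
        u x + (Hs (-p)).indicator (kq p √2 q₂) x * (u x - kel p √2 v x)) =
        fun x => (Hs (-p)).indicator (kq p √2 q₁) x * u x -
          (Hs (-p)).indicator (kq p √2 q₂) x * kel p √2 v x := by
      funext x; ring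
    have hup : u p = 0 := hu.z p (B3_notMem_Hs hp)
    have hvp : kel p √2 v p = 0 := hkz p (B3_notMem_Hs hp)
    rw [hF, B3_pair_sub hu.l2 hkv (hu.l2.dec d₁) (hkv.dec d₂) hφ,
      ← B3_pair_kel_kel (p := p) φ hup (by simp only [hup, mul_zero]),
      ← B3_pair_kel_kel (p := p) φ hvp (by simp only [hvp, mul_zero]),
      ← B3_green hn hp q₁ hu.z hψ, ← B3_green hn hp q₂ hkz hψ, hkk, ← hgv, sub_eq_zero]
    refine green_eq hn hΓ m₁ m₂ h₁ h₂ hd hN hψ (hc.imp (fun h0 x hx => ?_) fun h0 x hx => ?_)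
    · by_cases hxp : x = p
      · rw [hxp]; exact kel_center hn _ _ _
      · rw [kel, h0 _ (B3_Pl hp hx hxp), mul_zero]
    · by_cases hxp : x = p
      · rw [hxp]; exact hpΓ
      · have h1 : 2 / δ + 1 < ‖inv p √2 x‖ := h0 (inv_mem_tsupport hn p B3_two hφ.2 hx.1)
        have := hR _ (B3_Pl hp hx.2 hxp) h1.le
        rwa [inv_inv' p B3_two] at this

end Pool.Agent.MP_71da5e_an
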