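import Pool.Agent.MP_71da5e_an.QBasic

namespace Pool.Agent.MP_71da5e_an

open MeasureTheory Metric Set Laplacian Filter Topology
open scoped ContDiff ENNReal RealInnerProductSpace

variable {n : ℕ}

/-- The real linear map `x ↦ x · a + i x · b`. -/
noncomputable def beamL (a b : E n) : E n →L[ℝ] ℂ :=
  Complex.ofRealCLM.comp (innerSL ℝ a) + (Complex.ofRealCLM.comp (innerSL ℝ b)).smulRight Complex.I

theorem beamL_apply (a b x : E n) :
    beamL a b x = ((⟪x, a⟫ : ℝ) + (⟪x, b⟫ : ℝ) * Complex.I : ℂ) := by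
  simp [beamL, real_inner_comm]

theorem beam_eq (a b : E n) (k : ℕ) : beam a b k = fun x => beamL a b x ^ k := by
  funext x
  rw [beamL_apply]
  rfl

theorem beam_hasFDerivAt (L : E n →L[ℝ] ℂ) (k : ℕ) (x : E n) :
    HasFDerivAt (fun y => L y ^ k) (((k : ℂ) * L x ^ (k - 1)) • L) x := by
  have h₁ : HasDerivAt (fun z : ℂ => z ^ k) ((k : ℂ) * L x ^ (k - 1)) (L x) := hasDerivAt_pow k _
  exact h₁.comp_hasFDerivAt x L.hasFDerivAt

theorem beam_fderiv (L : E n →L[ℝ] ℂ) (k : ℕ) (x v : E n) :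
    fderiv ℝ (fun y => L y ^ k) x v = (k : ℂ) * L x ^ (k - 1) * L v := by
  rw [(beam_hasFDerivAt L k x).fderiv]
  simp

theorem beam_fderiv_two (L : E n →L[ℝ] ℂ) (k : ℕ) (x v : E n) :
    fderiv ℝ (fun y => fderiv ℝ (fun y => L y ^ k) y v) x v =
      (k : ℂ) * ((k - 1 : ℕ) : ℂ) * L x ^ (k - 1 - 1) * L v ^ 2 := by
  have h : (fun y => fderiv ℝ (fun y => L y ^ k) y v) = fun y => ((k : ℂ) * L v) * L y ^ (k - 1) := by
    funext y
    rw [beam_fderiv]
    ring
  rw [h, ((beam_hasFDerivAt L (k - 1) x).const_mul ((k : ℂ) * L v)).fderiv]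
  simp only [smul_apply, smul_eq_mul]
  ring

theorem beam_sum_sq {a b : E n} (h : ON a b) : ∑ i, beamL a b (ev i) ^ 2 = 0 := by
  have e : ∀ (c : E n) (i : Fin n), ⟪ev i, c⟫ = c i := fun c i => by
    rw [real_inner_comm, inner_ev]
  have ha : ∑ i, a i ^ 2 = 1 := by
    rw [← EuclideanSpace.real_norm_sq_eq, h.1, one_pow]
  have hb : ∑ i, b i ^ 2 = 1 := by
    rw [← EuclideanSpace.real_norm_sq_eq, h.2.1, one_pow]
  have hab : ∑ i, a i * b i = 0 := by
    rw [← h.2.2, PiLp.inner_apply]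
    exact Finset.sum_congr rfl fun i _ => by simp [mul_comm]
  have h₁ : ∀ i, beamL a b (ev i) ^ 2 =
      ((a i ^ 2 : ℝ) : ℂ) - ((b i ^ 2 : ℝ) : ℂ) + 2 * Complex.I * ((a i * b i : ℝ) : ℂ) := by
    intro i
    rw [beamL_apply, e, e]
    push_cast
    linear_combination ((b i : ℝ) : ℂ) ^ 2 * Complex.I_sq
  simp only [h₁, Finset.sum_add_distrib, Finset.sum_sub_distrib, ← Finset.mul_sum,
    ← Complex.ofReal_sum, ha, hb, hab]
  simp

theorem contDiff_beam (a b : E n) (k : ℕ) : ContDiff ℝ ∞ (beam a b k) := by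
  rw [beam_eq]
  exact (beamL a b).contDiff.pow k

theorem beam_two (a b : E n) (k : ℕ) (x : E n) : ContDiffAt ℝ 2 (beam a b k) x := by
  rw [beam_eq]
  exact ((beamL a b).contDiff.pow k).contDiffAt

theorem contDiff_obeam (ν a b : E n) (k : ℕ) : ContDiff ℝ ∞ (obeam ν a b k) :=
  (contDiff_beam a b k).sub ((contDiff_beam a b k).comp (contDiff_rf ν))

theorem beam_rf (ν a b : E n) (k : ℕ) (x : E n) :
    beam a b k (rf ν x) = beam (rf ν a) (rf ν b) k x := by
  unfold beam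
  rw [inner_rf_left, inner_rf_left]

theorem beam_smul (a b : E n) (k : ℕ) (t : ℝ) (x : E n) :
    beam a b k (t • x) = (t : ℂ) ^ k * beam a b k x := by
  simp only [beam_eq, map_smul, Complex.real_smul, mul_pow]

theorem obeam_smul (ν a b : E n) (k : ℕ) (t : ℝ) (x : E n) :
    obeam ν a b k (t • x) = (t : ℂ) ^ k * obeam ν a b k x := by
  unfold obeam
  rw [beam_rf, beam_rf, beam_smul, beam_smul, mul_sub]

theorem lap_beam {a b : E n} (h : ON a b) (k : ℕ) (x : E n) : Δ (beam a b k) x = 0 := by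
  rw [lap_eq (beam_two a b k x), beam_eq]
  simp only [beam_fderiv_two, ← Finset.mul_sum, beam_sum_sq h, mul_zero]

theorem lap_obeam {ν a b : E n} (hν : ‖ν‖ = 1) (h : ON a b) (k : ℕ) (x : E n) :
    Δ (obeam ν a b k) x = 0 := by
  have e : obeam ν a b k = beam a b k - beam (rf ν a) (rf ν b) k := by
    funext y
    rw [Pi.sub_apply, ← beam_rf]
    rfl
  rw [e, ContDiffAt.laplacian_sub (beam_two a b k x) (beam_two _ _ k x), lap_beam h,
    lap_beam (h.rf hν), sub_zero]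

theorem obeam_of_mem_Pl {ν : E n} (a b : E n) (k : ℕ) {x : E n} (hx : x ∈ Pl ν) :
    obeam ν a b k x = 0 := by
  unfold obeam
  rw [rf_of_mem_Pl hx, sub_self]

theorem norm_beam_sq (a b : E n) (k : ℕ) (x : E n) :
    ‖beam a b k x‖ ^ 2 = (⟪x, a⟫ ^ 2 + ⟪x, b⟫ ^ 2) ^ k := by
  unfold beam
  rw [norm_pow, ← pow_mul, mul_comm k 2, pow_mul, Complex.sq_norm, Complex.normSq_add_mul_I]

theorem beam_neg_mul (a b : E n) (k : ℕ) (x : E n) :
    beam a (-b) k x * beam a b k x = (((⟪x, a⟫ ^ 2 + ⟪x, b⟫ ^ 2) ^ k : ℝ) : ℂ) := by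
  unfold beam
  rw [← mul_pow, inner_neg_right]
  push_cast
  congr 1
  linear_combination (-((⟪x, b⟫ : ℝ) : ℂ) ^ 2) * Complex.I_sq

theorem beam_neg_conj (a b : E n) (k : ℕ) (x : E n) :
    beam a (-b) k x = (starRingEnd ℂ) (beam a b k x) := by
  unfold beam
  rw [inner_neg_right]
  simp

theorem norm_beam_neg (a b : E n) (k : ℕ) (x : E n) : ‖beam a (-b) k x‖ = ‖beam a b k x‖ := by
  rw [beam_neg_conj, Complex.norm_conj]

theorem norm_obeam_neg (ν a b : E n) (k : ℕ) (x : E n) :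
    ‖obeam ν a (-b) k x‖ = ‖obeam ν a b k x‖ := by
  unfold obeam
  rw [beam_neg_conj, beam_neg_conj, ← map_sub, Complex.norm_conj]

theorem beam_norm_le {a b : E n} (h : ON a b) (k : ℕ) (x : E n) : ‖beam a b k x‖ ≤ ‖x‖ ^ k := by
  refine (pow_le_pow_iff_left₀ (norm_nonneg _) (by positivity) two_ne_zero).1 ?_
  rw [norm_beam_sq, ← pow_mul, mul_comm k 2, pow_mul]
  exact pow_le_pow_left₀ (by positivity) (h.sq_le x) k

theorem norm_obeam_le {ν a b : E n} (hν : ‖ν‖ = 1) (h : ON a b) (k : ℕ) (x : E n) :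
    ‖obeam ν a b k x‖ ≤ 2 * ‖x‖ ^ k := by
  have h₁ := beam_norm_le h k x
  have h₂ := beam_norm_le h k (rf ν x)
  rw [norm_rf hν] at h₂
  exact (norm_sub_le _ _).trans (by linarith)

theorem norm_obeam_sq_le {ν : E n} (hν : ‖ν‖ = 1) (a b : E n) (k : ℕ) {x : E n} (hx : x ≠ 0) :
    ‖obeam ν a b k x‖ ^ 2 ≤
      2 * ‖x‖ ^ (2 * k + n - 2) * (kap a b k x + kap a b k (rf ν x)) := by
  have hr : 0 < ‖x‖ ^ (2 * k + n - 2) := pow_pos (norm_pos_iff.2 hx) _
  have e : 2 * ‖x‖ ^ (2 * k + n - 2) * (kap a b k x + kap a b k (rf ν x)) =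
      2 * (‖beam a b k x‖ ^ 2 + ‖beam a b k (rf ν x)‖ ^ 2) := by
    unfold kap
    rw [norm_rf hν, norm_beam_sq, norm_beam_sq]
    field_simp
  rw [e]
  have h₁ : ‖obeam ν a b k x‖ ≤ ‖beam a b k x‖ + ‖beam a b k (rf ν x)‖ := norm_sub_le _ _
  refine (pow_le_pow_left₀ (norm_nonneg _) h₁ 2).trans ?_
  nlinarith [sq_nonneg (‖beam a b k x‖ - ‖beam a b k (rf ν x)‖)]

theorem kap_neg (a b : E n) (k : ℕ) : kap a (-b) k = kap a b k := by
  funext x
  unfold kap
  rw [inner_neg_right, neg_sq]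

theorem mass_neg (a b : E n) (k : ℕ) : mass a (-b) k = mass a b k := by
  unfold mass
  rw [kap_neg]

theorem kap_smul (hn : 3 ≤ n) (a b : E n) (k : ℕ) {t : ℝ} (ht : 0 < t) (x : E n) :
    kap a b k (t • x) = (t ^ (n - 2))⁻¹ * kap a b k x := by
  unfold kap
  have e : 2 * k + n - 2 = 2 * k + (n - 2) := by omega
  rw [real_inner_smul_left, real_inner_smul_left, norm_smul, Real.norm_of_nonneg ht.le, mul_pow t,
    mul_pow t, ← mul_add, mul_pow, mul_pow, e, pow_add t, pow_mul t]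
  have h₁ : (t ^ 2) ^ k ≠ 0 := by positivity
  have h₂ : t ^ (n - 2) ≠ 0 := by positivity
  rw [mul_assoc, mul_div_mul_left _ _ h₁, inv_mul_eq_div, div_div, mul_comm]

theorem kap_le (hn : 3 ≤ n) {a b : E n} (h : ON a b) (k : ℕ) (x : E n) :
    kap a b k x ≤ (‖x‖ ^ (n - 2))⁻¹ := by
  unfold kap
  have e : 2 * k + n - 2 = 2 * k + (n - 2) := by omega
  rcases eq_or_ne x 0 with rfl | hx
  · rw [norm_zero, zero_pow (by omega), zero_pow (by omega), div_zero, inv_zero]
  · have hr : 0 < ‖x‖ := norm_pos_iff.2 hx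
    rw [e, pow_add, pow_mul, div_le_iff₀ (by positivity), mul_comm ((‖x‖ ^ 2) ^ k),
      inv_mul_cancel_left₀ (by positivity)]
    exact pow_le_pow_left₀ (by positivity) (h.sq_le x) k

theorem beam_tail (hn : 3 ≤ n) {r : ℝ} (hr : 1 ≤ r) :
    ((1 + r ^ 2) ^ 2)⁻¹ * (r ^ (n - 2))⁻¹ ≤ 2 ^ (n + 2) * (1 + r) ^ (-((n + 2 : ℕ) : ℝ)) := by
  have h0 : 0 < r := by linarith
  rw [Real.rpow_neg (by positivity), Real.rpow_natCast, ← mul_inv, ← div_eq_mul_inv, ← one_div,
    div_le_div_iff₀ (by positivity) (by positivity), one_mul]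
  have e : n + 2 = 2 * 2 + (n - 2) := by omega
  calc (1 + r) ^ (n + 2) ≤ (2 * r) ^ (n + 2) := pow_le_pow_left₀ (by positivity) (by linarith) _
    _ = 2 ^ (n + 2) * ((r ^ 2) ^ 2 * r ^ (n - 2)) := by
      rw [mul_pow, ← pow_mul, ← pow_add, ← e]
    _ ≤ 2 ^ (n + 2) * ((1 + r ^ 2) ^ 2 * r ^ (n - 2)) := by gcongr; linarith

theorem integrable_wt_kap (hn : 3 ≤ n) {a b : E n} (h : ON a b) (k : ℕ) :
    Integrable fun x => wt x * kap a b k x := by
  have hm : AEStronglyMeasurable (fun x => wt x * kap a b k x) (volume : Measure (E n)) :=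
    (continuous_wt.measurable.mul (measurable_kap a b k)).aestronglyMeasurable
  have hd : Module.finrank ℝ (E n) = n := finrank_euclideanSpace_fin
  have hnn : ∀ x : E n, ‖wt x * kap a b k x‖ = wt x * kap a b k x := fun x =>
    Real.norm_of_nonneg (mul_nonneg (wt_pos x).le (kap_nonneg a b k x))
  rw [← integrableOn_univ, ← union_compl_self (ball (0 : E n) 1)]
  refine IntegrableOn.union ?_ ?_
  · refine integrableOn_ball_of_norm_le_rpow (C := 1) (α := ((n - 2 : ℕ) : ℝ)) (by omega) ?_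
      (Eventually.of_forall fun x => ?_) hm
    · rw [hd]
      exact_mod_cast (by omega : n - 2 < n)
    · rw [hnn, Real.rpow_neg (norm_nonneg _), Real.rpow_natCast]
      exact mul_le_mul (wt_le_one x) (kap_le hn h k x) (kap_nonneg a b k x) zero_le_one
  · have hi : Integrable (fun x : E n => 2 ^ (n + 2) * (1 + ‖x‖) ^ (-((n + 2 : ℕ) : ℝ))) :=
      (integrable_one_add_norm (by rw [hd]; exact_mod_cast (by omega : n < n + 2))).const_mul _
    refine hi.integrableOn.mono' hm.restrict ?_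
    refine (ae_restrict_iff' measurableSet_ball.compl).2 (Eventually.of_forall fun x hx => ?_)
    rw [hnn]
    refine le_trans ?_ (beam_tail hn (r := ‖x‖) (by simpa using hx))
    exact mul_le_mul_of_nonneg_left (kap_le hn h k x) (wt_pos x).le

theorem mass_pos (hn : 3 ≤ n) {a b : E n} (h : ON a b) (k : ℕ) : 0 < mass a b k := by
  unfold mass
  rw [integral_pos_iff_support_of_nonneg
    (fun x => mul_nonneg (wt_pos x).le (kap_nonneg a b k x)) (integrable_wt_kap hn h k)]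
  have ha : a ∈ Hs a := by
    change 0 < ⟪a, a⟫
    rw [real_inner_self_eq_norm_sq, h.1]
    norm_num
  refine ((isOpen_Hs a).measure_pos volume ⟨a, ha⟩).trans_le (measure_mono fun x hx => ?_)
  have h₁ : 0 < ⟪x, a⟫ := hx
  have h₂ : 0 < ‖x‖ := norm_pos_iff.2 (by rintro rfl; simp at h₁)
  refine (mul_pos (wt_pos x) ?_).ne'
  unfold kap
  positivity

theorem lintegral_wt_kap (hn : 3 ≤ n) {ν a b : E n} (hν : ‖ν‖ = 1) (h : ON a b) (k : ℕ) {c : ℝ}
    (hc : 0 ≤ c) : ∫⁻ x, ENNReal.ofReal (c * (wt x * (kap a b k x + kap a b k (rf ν x)))) =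
      ENNReal.ofReal (2 * c * mass a b k) := by
  have h₁ := integrable_wt_kap hn h k
  have h₂ := integrable_rf hν h₁
  have hw : ∀ x, wt (rf ν x) = wt x := fun x => by
    unfold wt
    rw [norm_rf hν]
  have e : ∀ x, c * (wt x * (kap a b k x + kap a b k (rf ν x))) =
      c * (wt x * kap a b k x + wt (rf ν x) * kap a b k (rf ν x)) := fun x => by
    rw [hw, mul_add (wt x)]
  have h₃ : Integrable fun x =>
      c * (wt x * kap a b k x + wt (rf ν x) * kap a b k (rf ν x)) := (h₁.add h₂).const_mul c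
  simp only [e]
  rw [← ofReal_integral_eq_lintegral_ofReal h₃
    (Eventually.of_forall fun x => mul_nonneg hc (add_nonneg
      (mul_nonneg (wt_pos _).le (kap_nonneg a b k _))
      (mul_nonneg (wt_pos _).le (kap_nonneg a b k _)))),
    integral_const_mul, integral_add h₁ h₂, integral_rf hν fun x => wt x * kap a b k x]
  unfold mass
  congr 1
  ring

end Pool.Agent.MP_71da5e_an
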