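import Pool.Agent.MP_71da5e_an.BeamA
import Pool.Agent.MP_71da5e_an.KelL

namespace Pool.Agent.MP_71da5e_an

open MeasureTheory Metric Set Laplacian Filter Topology
open scoped ContDiff ENNReal RealInnerProductSpace

variable {n : ℕ}

theorem kbeam_eq (hn : 3 ≤ n) (ν a b : E n) (k : ℕ) {x : E n} (hx : x ≠ 0) :
    kbeam ν a b k x = kel 0 1 (obeam ν a b k) x := by
  have h0 : ‖x‖ ≠ 0 := norm_ne_zero_iff.2 hx
  have h1 : ((‖x‖ : ℝ) : ℂ) ≠ 0 := Complex.ofReal_ne_zero.2 h0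
  have e : 2 * k + n - 2 = 2 * k + (n - 2) := by omega
  simp only [kbeam, kel, inv, sub_zero, zero_add, obeam_smul, e]
  push_cast
  rw [pow_add, pow_mul, div_pow, div_pow, one_pow, one_pow, one_pow]
  field_simp

theorem measurable_kbeam (ν a b : E n) (k : ℕ) : Measurable (kbeam ν a b k) := by
  unfold kbeam
  exact (contDiff_obeam ν a b k).continuous.measurable.div (by fun_prop)

theorem contDiff_cb (ν a b : E n) (k : ℕ) {ρ : ℝ} (hρ : 0 < ρ) :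
    ContDiff ℝ ∞ (cb ν a b k ρ) := by
  refine contDiff_of_closed (U := {0}ᶜ) (K := {x | ρ ≤ ‖x‖}) isOpen_compl_singleton
    (isClosed_le continuous_const continuous_norm) (fun x hx h => ?_) (fun x hx => ?_)
    fun x hx => ?_
  · rw [mem_singleton_iff.1 h] at hx
    exact absurd hx (by simpa using hρ)
  · have hx' : x ≠ 0 := hx
    refine ContDiffAt.contDiffWithinAt ?_
    unfold cb kbeam
    simp only [div_eq_mul_inv]
    refine (Complex.ofRealCLM.contDiff.contDiffAt.comp x (contDiff_chi ρ).contDiffAt).mul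
      ((contDiff_obeam ν a b k).contDiffAt.mul ((Complex.ofRealCLM.contDiff.contDiffAt.comp x
        ((contDiffAt_norm ℝ hx').pow _)).inv ?_))
    exact Complex.ofReal_ne_zero.2 (pow_ne_zero _ (norm_ne_zero_iff.2 hx'))
  · simp [cb, chi_eq_zero hρ (not_le.1 hx).le]

theorem cb_of_mem_Pl {ν : E n} (a b : E n) (k : ℕ) (ρ : ℝ) {x : E n} (hx : x ∈ Pl ν) :
    cb ν a b k ρ x = 0 := by
  simp [cb, kbeam, obeam_of_mem_Pl a b k hx]

theorem norm_cb_le (hn : 3 ≤ n) {ν a b : E n} (hν : ‖ν‖ = 1) (h : ON a b) (k : ℕ) (ρ : ℝ)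
    (x : E n) : ‖cb ν a b k ρ x‖ ≤ 2 / ‖x‖ ^ (k + n - 2) := by
  have h1 : ‖cb ν a b k ρ x‖ ≤ ‖obeam ν a b k x‖ / ‖x‖ ^ (2 * k + n - 2) := by
    rw [cb, kbeam, norm_mul, norm_div, Complex.norm_real, Complex.norm_real,
      Real.norm_of_nonneg (chi_nonneg ρ x), Real.norm_of_nonneg (by positivity)]
    exact mul_le_of_le_one_left (by positivity) (chi_le_one ρ x)
  refine h1.trans ?_
  have e : 2 * k + n - 2 = k + (k + n - 2) := by omega
  by_cases hx : ‖x‖ = 0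
  · rw [hx, zero_pow (by omega), zero_pow (by omega), div_zero, div_zero]
  · calc _ ≤ 2 * ‖x‖ ^ k / ‖x‖ ^ (2 * k + n - 2) := by
          gcongr; exact norm_obeam_le hν h k x
      _ = _ := by rw [e, pow_add]; field_simp

theorem kel_cb (hn : 3 ≤ n) (ν a b : E n) (k : ℕ) (ρ : ℝ) {x : E n} (hx : x ≠ 0) :
    kel 0 1 (cb ν a b k ρ) x = chi ρ (inv 0 1 x) * obeam ν a b k x := by
  rw [← kel_kel (c := 0) one_pos (obeam ν a b k) hx, kel, kel, cb,
    kbeam_eq hn ν a b k (inv_ne one_pos hx)]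
  ring

theorem beamB_scale (hn : 3 ≤ n) (ν a b : E n) (k : ℕ) {ρ : ℝ} (hρ : 0 < ρ) :
    cb ν a b k ρ = (ρ ^ (k + n - 2))⁻¹ • fun y => cb ν a b k 1 (0 + ρ⁻¹ • y) := by
  funext x
  have h1 : (ρ : ℂ) ≠ 0 := Complex.ofReal_ne_zero.2 hρ.ne'
  have e : 2 * k + n - 2 = k + (k + n - 2) := by omega
  have e1 : chi 1 (ρ⁻¹ • x) = chi ρ x := by simp [chi]
  simp only [Pi.smul_apply, zero_add, cb, kbeam, obeam_smul, e1, norm_smul, norm_inv,
    Real.norm_of_nonneg hρ.le, Complex.real_smul, mul_pow]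
  push_cast
  rw [inv_pow, inv_pow, e, pow_add (ρ : ℂ)]
  field_simp

theorem lap_cb (hn : 3 ≤ n) {ν a b : E n} (hν : ‖ν‖ = 1) (h : ON a b) (k : ℕ) : ∃ G : ℝ, 0 ≤ G ∧
    ∀ ρ : ℝ, 0 < ρ → ∀ x, ‖Δ (cb ν a b k ρ) x‖ ≤ G / ρ ^ (n + k) ∧
      (‖x‖ < ρ ∨ 2 * ρ < ‖x‖ → Δ (cb ν a b k ρ) x = 0) := by
  have hz : ∀ ρ : ℝ, 0 < ρ → ∀ x, ‖x‖ < ρ ∨ 2 * ρ < ‖x‖ → Δ (cb ν a b k ρ) x = 0 := by
    rintro ρ hρ x (hx | hx)
    · refine lap_eq_zero (notMem_tsupport_iff_eventuallyEq.2 ?_)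
      filter_upwards [(isOpen_lt continuous_norm continuous_const).mem_nhds hx] with y hy
      simp [cb, chi_eq_zero hρ (le_of_lt hy)]
    · have h0 : ∀ y : E n, 2 * ρ < ‖y‖ → y ≠ 0 := fun y hy e => by
        rw [e, norm_zero] at hy; linarith
      have e : cb ν a b k ρ =ᶠ[𝓝 x] kel 0 1 (obeam ν a b k) := by
        filter_upwards [(isOpen_lt continuous_const continuous_norm).mem_nhds hx] with y hy
        rw [cb, chi_eq_one hρ (le_of_lt hy), kbeam_eq hn ν a b k (h0 y hy)]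
        simp
      rw [lap_congr e, lap_kel hn one_pos (h0 x hx)
        ((contDiff_obeam ν a b k).contDiffAt.of_le (by norm_cast)), kel,
        lap_obeam hν h]
      simp
  obtain ⟨C, hC⟩ := (isCompact_closedBall (0 : E n) 2).exists_bound_of_continuousOn
    (contDiff_lap (contDiff_cb ν a b k one_pos)).continuous.continuousOn
  have hC0 : 0 ≤ C := (norm_nonneg _).trans (hC 0 (by simp))
  have hG : ∀ y, ‖Δ (cb ν a b k 1) y‖ ≤ C := fun y => by
    by_cases hy : ‖y‖ ≤ 2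
    · exact hC y (by simpa using hy)
    · rw [hz 1 one_pos y (Or.inr (by linarith)), norm_zero]; exact hC0
  refine ⟨C, hC0, fun ρ hρ x => ⟨?_, hz ρ hρ x⟩⟩
  have h2 : ∀ y, ContDiffAt ℝ 2 (cb ν a b k 1) y := fun y =>
    (contDiff_cb ν a b k one_pos).contDiffAt.of_le (by norm_cast)
  have h3 : ContDiffAt ℝ 2 (fun y : E n => cb ν a b k 1 (0 + ρ⁻¹ • y)) x :=
    (h2 _).comp x (by fun_prop)
  rw [beamB_scale hn ν a b k hρ, InnerProductSpace.laplacian_smul _ h3, lap_affine _ _ (h2 _),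
    norm_smul, norm_smul, Real.norm_of_nonneg (by positivity), Real.norm_of_nonneg (by positivity)]
  have e : n + k = (k + n - 2) + 2 := by omega
  calc _ ≤ (ρ ^ (k + n - 2))⁻¹ * (ρ⁻¹ ^ 2 * C) := by gcongr; exact hG _
    _ = _ := by rw [e, pow_add]; field_simp

theorem Q_cb_ne_top (hn : 3 ≤ n) {ν a b : E n} (hν : ‖ν‖ = 1) (h : ON a b) {k : ℕ} (hk : 4 ≤ k)
    {ρ : ℝ} (hρ : 0 < ρ) : Q (fun x => (wt x)⁻¹) (cb ν a b k ρ) ≠ ⊤ := by
  set m := k + n - 2 with hm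
  set c : ℝ := 1 + ρ⁻¹ with hc
  have hc0 : 0 < c := by positivity
  have key : ∀ x : E n, (wt x)⁻¹ * ‖cb ν a b k ρ x‖ ^ 2 ≤
      4 * c ^ (2 * m) * (1 + ‖x‖) ^ (-((n + 1 : ℕ) : ℝ)) := fun x => by
    have h1 : 0 < 1 + ‖x‖ := by positivity
    by_cases hx : ‖x‖ ≤ ρ
    · rw [cb, chi_eq_zero hρ hx]
      simp only [Complex.ofReal_zero, zero_mul, norm_zero, ne_eq, OfNat.ofNat_ne_zero,
        not_false_eq_true, zero_pow, mul_zero]
      positivity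
    · have hx' : ρ < ‖x‖ := not_le.1 hx
      have hr : 0 < ‖x‖ := hρ.trans hx'
      have h2 : 1 + ‖x‖ ≤ c * ‖x‖ := by
        rw [hc, add_mul, one_mul, add_comm, add_le_add_iff_left]
        exact (one_le_inv_mul₀ hρ).2 hx'.le
      have h3 : (1 + ‖x‖ ^ 2) ^ 2 * (1 + ‖x‖) ^ (n + 1) ≤ c ^ (2 * m) * (‖x‖ ^ m) ^ 2 := by
        calc _ ≤ ((1 + ‖x‖) ^ 2) ^ 2 * (1 + ‖x‖) ^ (n + 1) := by
              gcongr; nlinarith
          _ = (1 + ‖x‖) ^ (n + 5) := by ring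
          _ ≤ (1 + ‖x‖) ^ (2 * m) := pow_le_pow_right₀ (by linarith) (by omega)
          _ ≤ (c * ‖x‖) ^ (2 * m) := by gcongr
          _ = _ := by rw [mul_pow, pow_mul' ‖x‖]
      rw [Real.rpow_neg h1.le, Real.rpow_natCast, wt, inv_inv]
      calc _ ≤ (1 + ‖x‖ ^ 2) ^ 2 * (2 / ‖x‖ ^ m) ^ 2 := by
            gcongr; exact norm_cb_le hn hν h k ρ x
        _ ≤ _ := by
            rw [← div_eq_mul_inv, div_pow, ← mul_div_assoc,
              div_le_div_iff₀ (by positivity) (by positivity)]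
            nlinarith
  refine ne_top_of_le_ne_top ?_ (lintegral_mono fun x => ENNReal.ofReal_le_ofReal (key x))
  simp only [ENNReal.ofReal_mul (show (0 : ℝ) ≤ 4 * c ^ (2 * m) by positivity)]
  rw [lintegral_const_mul' _ _ ENNReal.ofReal_ne_top]
  exact ENNReal.mul_ne_top ENNReal.ofReal_ne_top
    (finite_integral_one_add_norm (by simp)).ne

theorem wl2_cb (hn : 3 ≤ n) {ν a b : E n} (hν : ‖ν‖ = 1) (h : ON a b) {k : ℕ} (hk : 4 ≤ k)
    {ρ : ℝ} (hρ : 0 < ρ) : WL2 (cb ν a b k ρ) :=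
  ⟨(contDiff_cb ν a b k hρ).continuous.measurable, ne_top_of_le_ne_top
    (Q_cb_ne_top hn hν h hk hρ) (Q_mono_left _ fun x =>
      (wt_le_one x).trans ((one_le_inv₀ (wt_pos x)).2 (wt_le_one x)))⟩

end Pool.Agent.MP_71da5e_an
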