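import Pool.Agent.MP_71da5e_an.BeamB

namespace Pool.Agent.MP_71da5e_an

open MeasureTheory Metric Set Laplacian Filter Topology
open scoped ContDiff ENNReal RealInnerProductSpace

variable {n : ℕ}

theorem bnd_split (hn : 3 ≤ n) {ν a b : E n} (hν : ‖ν‖ = 1) (h : ON a b) (k : ℕ)
    {α : E n → ℝ} {w : E n → ℂ} {c R d : ℝ} (hc : 0 ≤ c) (hR : 0 ≤ R) (hd : 0 ≤ d)
    (h₁ : ∀ x, ‖x‖ ≤ R → α x * ‖w x‖ ^ 2 ≤
      c + d * (wt x * (kap a b k x + kap a b k (rf ν x))))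
    (h₂ : ∀ x, R < ‖x‖ → α x * ‖w x‖ ^ 2 ≤ d * (wt x * (kap a b k x + kap a b k (rf ν x)))) :
    Q α w ≤ ENNReal.ofReal (2 * d * mass a b k +
      c * R ^ n * (volume (closedBall (0 : E n) 1)).toReal) := by
  have hm : Measurable fun x : E n => if ‖x‖ ≤ R then c else 0 :=
    Measurable.ite (measurableSet_le (by fun_prop) measurable_const) measurable_const
      measurable_const
  have e1 := Q_le_add (a := α) (w := w) (a₁ := fun x : E n => if ‖x‖ ≤ R then c else 0)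
    (w₁ := fun _ => 1) (a₂ := fun x => d * (wt x * (kap a b k x + kap a b k (rf ν x))))
    (w₂ := fun _ => 1) hm measurable_const (fun x => by
      by_cases hx : ‖x‖ ≤ R
      · simpa [hx] using h₁ x hx
      · simpa [hx] using h₂ x (not_le.1 hx))
  have e2 := Q_le_ball (a := fun x : E n => if ‖x‖ ≤ R then c else 0) (w := fun _ => 1) hc hR
    (fun x => by by_cases hx : ‖x‖ ≤ R <;> simp [hx, hc])
    (fun x hx => by simp [not_le.2 hx])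
  have e3 : Q (fun x => d * (wt x * (kap a b k x + kap a b k (rf ν x)))) (fun _ => 1) =
      ENNReal.ofReal (2 * d * mass a b k) := by
    rw [← lintegral_wt_kap hn hν h k hd]
    simp [Q]
  have hm0 := (mass_pos hn h k).le
  rw [ENNReal.ofReal_add (by positivity) (by positivity), add_comm, ← e3]
  exact e1.trans (add_le_add e2 le_rfl)

theorem bnd_wt (x : E n) : ‖x‖ * (1 + ‖x‖ ^ 2) * wt x ≤ 1 := by
  unfold wt
  have h0 : 0 < 1 + ‖x‖ ^ 2 := by positivity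
  rw [← div_eq_mul_inv, div_le_one (by positivity)]
  nlinarith [sq_nonneg (‖x‖ - 1), norm_nonneg x]

theorem bnd_dec {A : ℝ} {q : E n → ℂ} (hq : Dec A q) (x : E n) : ‖q x‖ ^ 2 ≤ A ^ 2 * wt x ^ 2 := by
  rw [← mul_pow]
  exact pow_le_pow_left₀ (norm_nonneg _) (hq.2 x) 2

theorem bnd_aW₁ (k : ℕ) {ρ : ℝ} (hρ : 0 < ρ) {x : E n} (h₁ : ρ ≤ ‖x‖) (h₂ : ‖x‖ ≤ 2 * ρ) :
    (aW k ρ x)⁻¹ ≤ 5 * (2 * ρ) ^ (2 * k + n + 1) := by
  have hx : 0 < ‖x‖ := hρ.trans_le h₁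
  have h3 : ‖x‖ ^ (2 * k + n + 1) ≤ (2 * ρ) ^ (2 * k + n + 1) := pow_le_pow_left₀ hx.le h₂ _
  have h4 : 1 / 5 ≤ ρ ^ 2 / (‖x‖ ^ 2 + ρ ^ 2) := by
    rw [div_le_div_iff₀ (by norm_num) (by positivity)]
    nlinarith
  have h5 : 0 ≤ (k : ℝ) ^ 2 * ‖x‖ ^ 2 / (1 + ‖x‖ ^ 2) := by positivity
  rw [aW, if_neg (not_lt.2 h₁), inv_div, div_le_iff₀ (by positivity)]
  have h6 : 0 < (2 * ρ) ^ (2 * k + n + 1) := by positivity
  nlinarith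

theorem bnd_aW₂ {k : ℕ} (hk : 1 ≤ k) {ρ : ℝ} (hρ : 0 < ρ) {x : E n} (h₁ : ρ ≤ ‖x‖) :
    (aW k ρ x)⁻¹ ≤ ‖x‖ ^ (2 * k + n + 1) * (1 + ‖x‖ ^ 2) / (k ^ 2 * ‖x‖ ^ 2) := by
  have hx : 0 < ‖x‖ := hρ.trans_le h₁
  have hk' : (0 : ℝ) < k := by exact_mod_cast hk
  have e : ‖x‖ ^ (2 * k + n + 1) * (1 + ‖x‖ ^ 2) / (k ^ 2 * ‖x‖ ^ 2) =
      ‖x‖ ^ (2 * k + n + 1) / (k ^ 2 * ‖x‖ ^ 2 / (1 + ‖x‖ ^ 2)) := by
    rw [div_div_eq_mul_div]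
  rw [aW, if_neg (not_lt.2 h₁), inv_div, e]
  exact div_le_div_of_nonneg_left (by positivity) (by positivity)
    (le_add_of_nonneg_right (by positivity))

theorem bnd_cb {ν : E n} (hν : ‖ν‖ = 1) (a b : E n) (k : ℕ) (ρ : ℝ) {x : E n} (hx : x ≠ 0) :
    ‖cb ν a b k ρ x‖ ^ 2 ≤ 2 * (kap a b k x + kap a b k (rf ν x)) / ‖x‖ ^ (2 * k + n - 2) := by
  have hx' : 0 < ‖x‖ ^ (2 * k + n - 2) := pow_pos (norm_pos_iff.2 hx) _
  have h1 := norm_obeam_sq_le hν a b k hx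
  have h2 : ‖cb ν a b k ρ x‖ ≤ ‖obeam ν a b k x‖ / ‖x‖ ^ (2 * k + n - 2) := by
    rw [cb, kbeam, norm_mul, norm_div, Complex.norm_real, Complex.norm_real,
      Real.norm_of_nonneg (chi_nonneg ρ x), Real.norm_of_nonneg hx'.le]
    exact mul_le_of_le_one_left (by positivity) (chi_le_one ρ x)
  refine (pow_le_pow_left₀ (norm_nonneg _) h2 2).trans ?_
  rw [div_pow, div_le_div_iff₀ (by positivity) hx']
  nlinarith

theorem bnd_qcb (hn : 3 ≤ n) {ν : E n} (hν : ‖ν‖ = 1) (a b : E n) {k : ℕ} (hk : 1 ≤ k)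
    {A ρ : ℝ} {q : E n → ℂ} (hρ : 0 < ρ) (hq : Dec A q) (x : E n) :
    (aW k ρ x)⁻¹ * (2 * ‖q x * cb ν a b k ρ x‖ ^ 2) ≤
      4 * A ^ 2 / k ^ 2 * (wt x * (kap a b k x + kap a b k (rf ν x))) := by
  have hK : 0 ≤ kap a b k x + kap a b k (rf ν x) := add_nonneg (kap_nonneg ..) (kap_nonneg ..)
  have hw := wt_pos x
  have hk' : (0 : ℝ) < k := by exact_mod_cast hk
  by_cases h₁ : ‖x‖ ≤ ρ
  · rw [cb, chi_eq_zero hρ h₁]
    simp only [Complex.ofReal_zero, zero_mul, mul_zero, norm_zero, ne_eq, OfNat.ofNat_ne_zero,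
      not_false_eq_true, zero_pow]
    positivity
  have h₂ := (not_le.1 h₁).le
  have hx : 0 < ‖x‖ := hρ.trans_le h₂
  have e1 := bnd_aW₂ hk hρ h₂
  have e2 := bnd_cb hν a b k ρ (norm_pos_iff.1 hx)
  have e3 := bnd_dec hq x
  have e4 : 2 * k + n + 1 = 2 * k + n - 2 + 3 := by omega
  rw [norm_mul, mul_pow]
  calc (aW k ρ x)⁻¹ * (2 * (‖q x‖ ^ 2 * ‖cb ν a b k ρ x‖ ^ 2))
      ≤ (‖x‖ ^ (2 * k + n + 1) * (1 + ‖x‖ ^ 2) / (k ^ 2 * ‖x‖ ^ 2)) * (2 * ((A ^ 2 * wt x ^ 2) *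
        (2 * (kap a b k x + kap a b k (rf ν x)) / ‖x‖ ^ (2 * k + n - 2)))) := by gcongr
    _ = 4 * A ^ 2 / k ^ 2 * (wt x * (kap a b k x + kap a b k (rf ν x))) *
        (‖x‖ * (1 + ‖x‖ ^ 2) * wt x) := by
      rw [e4, pow_add]
      field_simp
      ring
    _ ≤ _ := mul_le_of_le_one_right (by positivity) (bnd_wt x)

theorem fb (hn : 3 ≤ n) {ν a b : E n} (hν : ‖ν‖ = 1) (h : ON a b) {k : ℕ} (hk : 1 ≤ k) :
    ∃ c : ℝ, 0 ≤ c ∧ ∀ (A ρ : ℝ) (q : E n → ℂ), 0 < ρ → Dec A q →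
      Q (fun x => (aW k ρ x)⁻¹) (fun x => Δ (cb ν a b k ρ) x - q x * cb ν a b k ρ x) ≤
        ENNReal.ofReal (8 * A ^ 2 * mass a b k / k ^ 2 + c * ρ) := by
  obtain ⟨G, hG, hlap⟩ := lap_cb hn hν h k
  refine ⟨10 * 2 ^ (2 * k + n + 1) * G ^ 2 * 2 ^ n * (volume (closedBall (0 : E n) 1)).toReal,
    by positivity, fun A ρ q hρ hq => ?_⟩
  have hsq : ∀ x, (aW k ρ x)⁻¹ * ‖Δ (cb ν a b k ρ) x - q x * cb ν a b k ρ x‖ ^ 2 ≤
      (aW k ρ x)⁻¹ * (2 * ‖Δ (cb ν a b k ρ) x‖ ^ 2) +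
        4 * A ^ 2 / k ^ 2 * (wt x * (kap a b k x + kap a b k (rf ν x))) := fun x => by
    refine le_trans ?_ (add_le_add le_rfl (bnd_qcb hn hν a b hk hρ hq x))
    rw [← mul_add]
    refine mul_le_mul_of_nonneg_left ?_ (inv_nonneg.2 (aW_pos k hρ x).le)
    have := pow_le_pow_left₀ (norm_nonneg _)
      (norm_sub_le (Δ (cb ν a b k ρ) x) (q x * cb ν a b k ρ x)) 2
    nlinarith [sq_nonneg (‖Δ (cb ν a b k ρ) x‖ - ‖q x * cb ν a b k ρ x‖)]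
  have key := bnd_split hn hν h k (α := fun x => (aW k ρ x)⁻¹)
    (w := fun x => Δ (cb ν a b k ρ) x - q x * cb ν a b k ρ x)
    (c := 5 * (2 * ρ) ^ (2 * k + n + 1) * (2 * (G / ρ ^ (n + k)) ^ 2)) (R := 2 * ρ)
    (d := 4 * A ^ 2 / k ^ 2) (by positivity) (by positivity) (by positivity)
    (fun x hx => by
      refine (hsq x).trans (add_le_add ?_ le_rfl)
      by_cases h₁ : ‖x‖ < ρ
      · rw [(hlap ρ hρ x).2 (Or.inl h₁)]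
        simp only [norm_zero, ne_eq, OfNat.ofNat_ne_zero, not_false_eq_true, zero_pow, mul_zero]
        positivity
      · have e1 := bnd_aW₁ k hρ (not_lt.1 h₁) hx
        have e2 := (hlap ρ hρ x).1
        gcongr)
    (fun x hx => by
      refine (hsq x).trans ?_
      rw [(hlap ρ hρ x).2 (Or.inr hx)]
      simp)
  refine key.trans (le_of_eq ?_)
  congr 1
  field_simp
  ring

theorem pb (hn : 3 ≤ n) {ν a b : E n} (hν : ‖ν‖ = 1) (h : ON a b) (k : ℕ) {C Λ : ℝ} (hC : 0 ≤ C)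
    (hΛ : 0 ≤ Λ) (A : ℝ) : ∃ c : ℝ, 0 ≤ c ∧ ∀ (ρ : ℝ) (q χ : E n → ℂ), 0 < ρ → ρ ≤ 1 → Dec A q →
      (∀ x, ‖χ x‖ ≤ 1) → Q (bW k ρ C Λ) (fun x => q x * (χ x * obeam ν a b k x)) ≤
        ENNReal.ofReal (4 * C * A ^ 2 * mass a b k + c * ρ) := by
  refine ⟨4 * Λ * A ^ 2 * 30 ^ (2 * k + n) * (volume (closedBall (0 : E n) 1)).toReal,
    by positivity, fun ρ q χ hρ hρ1 hq hχ => ?_⟩
  have hsq : ∀ x, ‖q x * (χ x * obeam ν a b k x)‖ ^ 2 ≤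
      A ^ 2 * wt x ^ 2 * ‖obeam ν a b k x‖ ^ 2 := fun x => by
    have e1 := bnd_dec hq x
    have e2 : ‖χ x * obeam ν a b k x‖ ≤ ‖obeam ν a b k x‖ := by
      rw [norm_mul]
      exact mul_le_of_le_one_left (norm_nonneg _) (hχ x)
    rw [norm_mul, mul_pow]
    gcongr
  have hK : ∀ x, 0 ≤ kap a b k x + kap a b k (rf ν x) := fun x =>
    add_nonneg (kap_nonneg ..) (kap_nonneg ..)
  have key := bnd_split hn hν h k (α := bW k ρ C Λ)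
    (w := fun x => q x * (χ x * obeam ν a b k x))
    (c := Λ * ρ ^ 4 / ρ ^ (2 * k + n + 1) * (A ^ 2 * 1 ^ 2 * (2 * (30 * ρ) ^ k) ^ 2))
    (R := 30 * ρ) (d := 2 * C * A ^ 2) (by positivity) (by positivity) (by positivity)
    (fun x hx => by
      have hw := wt_pos x
      have hK' := hK x
      refine le_trans ?_ (le_add_of_nonneg_right (by positivity))
      rw [bW, if_pos hx]
      refine mul_le_mul_of_nonneg_left ((hsq x).trans ?_) (by positivity)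
      have e1 := wt_le_one x
      have e2 : ‖obeam ν a b k x‖ ≤ 2 * (30 * ρ) ^ k :=
        (norm_obeam_le hν h k x).trans (by gcongr)
      gcongr)
    (fun x hx => by
      have hw := wt_pos x
      have hK' := hK x
      have hx0 : 0 < ‖x‖ := lt_trans (by positivity) hx
      have e1 := norm_obeam_sq_le hν a b k (norm_pos_iff.1 hx0)
      have e4 : 2 * k + n + 1 = 2 * k + n - 2 + 3 := by omega
      rw [bW, if_neg (not_le.2 hx)]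
      calc C * (‖x‖ ^ 4 * (1 + ‖x‖ ^ 2)) / ‖x‖ ^ (2 * k + n + 1) *
            ‖q x * (χ x * obeam ν a b k x)‖ ^ 2
          ≤ C * (‖x‖ ^ 4 * (1 + ‖x‖ ^ 2)) / ‖x‖ ^ (2 * k + n + 1) * (A ^ 2 * wt x ^ 2 *
            (2 * ‖x‖ ^ (2 * k + n - 2) * (kap a b k x + kap a b k (rf ν x)))) :=
            mul_le_mul_of_nonneg_left ((hsq x).trans (by gcongr)) (by positivity)
        _ = 2 * C * A ^ 2 * (wt x * (kap a b k x + kap a b k (rf ν x))) *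
            (‖x‖ * (1 + ‖x‖ ^ 2) * wt x) := by
          rw [e4, pow_add]
          field_simp
        _ ≤ _ := mul_le_of_le_one_right (by positivity) (bnd_wt x))
  refine key.trans (ENNReal.ofReal_le_ofReal ?_)
  have e1 : Λ * ρ ^ 4 / ρ ^ (2 * k + n + 1) * (A ^ 2 * 1 ^ 2 * (2 * (30 * ρ) ^ k) ^ 2) *
      (30 * ρ) ^ n * (volume (closedBall (0 : E n) 1)).toReal =
      4 * Λ * A ^ 2 * 30 ^ (2 * k + n) * (volume (closedBall (0 : E n) 1)).toReal * ρ ^ 3 := by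
    field_simp
    ring
  have e2 : ρ ^ 3 ≤ ρ := pow_le_of_le_one hρ.le hρ1 (by norm_num)
  rw [e1]
  refine add_le_add (le_of_eq (by ring)) ?_
  gcongr

theorem bnd_outer {C Λ ρ t : ℝ} {m : ℕ} (hC : 0 < C) (hΛ : 0 ≤ Λ) (hρ : 0 < ρ) (hρ1 : ρ ≤ 1)
    (hρ2 : ρ ≤ C / (Λ * 30 ^ m + 1)) (ht : 0 ≤ t) (ht1 : t ≤ 30 * ρ) :
    C * t ^ m * (Λ * ρ ^ 4 / ρ ^ (m + 2)) ≤ C ^ 2 := by
  have e1 : t ^ m ≤ (30 * ρ) ^ m := pow_le_pow_left₀ ht ht1 m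
  have e2 : ρ * (Λ * 30 ^ m + 1) ≤ C := (le_div_iff₀ (by positivity)).1 hρ2
  calc C * t ^ m * (Λ * ρ ^ 4 / ρ ^ (m + 2))
      ≤ C * (30 * ρ) ^ m * (Λ * ρ ^ 4 / ρ ^ (m + 2)) := by gcongr
    _ = C * (ρ * (ρ * (Λ * 30 ^ m))) := by
      field_simp
      ring
    _ ≤ C * (1 * C) := by
      gcongr
      nlinarith
    _ = C ^ 2 := by ring

theorem wb (hn : 3 ≤ n) (k : ℕ) {C Λ : ℝ} (hC : 0 < C) (hΛ : 0 ≤ Λ) : ∃ ρ₁ : ℝ, 0 < ρ₁ ∧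
    ∀ ρ : ℝ, 0 < ρ → ρ ≤ ρ₁ → ∀ x : E n, x ≠ 0 →
      ‖x‖ ^ 4 * wt x ^ 2 * bW k ρ C Λ x * bW k ρ C Λ (inv 0 1 x) ≤ C ^ 2 := by
  obtain ⟨m, hm⟩ : ∃ m, 2 * k + n + 1 = m + 2 := ⟨2 * k + n - 1, by omega⟩
  refine ⟨min (1 / 31) (C / (Λ * 30 ^ m + 1)), by positivity, fun ρ hρ hρ' x hx => ?_⟩
  have hρ1 : ρ ≤ 1 / 31 := hρ'.trans (min_le_left _ _)
  have hρ2 : ρ ≤ C / (Λ * 30 ^ m + 1) := hρ'.trans (min_le_right _ _)
  have hr : 0 < ‖x‖ := norm_pos_iff.2 hx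
  have hrr : ‖x‖ * ‖x‖⁻¹ = 1 := mul_inv_cancel₀ hr.ne'
  have hri : 0 < ‖x‖⁻¹ := inv_pos.2 hr
  have h1 : 1 ≤ 1 + ‖x‖ ^ 2 := le_add_of_nonneg_right (sq_nonneg _)
  unfold bW wt
  rw [norm_inv_zero, hm]
  generalize ‖x‖ = r at *
  split_ifs with c1 c2 c2
  · nlinarith
  · refine le_trans ?_ (bnd_outer hC hΛ hρ (by linarith) hρ2 hr.le c1)
    have e : r ^ 4 * ((1 + r ^ 2) ^ 2)⁻¹ ^ 2 * (Λ * ρ ^ 4 / ρ ^ (m + 2)) *
        (C * (r⁻¹ ^ 4 * (1 + r⁻¹ ^ 2)) / r⁻¹ ^ (m + 2)) =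
        C * r ^ m * (Λ * ρ ^ 4 / ρ ^ (m + 2)) * ((1 + r ^ 2) ^ 3)⁻¹ := by
      simp only [inv_pow]
      field_simp
      ring
    rw [e]
    exact mul_le_of_le_one_right (by positivity) (inv_le_one_of_one_le₀ (one_le_pow₀ h1))
  · refine le_trans ?_ (bnd_outer hC hΛ hρ (by linarith) hρ2 hri.le c2)
    have e : r ^ 4 * ((1 + r ^ 2) ^ 2)⁻¹ ^ 2 * (C * (r ^ 4 * (1 + r ^ 2)) / r ^ (m + 2)) *
        (Λ * ρ ^ 4 / ρ ^ (m + 2)) =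
        C * r⁻¹ ^ m * (Λ * ρ ^ 4 / ρ ^ (m + 2)) * (r ^ 2 / (1 + r ^ 2)) ^ 3 := by
      simp only [inv_pow]
      field_simp
      ring
    rw [e]
    exact mul_le_of_le_one_right (by positivity) (pow_le_one₀ (by positivity)
      ((div_le_one (by positivity)).2 (by linarith)))
  · have e : r ^ 4 * ((1 + r ^ 2) ^ 2)⁻¹ ^ 2 * (C * (r ^ 4 * (1 + r ^ 2)) / r ^ (m + 2)) *
        (C * (r⁻¹ ^ 4 * (1 + r⁻¹ ^ 2)) / r⁻¹ ^ (m + 2)) = C ^ 2 * (r / (1 + r ^ 2)) ^ 2 := by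
      simp only [inv_pow]
      field_simp
      ring
    rw [e]
    exact mul_le_of_le_one_right (by positivity) (pow_le_one₀ (by positivity)
      ((div_le_one (by positivity)).2 (by nlinarith [sq_nonneg (r - 1)])))

theorem bW_le (hn : 3 ≤ n) {k : ℕ} (hk : 4 ≤ k) {ρ C Λ : ℝ} (hρ : 0 < ρ) (hC : 0 ≤ C)
    (hΛ : 0 ≤ Λ) : ∃ c : ℝ, ∀ x : E n, bW k ρ C Λ x ≤ c := by
  obtain ⟨m, hm⟩ : ∃ m, 2 * k + n + 1 = m + 6 := ⟨2 * k + n - 5, by omega⟩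
  refine ⟨Λ * ρ ^ 4 / ρ ^ (m + 6) + (C / (30 * ρ) ^ (m + 2) + C / (30 * ρ) ^ m), fun x => ?_⟩
  rw [bW, hm]
  split_ifs with h
  · exact le_add_of_nonneg_right (by positivity)
  · have h1 := (not_le.1 h).le
    have hr : 0 < ‖x‖ := lt_of_lt_of_le (by positivity) h1
    have e : C * (‖x‖ ^ 4 * (1 + ‖x‖ ^ 2)) / ‖x‖ ^ (m + 6) =
        C / ‖x‖ ^ (m + 2) + C / ‖x‖ ^ m := by
      field_simp
      ring
    rw [e]
    refine le_trans ?_ (le_add_of_nonneg_left (by positivity))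
    gcongr

end Pool.Agent.MP_71da5e_an
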