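import Pool.Agent.MP_71da5e_an.Peak

namespace Pool.Agent.MP_71da5e_an

open MeasureTheory Metric Set Laplacian Filter Topology
open scoped ContDiff ENNReal RealInnerProductSpace

variable {n : ℕ}

lemma cross_sqrt {s t ε : ℝ} (hs : 0 ≤ s) (ht : 0 ≤ t) (hε : 0 < ε) :
    √(s * t) ≤ ε * t + ε⁻¹ * s := by
  refine Real.sqrt_le_iff.2 ⟨by positivity, ?_⟩
  have : (ε * t + ε⁻¹ * s) ^ 2 = (ε * t) ^ 2 + (ε⁻¹ * s) ^ 2 + 2 * (s * t) := by
    field_simp
    ring
  nlinarith [mul_nonneg hs ht, sq_nonneg (ε * t), sq_nonneg (ε⁻¹ * s)]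

theorem cross (hn : 3 ≤ n) {ν a b : E n} (hν : ‖ν‖ = 1) (h : ON a b) (ha : ⟪a, ν⟫ = 0)
    (hb : ⟪b, ν⟫ ≠ 0) (hb' : ⟪b, ν⟫ ^ 2 ≠ 1) :
    Tendsto (fun k => (∫ x, wt x * √(kap a b k x * kap a b k (rf ν x))) / mass a b k) atTop
      (𝓝 0) := by
  obtain ⟨m, hm, hpk⟩ := peak hn h
  set S : E n → ℝ := fun x => ⟪x, a⟫ ^ 2 + ⟪x, b⟫ ^ 2 with hS
  have hSc : Continuous S := by fun_prop
  have hrc := (contDiff_rf ν).continuous
  set T : Set (E n) := {x | S x ≤ S (rf ν x)} with hT
  have hTc : IsClosed T := isClosed_le hSc (hSc.comp hrc)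
  have hw : ∀ x, wt (rf ν x) = wt x := fun x => by simp only [wt, norm_rf hν]
  have hf : Dec 1 (T.indicator fun x => (wt x : ℂ)) :=
    ⟨(Complex.measurable_ofReal.comp continuous_wt.measurable).indicator hTc.measurableSet,
      fun x => (norm_indicator_le_norm_self _ x).trans (by
        rw [Complex.norm_real, Real.norm_of_nonneg (wt_pos x).le, one_mul])⟩
  have h0 : ∀ᵐ p : ℝ × ℝ, p.1 • a + p.2 • b ∉ T := by
    have h0 : ∀ᵐ p : ℝ × ℝ, p.2 ≠ 0 := by
      rw [Measure.volume_eq_prod]
      exact Measure.quasiMeasurePreserving_snd.ae (compl_mem_ae_iff.2 (measure_singleton _))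
    filter_upwards [h0] with p hp
    have h1 : ⟪b, a⟫ = 0 := by rw [real_inner_comm, h.2.2]
    have h2 : ⟪ν, a⟫ = 0 := by rw [real_inner_comm, ha]
    have h3 : ⟪b, ν⟫ ^ 2 ≤ 1 := by
      have := abs_real_inner_le_norm b ν
      rw [h.2.1, hν, one_mul] at this
      exact (sq_le_one_iff_abs_le_one _).2 this
    have h4 : 0 < ⟪b, ν⟫ ^ 2 * (1 - ⟪b, ν⟫ ^ 2) * p.2 ^ 2 :=
      mul_pos (mul_pos (by positivity) (sub_pos.2 (h3.lt_of_ne hb'))) (by positivity)
    simp only [hT, hS, rf, mem_ofPred_eq, inner_sub_left, inner_add_left, real_inner_smul_left,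
      real_inner_self_eq_norm_sq, h.1, h.2.1, h.2.2, h1, h2, ha, real_inner_comm b ν, not_le]
    nlinarith
  have t1 := hpk 1 _ hf (h0.mono fun p hp => continuousAt_const.congr (f := fun _ => 0) (by
    filter_upwards [hTc.isOpen_compl.mem_nhds hp] with y hy
    rw [indicator_of_notMem hy]))
  rw [integral_congr_ae (g := fun _ => 0) (h0.mono fun p hp => indicator_of_notMem hp _),
    integral_zero, zero_div] at t1
  have t2 : Tendsto (fun k => (∫ x, T.indicator (fun x => wt x * kap a b k x) x) / mass a b k)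
      atTop (𝓝 0) := by
    have := (Complex.continuous_re.tendsto _).comp t1
    refine this.congr fun k => ?_
    have e : (fun x => T.indicator (fun x => (wt x : ℂ)) x * kap a b k x) =
        fun x => ((T.indicator (fun x => wt x * kap a b k x) x : ℝ) : ℂ) := by
      funext x
      by_cases hx : x ∈ T <;> simp [hx]
    simp only [Function.comp_apply, e, integral_complex_ofReal, ← Complex.ofReal_div,
      Complex.ofReal_re]
  refine tendsto_order.2 ⟨fun c hc => Eventually.of_forall fun k => hc.trans_le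
    (div_nonneg (integral_nonneg fun x => mul_nonneg (wt_pos x).le (Real.sqrt_nonneg _))
      (mass_pos hn h k).le), fun c hc => ?_⟩
  have hε : 0 < c / 4 := by positivity
  filter_upwards [(tendsto_order.1 t2).2 (c / 4 * (c / 4)) (by positivity)] with k hk
  have hM := mass_pos hn h k
  have i0 := integrable_wt_kap hn h k
  have i1 := i0.indicator hTc.measurableSet
  have i2 : Integrable fun x => c / 4 * (wt x * kap a b k x) +
      (c / 4)⁻¹ * T.indicator (fun x => wt x * kap a b k x) x :=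
    (i0.const_mul _).add (i1.const_mul _)
  have h1 : ∫ x, wt x * √(kap a b k x * kap a b k (rf ν x)) ≤
      2 * (c / 4 * mass a b k + (c / 4)⁻¹ * ∫ x, T.indicator (fun x => wt x * kap a b k x) x) := by
    refine (integral_mono_of_nonneg
      (ae_of_all _ fun x => mul_nonneg (wt_pos x).le (Real.sqrt_nonneg _))
      (i2.add (integrable_rf hν i2)) (ae_of_all _ fun x => ?_)).trans_eq ?_
    · have k1 := kap_nonneg a b k x
      have k2 := kap_nonneg a b k (rf ν x)
      have w0 := (wt_pos x).le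
      have n1 : ∀ y, 0 ≤ T.indicator (fun x => wt x * kap a b k x) y := fun y =>
        indicator_nonneg (fun z _ => mul_nonneg (wt_pos z).le (kap_nonneg _ _ _ _)) y
      simp only [Pi.add_apply, hw]
      rcases le_total (S x) (S (rf ν x)) with h2 | h2
      · have := mul_le_mul_of_nonneg_left (cross_sqrt k1 k2 hε) w0
        rw [indicator_of_mem (show x ∈ T from h2)]
        nlinarith [mul_nonneg hε.le (mul_nonneg w0 k1), mul_nonneg (inv_pos.2 hε).le (n1 (rf ν x))]
      · have := mul_le_mul_of_nonneg_left (cross_sqrt k2 k1 hε) w0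
        rw [indicator_of_mem (show rf ν x ∈ T from by rw [hT, mem_ofPred_eq, rf_rf hν]; exact h2),
          hw, mul_comm (kap a b k x)]
        nlinarith [mul_nonneg hε.le (mul_nonneg w0 k2), mul_nonneg (inv_pos.2 hε).le (n1 x)]
    · simp only [Pi.add_apply]
      rw [integral_add i2 (integrable_rf hν i2), integral_rf hν fun x => c / 4 * (wt x * kap a b k x) +
        (c / 4)⁻¹ * T.indicator (fun x => wt x * kap a b k x) x,
        integral_add (i0.const_mul _) (i1.const_mul _), integral_const_mul, integral_const_mul,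
        two_mul, mass]
  rw [div_lt_iff₀ hM] at hk ⊢
  have h2 : (c / 4)⁻¹ * ∫ x, T.indicator (fun x => wt x * kap a b k x) x < c / 4 * mass a b k := by
    rw [inv_mul_lt_iff₀ hε]
    linarith
  linarith

end Pool.Agent.MP_71da5e_an
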