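import Pool.Agent.MP_71da5e_an.Ann
import Pool.Agent.MP_71da5e_an.CarlB

namespace Pool.Agent.MP_71da5e_an

open MeasureTheory Metric Set Laplacian Filter Topology
open scoped ContDiff ENNReal RealInnerProductSpace

variable {n : ℕ}

lemma estA_a {k N : ℕ} (hk : 4 ≤ k) (hN : 2 * k + 4 ≤ N) {ρ r : ℝ} (hρ : 0 < ρ) (hr : 0 < r) :
    (k ^ 2 * r ^ 2 / (1 + r ^ 2) + ρ ^ 2 / (r ^ 2 + ρ ^ 2)) / r ^ N ≤
      2 * ((N : ℝ) - 2) * (N - 6) * ((r ^ 2 + 1 ^ 2) * (r ^ 2 + ρ ^ 2) / r ^ N) *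
        (1 ^ 2 / (r ^ 2 + 1 ^ 2) ^ 2 + ρ ^ 2 / (r ^ 2 + ρ ^ 2) ^ 2) := by
  have hk' : (4 : ℝ) ≤ k := by exact_mod_cast hk
  have hN' : 2 * (k : ℝ) + 4 ≤ N := by exact_mod_cast hN
  set c : ℝ := 2 * ((N : ℝ) - 2) * (N - 6) with hc
  have hck : (k : ℝ) ^ 2 ≤ c := by
    have h1 : (k : ℝ) ≤ N - 2 := by linarith
    have h2 : (k : ℝ) ≤ N - 6 := by linarith
    have h3 : (k : ℝ) * k ≤ (N - 2) * (N - 6) := mul_le_mul h1 h2 (by linarith) (by linarith)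
    nlinarith
  have hc1 : 1 ≤ c := by nlinarith
  have e : c * ((r ^ 2 + 1 ^ 2) * (r ^ 2 + ρ ^ 2) / r ^ N) *
        (1 ^ 2 / (r ^ 2 + 1 ^ 2) ^ 2 + ρ ^ 2 / (r ^ 2 + ρ ^ 2) ^ 2) =
      (c * (r ^ 2 + ρ ^ 2) / (1 + r ^ 2) + c * (r ^ 2 + 1) * ρ ^ 2 / (r ^ 2 + ρ ^ 2)) / r ^ N := by
    field_simp
    ring
  rw [e]
  have h1 : (k : ℝ) ^ 2 * r ^ 2 ≤ c * (r ^ 2 + ρ ^ 2) :=
    mul_le_mul hck (le_add_of_nonneg_right (sq_nonneg _)) (sq_nonneg _) (by linarith)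
  have h2 : ρ ^ 2 ≤ c * (r ^ 2 + 1) * ρ ^ 2 :=
    le_mul_of_one_le_left (sq_nonneg _) (by nlinarith [sq_nonneg r])
  gcongr

lemma estA_b0 {N : ℕ} {ρ r : ℝ} (hρ : 0 < ρ) (hr : ρ ≤ r) :
    3 * ((r ^ 2 + 1 ^ 2) * (r ^ 2 + ρ ^ 2) / r ^ N * r ^ 2) ≤
      6 * (r ^ 4 * (1 + r ^ 2)) / r ^ N := by
  have hr0 : 0 < r := hρ.trans_le hr
  have h1 : ρ ^ 2 ≤ r ^ 2 := by gcongr
  have e : 3 * ((r ^ 2 + 1 ^ 2) * (r ^ 2 + ρ ^ 2) / r ^ N * r ^ 2) =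
      3 * ((r ^ 2 + ρ ^ 2) * (r ^ 2 * (1 + r ^ 2))) / r ^ N := by ring
  have e' : 6 * (r ^ 4 * (1 + r ^ 2)) = 3 * ((r ^ 2 + r ^ 2) * (r ^ 2 * (1 + r ^ 2))) := by ring
  rw [e, e']
  gcongr

lemma estA_b1 {N : ℕ} {ρ r : ℝ} (hρ : 0 < ρ) (hρ1 : ρ ≤ 1) (hr : ρ / 2 ≤ r) (hr' : r ≤ ρ) :
    (r ^ 2 + 1 ^ 2) * (r ^ 2 + ρ ^ 2) / r ^ N * r ^ 2 ≤ 4 * 2 ^ N * ρ ^ 4 / ρ ^ N := by
  have hr0 : 0 < r := lt_of_lt_of_le (by positivity) hr
  have hr1 : r ≤ 1 := hr'.trans hρ1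
  calc (r ^ 2 + 1 ^ 2) * (r ^ 2 + ρ ^ 2) / r ^ N * r ^ 2
      ≤ (1 ^ 2 + 1 ^ 2) * (ρ ^ 2 + ρ ^ 2) / (ρ / 2) ^ N * ρ ^ 2 := by gcongr
    _ = 4 * 2 ^ N * ρ ^ 4 / ρ ^ N := by
      rw [div_pow]
      field_simp
      ring

lemma estA_b2 {N : ℕ} (hN : 12 ≤ N) {ρ r S : ℝ} (hρ : 0 < ρ) (hρ1 : ρ ≤ 1) (hS : 1 ≤ S)
    (hr : S ≤ r) (hr' : r ≤ 2 * S) :
    (r ^ 2 + 1 ^ 2) * (r ^ 2 + ρ ^ 2) / r ^ N * r ^ 2 ≤ 100 / S ^ 6 := by
  have hS0 : 0 < S := by linarith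
  have hr0 : 0 < r := by linarith
  have hρS : ρ ≤ S := hρ1.trans hS
  have h12 : S ^ 12 ≤ r ^ N :=
    (pow_le_pow_left₀ hS0.le hr 12).trans (pow_le_pow_right₀ (hS.trans hr) hN)
  calc (r ^ 2 + 1 ^ 2) * (r ^ 2 + ρ ^ 2) / r ^ N * r ^ 2
      ≤ ((2 * S) ^ 2 + S ^ 2) * ((2 * S) ^ 2 + S ^ 2) / S ^ 12 * (2 * S) ^ 2 := by gcongr
    _ = 100 / S ^ 6 := by
      field_simp
      ring

lemma estA_sh {S : ℝ} (hS : 1 ≤ S) (w : E n → ℂ) :
    Q (sh 0 (S / 2) (4 * S)) w ≤ ENNReal.ofReal (289 * S ^ 4) * Q wt w := by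
  rw [← Q_const_mul (by positivity)]
  refine Q_mono_left w fun x => ?_
  have hw := wt_pos x
  unfold sh
  split_ifs with h
  · have h2 : ‖x‖ ≤ 4 * S := by simpa using h.2
    have h3 : (1 + ‖x‖ ^ 2) ^ 2 ≤ 289 * S ^ 4 := by
      calc (1 + ‖x‖ ^ 2) ^ 2 ≤ (S ^ 2 + (4 * S) ^ 2) ^ 2 := by
            gcongr
            exact one_le_pow₀ hS
        _ = 289 * S ^ 4 := by ring
    unfold wt
    rw [← div_eq_mul_inv, le_div_iff₀ (by positivity), one_mul]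
    exact h3
  · positivity

lemma estA_sup {a : E n → ℝ} (ha : Measurable a) (ha0 : ∀ x, 0 ≤ a x) {w : E n → ℂ}
    (hw : Measurable w) (ρ : ℝ) :
    Q (fun x => if ‖x‖ < ρ then 0 else a x) w ≤
      ⨆ j : ℕ, Q (fun x => sh 0 ρ j x * a x) w := by
  unfold Q
  rw [← lintegral_iSup]
  · refine lintegral_mono fun x => ?_
    obtain ⟨j, hj⟩ := exists_nat_ge ‖x‖
    refine le_iSup_of_le j (ENNReal.ofReal_le_ofReal ?_)
    refine mul_le_mul_of_nonneg_right ?_ (sq_nonneg _)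
    beta_reduce
    split_ifs with h
    · exact mul_nonneg (sh_nonneg _ _ _ _) (ha0 x)
    · have : sh 0 ρ j x = 1 := if_pos ⟨by simpa using h, by simpa using hj⟩
      rw [this, one_mul]
  · intro j
    have := measurable_sh (0 : E n) ρ j
    fun_prop
  · intro i j hij x
    refine ENNReal.ofReal_le_ofReal (mul_le_mul_of_nonneg_right
      (mul_le_mul_of_nonneg_right ?_ (ha0 x)) (sq_nonneg _))
    have hij' : (i : ℝ) ≤ j := by exact_mod_cast hij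
    unfold sh
    split_ifs with h1 h2
    · exact le_rfl
    · exact absurd ⟨h1.1, h1.2.trans hij'⟩ h2
    · exact zero_le_one
    · exact le_rfl

lemma estA_whole (hn : 3 ≤ n) {k : ℕ} (hk : 4 ≤ k) : ∃ C : ℝ, 0 ≤ C ∧ ∀ (ρ : ℝ)
    (w F : E n → ℂ), 0 < ρ → ρ ≤ 1 → WP univ w F →
    Q (fun x => if ‖x‖ < ρ then 0 else aW k ρ x) w ≤
      Q (fun x => if ‖x‖ < ρ then 0 else 6 * (‖x‖ ^ 4 * (1 + ‖x‖ ^ 2)) / ‖x‖ ^ (2 * k + n + 1)) F +
      ENNReal.ofReal (C * ρ ^ 4 / ρ ^ (2 * k + n + 1)) * Q (sh 0 0 (2 * ρ)) F +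
      ENNReal.ofReal (C / ρ ^ (2 * k + n + 1)) * Q (sh 0 0 (2 * ρ)) w := by
  obtain ⟨C, hC, hann⟩ := ann n
  set N := 2 * k + n + 1 with hNdef
  have hN : 12 ≤ N := by omega
  have hN' : (12 : ℝ) ≤ N := by exact_mod_cast hN
  refine ⟨(C + 3) * (4 * 2 ^ N), by positivity, fun ρ w F hρ hρ1 hwp => ?_⟩
  set R := Q (fun x : E n => if ‖x‖ < ρ then 0 else 6 * (‖x‖ ^ 4 * (1 + ‖x‖ ^ 2)) / ‖x‖ ^ N) F +
      ENNReal.ofReal ((C + 3) * (4 * 2 ^ N) * ρ ^ 4 / ρ ^ N) * Q (sh 0 0 (2 * ρ)) F +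
      ENNReal.ofReal ((C + 3) * (4 * 2 ^ N) / ρ ^ N) * Q (sh 0 0 (2 * ρ)) w with hR
  set a : E n → ℝ := fun x => 2 * ((N : ℝ) - 2) * (N - 6) * om N 1 ρ (x - 0) *
    (1 ^ 2 / (‖x - 0‖ ^ 2 + 1 ^ 2) ^ 2 + ρ ^ 2 / (‖x - 0‖ ^ 2 + ρ ^ 2) ^ 2) with ha
  set b : E n → ℝ := fun x => om N 1 ρ (x - 0) * ‖x - 0‖ ^ 2 with hb
  have hb' : ∀ x, b x = (‖x‖ ^ 2 + 1 ^ 2) * (‖x‖ ^ 2 + ρ ^ 2) / ‖x‖ ^ N * ‖x‖ ^ 2 := fun x => by
    simp only [hb, om, sub_zero]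
  have ham : Measurable a := by
    rw [ha]; unfold om; fun_prop
  have ha0 : ∀ x, 0 ≤ a x := fun x => by
    have h1 : (0 : ℝ) ≤ N - 2 := by linarith
    have h2 : (0 : ℝ) ≤ N - 6 := by linarith
    simp only [ha, om]
    positivity
  have hbm : Measurable b := by
    rw [hb]; unfold om; fun_prop
  have hbc : ContinuousOn b {0}ᶜ := by
    rw [funext hb']
    refine ContinuousOn.mul (ContinuousOn.div (by fun_prop) (by fun_prop) fun x hx => ?_)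
      (by fun_prop)
    exact pow_ne_zero _ (norm_ne_zero_iff.2 hx)
  have hb0 : ∀ x, 0 ≤ b x := fun x => by rw [hb']; positivity
  set B₁ : ℝ := 4 * 2 ^ N * ρ ^ 4 / ρ ^ N with hB₁
  have hB₁0 : 0 ≤ B₁ := by positivity
  have key : ∀ S : ℝ, 4 ≤ S → Q (fun x => sh 0 ρ S x * aW k ρ x) w ≤
      R + ENNReal.ofReal (C * 28900 / S) * (Q wt w + Q wt F) := by
    intro S hS
    have hS0 : 0 < S := by linarith
    have hS1 : 1 ≤ S := by linarith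
    have h := hann 0 a b w F univ ρ S B₁ (100 / S ^ 6) hρ (by linarith) hB₁0 (by positivity) ham ha0
      hbm hbc hb0 (fun v hv h0 => carleman 0 (by omega) one_pos hρ hv h0) isOpen_univ
      (fun _ _ _ => mem_univ _) hwp
      (fun x h1 h2 => by
        rw [hb']; rw [sub_zero] at h1 h2; exact estA_b1 hρ hρ1 h1 h2)
      (fun x h1 h2 => by
        rw [hb']; rw [sub_zero] at h1 h2; exact estA_b2 hN hρ hρ1 hS1 h1 h2)
    have h1 : Q (fun x => sh 0 ρ S x * aW k ρ x) w ≤ Q (fun x => sh 0 ρ S x * a x) w := by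
      refine Q_mono_left w fun x => ?_
      unfold sh
      split_ifs with hx
      · have hx' : ρ ≤ ‖x‖ := by simpa using hx.1
        rw [one_mul, one_mul, aW, if_neg (not_lt.2 hx')]
        simp only [ha, om, sub_zero]
        exact estA_a hk (by omega) hρ (hρ.trans_le hx')
      · simp
    have h2 : 3 * Q (fun x => sh 0 (ρ / 2) (2 * S) x * b x) F ≤
        Q (fun x : E n => if ‖x‖ < ρ then 0 else 6 * (‖x‖ ^ 4 * (1 + ‖x‖ ^ 2)) / ‖x‖ ^ N) F +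
          ENNReal.ofReal (3 * B₁) * Q (sh 0 0 (2 * ρ)) F := by
      rw [← Q_const_mul (by positivity), show (3 : ℝ≥0∞) = ENNReal.ofReal 3 by simp,
        ← Q_const_mul (by norm_num)]
      refine Q_le_add (Measurable.ite (measurableSet_lt (by fun_prop) measurable_const)
        measurable_const (by fun_prop)) hwp.2.1.1 fun x => ?_
      rw [← add_mul]
      refine mul_le_mul_of_nonneg_right ?_ (sq_nonneg _)
      have hsh : 0 ≤ 3 * B₁ * sh 0 0 (2 * ρ) x := mul_nonneg (by positivity) (sh_nonneg _ _ _ _)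
      by_cases hx : ‖x‖ < ρ
      · rw [if_pos hx, zero_add]
        by_cases hx' : ρ / 2 ≤ ‖x‖
        · have e : sh 0 0 (2 * ρ) x = 1 := if_pos ⟨norm_nonneg _, by rw [sub_zero]; linarith⟩
          have := estA_b1 (N := N) hρ hρ1 hx' hx.le
          rw [← hb'] at this
          have h3 := mul_le_of_le_one_left (hb0 x) (sh_le_one 0 (ρ / 2) (2 * S) x)
          rw [e]; linarith
        · have e : sh 0 (ρ / 2) (2 * S) x = 0 := if_neg fun h => hx' (by simpa using h.1)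
          rw [e, zero_mul, mul_zero]; exact hsh
      · rw [if_neg hx]
        have := estA_b0 (N := N) hρ (not_lt.1 hx)
        rw [← hb'] at this
        have h3 := mul_le_of_le_one_left (hb0 x) (sh_le_one 0 (ρ / 2) (2 * S) x)
        linarith
    have h3 : ENNReal.ofReal (C * B₁) * ENNReal.ofReal (ρ ^ 4)⁻¹ ≤
        ENNReal.ofReal ((C + 3) * (4 * 2 ^ N) / ρ ^ N) := by
      rw [← ENNReal.ofReal_mul (by positivity)]
      refine ENNReal.ofReal_le_ofReal ?_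
      have : C * B₁ * (ρ ^ 4)⁻¹ = C * (4 * 2 ^ N) / ρ ^ N := by
        rw [hB₁]; field_simp
      rw [this]
      gcongr
      linarith
    have h4 : ENNReal.ofReal (3 * B₁) + ENNReal.ofReal (C * B₁) =
        ENNReal.ofReal ((C + 3) * (4 * 2 ^ N) * ρ ^ 4 / ρ ^ N) := by
      rw [← ENNReal.ofReal_add (by positivity) (by positivity)]
      congr 1
      rw [hB₁]; ring
    have h5 : ENNReal.ofReal (C * (100 / S ^ 6)) * ENNReal.ofReal (289 * S ^ 4) ≤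
        ENNReal.ofReal (C * 28900 / S) := by
      rw [← ENNReal.ofReal_mul (by positivity)]
      refine ENNReal.ofReal_le_ofReal ?_
      have : C * (100 / S ^ 6) * (289 * S ^ 4) = C * 28900 / S ^ 2 := by
        field_simp; ring
      rw [this]
      gcongr
      nlinarith
    have h6 : ENNReal.ofReal (S ^ 4)⁻¹ ≤ 1 :=
      ENNReal.ofReal_le_one.2 (inv_le_one_of_one_le₀ (one_le_pow₀ hS1))
    have h7 : ENNReal.ofReal (C * (100 / S ^ 6)) *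
        (ENNReal.ofReal (S ^ 4)⁻¹ * Q (sh 0 (S / 2) (4 * S)) w + Q (sh 0 (S / 2) (4 * S)) F) ≤
        ENNReal.ofReal (C * 28900 / S) * (Q wt w + Q wt F) := by
      calc _ ≤ ENNReal.ofReal (C * (100 / S ^ 6)) *
            (1 * (ENNReal.ofReal (289 * S ^ 4) * Q wt w) +
              ENNReal.ofReal (289 * S ^ 4) * Q wt F) := by
            gcongr
            · exact estA_sh hS1 w
            · exact estA_sh hS1 F
        _ = ENNReal.ofReal (C * (100 / S ^ 6)) * ENNReal.ofReal (289 * S ^ 4) *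
            (Q wt w + Q wt F) := by ring
        _ ≤ _ := by gcongr
    refine h1.trans (h.trans (add_le_add ?_ h7))
    calc _ ≤ (Q (fun x : E n => if ‖x‖ < ρ then 0 else
              6 * (‖x‖ ^ 4 * (1 + ‖x‖ ^ 2)) / ‖x‖ ^ N) F +
            ENNReal.ofReal (3 * B₁) * Q (sh 0 0 (2 * ρ)) F) + ENNReal.ofReal (C * B₁) *
          (ENNReal.ofReal (ρ ^ 4)⁻¹ * Q (sh 0 0 (2 * ρ)) w + Q (sh 0 0 (2 * ρ)) F) := by
          gcongr
      _ = Q (fun x : E n => if ‖x‖ < ρ then 0 else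
              6 * (‖x‖ ^ 4 * (1 + ‖x‖ ^ 2)) / ‖x‖ ^ N) F +
            (ENNReal.ofReal (3 * B₁) + ENNReal.ofReal (C * B₁)) * Q (sh 0 0 (2 * ρ)) F +
            ENNReal.ofReal (C * B₁) * ENNReal.ofReal (ρ ^ 4)⁻¹ * Q (sh 0 0 (2 * ρ)) w := by ring
      _ ≤ R := by
          rw [h4, hR]
          gcongr
  have hfin : Q wt w + Q wt F ≠ ⊤ := ENNReal.add_ne_top.2 ⟨hwp.1.2, hwp.2.1.2⟩
  have hlim : Tendsto (fun S : ℝ => R + ENNReal.ofReal (C * 28900 / S) * (Q wt w + Q wt F))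
      atTop (𝓝 R) := by
    have t1 : Tendsto (fun S : ℝ => C * 28900 / S) atTop (𝓝 0) :=
      tendsto_const_nhds.div_atTop tendsto_id
    have t2 := ENNReal.Tendsto.mul_const (ENNReal.tendsto_ofReal t1) (Or.inr hfin)
    rw [ENNReal.ofReal_zero, zero_mul] at t2
    simpa using t2.const_add R
  refine (estA_sup (measurable_aW k ρ) (fun x => (aW_pos k hρ x).le) hwp.1.1 ρ).trans
    (iSup_le fun j => ge_of_tendsto hlim ?_)
  filter_upwards [eventually_ge_atTop (4 : ℝ), eventually_ge_atTop (j : ℝ)] with S hS hj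
  refine le_trans (Q_mono_left w fun x => ?_) (key S hS)
  refine mul_le_mul_of_nonneg_right ?_ (aW_pos k hρ x).le
  unfold sh
  split_ifs with h1 h2
  · exact le_rfl
  · exact absurd ⟨h1.1, h1.2.trans hj⟩ h2
  · exact zero_le_one
  · exact le_rfl

theorem est_out (hn : 3 ≤ n) {k : ℕ} (hk : 4 ≤ k) : ∃ C : ℝ, 0 ≤ C ∧ ∀ (ν : E n) (ρ : ℝ)
    (G : Set (E n)) (w F : E n → ℂ), ‖ν‖ = 1 → 0 < ρ → ρ ≤ 1 → HP ν G w F →
    Q (fun x => if ‖x‖ < ρ then 0 else aW k ρ x) w ≤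
      Q (fun x => if ‖x‖ < ρ then 0 else 6 * (‖x‖ ^ 4 * (1 + ‖x‖ ^ 2)) / ‖x‖ ^ (2 * k + n + 1)) F +
      ENNReal.ofReal (C * ρ ^ 4 / ρ ^ (2 * k + n + 1)) * Q (sh 0 0 (2 * ρ)) F +
      ENNReal.ofReal (C / ρ ^ (2 * k + n + 1)) * Q (sh 0 0 (2 * ρ)) w := by
  obtain ⟨C, hC, h⟩ := estA_whole hn hk
  refine ⟨C, hC, fun ν ρ G w F hν hρ hρ1 hp => ?_⟩
  have h' := h ρ _ _ hρ hρ1 (hp.odd hν)
  have hsh : ∀ x, sh 0 0 (2 * ρ) (rf ν x) = sh 0 0 (2 * ρ) x := fun x => by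
    simp only [sh, sub_zero, norm_rf hν]
  have hm : MeasurableSet {x : E n | ‖x‖ < ρ} := measurableSet_lt (by fun_prop) measurable_const
  rw [Q_odd hν (Measurable.ite hm measurable_const (measurable_aW k ρ))
      (fun x => by split_ifs; exacts [le_rfl, (aW_pos k hρ x).le])
      (fun x => by simp only [aW, norm_rf hν]) hp.l2w.1 hp.zw,
    Q_odd hν (Measurable.ite hm measurable_const (by fun_prop))
      (fun x => by split_ifs; exacts [le_rfl, by positivity])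
      (fun x => by simp only [norm_rf hν]) hp.l2F.1 hp.zF,
    Q_odd hν (measurable_sh _ _ _) (sh_nonneg _ _ _) hsh hp.l2F.1 hp.zF,
    Q_odd hν (measurable_sh _ _ _) (sh_nonneg _ _ _) hsh hp.l2w.1 hp.zw] at h'
  refine (ENNReal.mul_le_mul_iff_right (a := 2) (by norm_num) (by norm_num)).1 (h'.trans_eq ?_)
  ring

end Pool.Agent.MP_71da5e_an
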