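import Pool.Agent.MP_71da5e_an.QBasic

namespace Pool.Agent.MP_71da5e_an

open MeasureTheory Metric Set Laplacian Filter Topology
open scoped ContDiff ENNReal RealInnerProductSpace FourierTransform

variable {n : ℕ}

lemma four_fub {F : E 3 → ℂ} (hF : Integrable F) (T : (ℝ × ℝ × ℝ) →ₗ[ℝ] E 3)
    (hT : Function.Injective T) (h : ∀ d, ∫ p : ℝ × ℝ, F (T (d, p)) = 0) : ∫ x, F x = 0 := by
  set L := (LinearMap.linearEquivOfInjective T hT (by simp)).toContinuousLinearEquiv with hL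
  have i2 : (volume : Measure (ℝ × ℝ)).IsAddHaarMeasure :=
    Measure.prod.instIsAddHaarMeasure volume volume
  have i3 : (volume : Measure (ℝ × ℝ × ℝ)).IsAddHaarMeasure :=
    Measure.prod.instIsAddHaarMeasure volume volume
  have e := Measure.isAddLeftInvariant_eq_smul (Measure.map L volume) (volume : Measure (E 3))
  have hk := Measure.addHaarScalarFactor_pos_of_isAddHaarMeasure (Measure.map L volume)
    (volume : Measure (E 3))
  set k := Measure.addHaarScalarFactor (Measure.map L volume) (volume : Measure (E 3))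
  have hm := L.toHomeomorph.measurableEmbedding
  have h1 : Integrable F (Measure.map L volume) := by
    rw [e]; exact hF.smul_measure_nnreal
  have h2 : ∫ x, F x ∂Measure.map L volume = 0 := by
    refine (hm.integral_map F).trans ?_
    refine (integral_prod _ (hm.integrable_map_iff.1 h1)).trans ?_
    exact integral_eq_zero_of_ae (ae_of_all _ h)
  rw [e, integral_smul_nnreal_measure] at h2
  exact (smul_eq_zero.1 h2).resolve_left hk.ne'

lemma four_three {ν : E 3} (hν : ‖ν‖ = 1) {A R : ℝ} {g : E 3 → ℂ} (hg : Dec A g)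
    (hc : ContinuousAt g ν) (h : ∀ z ∈ Pl ν, R ≤ ‖z‖ → ∀ a b : E 3, ON a b → ⟪a, ν⟫ = 0 →
      ⟪b, ν⟫ ≠ 0 → ⟪b, ν⟫ ^ 2 ≠ 1 → ∫ p : ℝ × ℝ, g (p.1 • a + p.2 • b + z) = 0) : g ν = 0 := by
  have hi : Integrable g := by
    refine ((integrable_rpow_neg_one_add_norm_sq (μ := volume) (r := 4)
      (by simp; norm_num)).const_mul A).mono' hg.1.aestronglyMeasurable (ae_of_all _ fun x => ?_)
    refine (hg.2 x).trans_eq ?_
    rw [wt, show (-4 / 2 : ℝ) = -(2 : ℕ) by norm_num, Real.rpow_neg (by positivity),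
      Real.rpow_natCast]
  have hsp : volume (Submodule.span ℝ {ν} : Set (E 3)) = 0 := by
    refine Measure.addHaar_submodule _ _ fun e => ?_
    have := finrank_span_le_card (R := ℝ) ({ν} : Set (E 3))
    rw [e] at this
    simp at this
  have h0 : 𝓕 g =ᵐ[volume] 0 := by
    filter_upwards [measure_eq_zero_iff_ae_notMem.1 (volume_Pl hν),
      measure_eq_zero_iff_ae_notMem.1 hsp] with ξ h1 h2
    have h1' : ⟪ξ, ν⟫ ≠ 0 := h1
    have hξ : ‖ξ‖ ≠ 0 := fun e => h1' (by simp [norm_eq_zero.1 e])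
    obtain ⟨a', ha, ha0⟩ := Submodule.exists_mem_ne_zero_of_ne_bot
      (LinearMap.ker_ne_bot_of_finrank_lt
        (f := (innerSL ℝ ξ).toLinearMap.prod (innerSL ℝ ν).toLinearMap) (by simp))
    obtain ⟨a1, a2⟩ : ⟪ξ, a'⟫ = 0 ∧ ⟪ν, a'⟫ = 0 := by simpa [Prod.ext_iff] using ha
    set b' := ν - (⟪ξ, ν⟫ / ‖ξ‖ ^ 2) • ξ with hb'
    have b1 : ⟪ξ, b'⟫ = 0 := by
      rw [hb', inner_sub_right, real_inner_smul_right, real_inner_self_eq_norm_sq]
      field_simp; ring
    have b2 : ⟪b', ν⟫ = 1 - ⟪ξ, ν⟫ ^ 2 / ‖ξ‖ ^ 2 := by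
      rw [hb', inner_sub_left, real_inner_smul_left, real_inner_self_eq_norm_sq, hν]; ring
    have b3 : ‖b'‖ ^ 2 = ⟪b', ν⟫ := by
      rw [← real_inner_self_eq_norm_sq]
      nth_rw 2 [hb']
      rw [inner_sub_right, real_inner_smul_right, real_inner_comm ξ b', b1, mul_zero, sub_zero]
    have hb0 : b' ≠ 0 := fun e => h2 (Submodule.mem_span_singleton.2
      ⟨(⟪ξ, ν⟫ / ‖ξ‖ ^ 2)⁻¹, by
        nth_rw 2 [sub_eq_zero.1 (hb'.symm.trans e)]
        rw [smul_smul, inv_mul_cancel₀ (by positivity), one_smul]⟩)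
    have nb := norm_ne_zero_iff.2 hb0
    set a := ‖a'‖⁻¹ • a' with hadef
    set b := ‖b'‖⁻¹ • b' with hbdef
    have na : ‖a‖ = 1 := norm_smul_inv_norm ha0
    have nb1 : ‖b‖ = 1 := norm_smul_inv_norm hb0
    have aξ : ⟪a, ξ⟫ = 0 := by rw [hadef, real_inner_smul_left, real_inner_comm, a1, mul_zero]
    have aν : ⟪a, ν⟫ = 0 := by rw [hadef, real_inner_smul_left, real_inner_comm, a2, mul_zero]
    have bξ : ⟪b, ξ⟫ = 0 := by rw [hbdef, real_inner_smul_left, real_inner_comm, b1, mul_zero]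
    have bν : ⟪b, ν⟫ = ‖b'‖ := by rw [hbdef, real_inner_smul_left, ← b3]; field_simp
    have ab : ⟪a, b⟫ = 0 := by
      rw [hbdef, real_inner_smul_right, hb', inner_sub_right, real_inner_smul_right, aξ, aν]; simp
    set e := ξ - (⟪ξ, ν⟫ / ‖b'‖) • b with he
    have eν : ⟪e, ν⟫ = 0 := by rw [he, inner_sub_left, real_inner_smul_left, bν]; field_simp; ring
    have eξ : ⟪e, ξ⟫ = ‖ξ‖ ^ 2 := by
      rw [he, inner_sub_left, real_inner_smul_left, bξ, real_inner_self_eq_norm_sq]; ring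
    have ae : ⟪a, e⟫ = 0 := by rw [he, inner_sub_right, real_inner_smul_right, aξ, ab]; simp
    set T : (ℝ × ℝ × ℝ) →ₗ[ℝ] E 3 := (LinearMap.toSpanSingleton ℝ _ e).coprod
      ((LinearMap.toSpanSingleton ℝ _ a).coprod (LinearMap.toSpanSingleton ℝ _ b)) with hT
    have hT' : ∀ d (p : ℝ × ℝ), T (d, p) = d • e + (p.1 • a + p.2 • b) := fun _ _ => rfl
    have hTξ : ∀ d (p : ℝ × ℝ), ⟪T (d, p), ξ⟫ = d * ‖ξ‖ ^ 2 := fun d p => by
      simp only [hT', inner_add_left, real_inner_smul_left, eξ, aξ, bξ]; ring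
    rw [Real.fourier_eq]
    refine four_fub ((Real.fourierIntegral_convergent_iff ξ).2 hi) T ?_ fun d => ?_
    · refine (injective_iff_map_eq_zero T).2 fun ⟨d, p⟩ hp => ?_
      have hd : d = 0 := by
        have := hTξ d p
        rw [hp, inner_zero_left] at this
        exact (mul_eq_zero.1 this.symm).resolve_right (pow_ne_zero 2 hξ)
      rw [hT', hd, zero_smul, zero_add] at hp
      have p1 := congrArg (fun v => ⟪a, v⟫) hp
      have p2 := congrArg (fun v => ⟪v, b⟫) hp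
      simp only [inner_add_right, inner_add_left, real_inner_smul_left, real_inner_smul_right, ab,
        real_inner_self_eq_norm_sq, na, nb1, inner_zero_left, inner_zero_right] at p1 p2
      exact Prod.ext hd (Prod.ext (by simpa using p1) (by simpa using p2))
    · simp only [hTξ, Circle.smul_def]
      rw [integral_smul]
      have h3 := h (d • e + |R| • a) (by
        show ⟪_, ν⟫ = 0
        simp only [inner_add_left, real_inner_smul_left, eν, aν]; ring) (by
        have h4 := real_inner_le_norm a (d • e + |R| • a)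
        simp only [inner_add_right, real_inner_smul_right, ae, real_inner_self_eq_norm_sq, na] at h4
        linarith [le_abs_self R]) a b ⟨na, nb1, ab⟩ aν (bν ▸ nb) (by
        rw [bν, b3, b2]
        have : 0 < ⟪ξ, ν⟫ ^ 2 / ‖ξ‖ ^ 2 := by positivity
        linarith)
      rw [← integral_add_right_eq_self _ ((|R|, 0) : ℝ × ℝ)]
      refine smul_eq_zero_of_right _ (Eq.trans ?_ h3)
      congr 1
      funext p
      congr 1
      simp only [hT', Prod.fst_add, Prod.snd_add]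
      module
  rw [← hi.fourierInv_fourier_eq ((integrable_zero _ _ _).congr h0.symm) hc, Real.fourierInv_eq]
  refine integral_eq_zero_of_ae ?_
  filter_upwards [h0] with ξ hξ
  simp [hξ]

theorem four (hn : 3 ≤ n) {ν : E n} (hν : ‖ν‖ = 1) {A R : ℝ} {g : E n → ℂ} (hg : Dec A g)
    (hc : ContinuousOn g (Pl ν)ᶜ) (h : ∀ z ∈ Pl ν, R ≤ ‖z‖ → ∀ a b : E n, ON a b → ⟪a, ν⟫ = 0 →
      ⟪b, ν⟫ ≠ 0 → ⟪b, ν⟫ ^ 2 ≠ 1 → ∫ p : ℝ × ℝ, g (p.1 • a + p.2 • b + z) = 0) : g ν = 0 := by
  obtain ⟨B, hB⟩ := Orthonormal.exists_orthonormalBasis_extension_of_card_eq (𝕜 := ℝ) (ι := Fin n)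
    (by simp) (v := fun _ => ν) (s := {Fin.castLE hn 0}) (by
      refine ⟨fun _ => hν, fun i j hij => absurd (Subsingleton.elim i j) hij⟩)
  set b := EuclideanSpace.basisFun (Fin 3) ℝ
  have hv : Orthonormal ℝ (B ∘ Fin.castLE hn) := B.orthonormal.comp _ (Fin.castLE_injective hn)
  set L : E 3 →ₗᵢ[ℝ] E n := (b.toBasis.constr ℝ (B ∘ Fin.castLE hn)).isometryOfOrthonormal
    (v := b.toBasis) b.orthonormal (by
      convert hv using 1
      funext i
      exact b.toBasis.constr_basis ℝ _ i) with hL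
  have h0 : L (b 0) = ν := (b.toBasis.constr_basis ℝ _ 0).trans (hB _ rfl)
  have hi : ∀ x, ⟪L x, ν⟫ = ⟪x, b 0⟫ := fun x => by rw [← h0, L.inner_map_map]
  have hc' : ContinuousAt g (L (b 0)) := by
    rw [h0]
    refine hc.continuousAt ((isClosed_Pl ν).isOpen_compl.mem_nhds ?_)
    show ¬ ⟪ν, ν⟫ = 0
    simp [hν]
  rw [← h0]
  refine four_three (g := fun x => g (L x)) (A := A) (R := R) (b.orthonormal.1 0)
    ⟨hg.1.comp L.continuous.measurable, fun x => (hg.2 _).trans_eq (by simp [wt])⟩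
    (hc'.comp L.continuous.continuousAt) fun z hz hR a c hac ha hc1 hc2 => ?_
  simpa only [map_add, map_smul] using h (L z) ((hi z).trans hz) (by rwa [L.norm_map]) (L a) (L c)
    ⟨by rw [L.norm_map, hac.1], by rw [L.norm_map, hac.2.1], by rw [L.inner_map_map, hac.2.2]⟩
    ((hi a).trans ha) (by rwa [hi]) (by rwa [hi])

end Pool.Agent.MP_71da5e_an
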