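import Pool.Agent.MP_71da5e_an.Lim
import Pool.Agent.MP_71da5e_an.AvgB
import Pool.Agent.MP_71da5e_an.Four

namespace Pool.Agent.MP_71da5e_an

open MeasureTheory Metric Set Laplacian Filter Topology
open scoped ContDiff ENNReal RealInnerProductSpace

variable {n : ℕ}

lemma half_evn {ν z : E n} (hz : z ∈ Pl ν) (q : E n → ℂ) (x : E n) :
    evn ν (fun y => q (y + z)) x = evn ν q (x + z) := by
  have hz' : ⟪z, ν⟫ = 0 := hz
  have h1 : ∀ y : E n, y + z ∈ Hs ν ↔ y ∈ Hs ν := fun y => by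
    simp only [Hs, mem_ofPred_eq, inner_add_left, hz', add_zero]
  have h2 : rf ν (x + z) = rf ν x + z := by
    simp only [rf, inner_add_left, hz', add_zero]
    abel
  have h3 : ∀ y : E n, (Hs ν).indicator (fun y => q (y + z)) y = (Hs ν).indicator q (y + z) := by
    intro y
    by_cases hy : y ∈ Hs ν
    · rw [indicator_of_mem hy, indicator_of_mem ((h1 y).2 hy)]
    · rw [indicator_of_notMem hy, indicator_of_notMem (mt (h1 y).1 hy)]
  rw [evn, evn, h2, h3, h3]

theorem half (hn : 3 ≤ n) {ν : E n} (hν : ‖ν‖ = 1) {A R : ℝ} {q₁ q₂ : E n → ℂ} (h₁ : Dec A q₁)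
    (h₂ : Dec A q₂) (hyp : Hyp ν (ball 0 R) {x | R < ‖x‖} q₁ q₂) :
    ∀ᵐ x, x ∈ Hs ν → q₁ x = q₂ x := by
  have hq := (h₁.sub h₂).evn hν
  set q := evn ν fun y => q₁ y - q₂ y with hqd
  have lim : ∀ a b : E n, ON a b → ⟪a, ν⟫ = 0 → ⟪b, ν⟫ ≠ 0 → ⟪b, ν⟫ ^ 2 ≠ 1 → ∀ z ∈ Pl ν,
      |R| + 1 ≤ ‖z‖ →
      Tendsto (fun k => (∫ x, q (x + z) * kap a b k x) / mass a b k) atTop (𝓝 0) := by
    intro a b h ha hb hb' z hz hzR
    have hR := le_abs_self R
    have hR0 := abs_nonneg R
    have hs : 1 ≤ ‖z‖ + |R| := by linarith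
    have := beam_limit hn hν h ha hb hb' (r := (‖z‖ + |R|)⁻¹) (by positivity) (h₁.add_const z)
      (h₂.add_const z) ((hyp.add_const hz).mono (fun x hx => ?_) fun x hx => ?_)
    · simpa only [half_evn hz (fun y => q₁ y - q₂ y)] using this
    · have h1 : ‖x + z‖ < R := mem_ball_zero_iff.1 hx
      have h2 : ‖z‖ ≤ ‖x + z‖ + ‖x‖ := by simpa using norm_sub_le (x + z) x
      have h3 : ‖x‖ ≤ ‖x + z‖ + ‖z‖ := by simpa using norm_sub_le (x + z) z
      refine ⟨(inv_le_one_of_one_le₀ hs).trans_lt (by linarith), ?_⟩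
      rw [inv_inv]
      linarith
    · have h1 : ‖x‖ < 1 := (mem_ball_zero_iff.1 hx).trans_le (inv_le_one_of_one_le₀ hs)
      have h2 : ‖z‖ ≤ ‖x + z‖ + ‖x‖ := by simpa using norm_sub_le (x + z) x
      show R < ‖x + z‖
      linarith
  have hloc : LocallyIntegrable q := fun x => by
    refine ⟨ball x 1, ball_mem_nhds x one_pos, Measure.integrableOn_of_bounded (M := 2 * A)
      measure_ball_lt_top.ne hq.1.aestronglyMeasurable (ae_of_all _ fun y => ?_)⟩
    exact (hq.2 y).trans (mul_le_of_le_one_right hq.nonneg (wt_le_one y))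
  have key := (isOpen_Hs ν).ae_eq_zero_of_integral_contDiff_smul_eq_zero
    (hloc.locallyIntegrableOn _) fun f hf hc hs => by
      obtain ⟨A', hA'⟩ := dec_avg hν hf.continuous hc hs hq
      have hcont := continuousOn_avg hν hf.continuous hc hq
      obtain ⟨R', hR'⟩ := tendsto_avg hn hν hf.continuous hc hs hq (|R| + 1)
      rw [← avg_nu ν]
      refine four hn hν hA' hcont (R := R') fun z hz hzR a b h ha hb hb' => ?_
      obtain ⟨m, hm, hpk⟩ := peak hn h
      have h1 := hpk _ _ (hA'.add_const z) (by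
        have h0 : ∀ᵐ p : ℝ × ℝ, p.2 ≠ 0 := by
          rw [Measure.volume_eq_prod]
          exact Measure.quasiMeasurePreserving_snd.ae (compl_mem_ae_iff.2 (measure_singleton _))
        filter_upwards [h0] with p hp
        refine ContinuousAt.comp (f := fun x => x + z) (hcont.continuousAt
          ((isClosed_Pl ν).isOpen_compl.mem_nhds fun h3 => ?_)) (by fun_prop)
        have h4 : ⟪p.1 • a + p.2 • b + z, ν⟫ = 0 := h3
        have hz' : ⟪z, ν⟫ = 0 := hz
        simp only [inner_add_left, real_inner_smul_left, ha, hz', mul_zero, zero_add,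
          add_zero] at h4
        exact mul_ne_zero hp hb h4)
      have h2 := tendsto_nhds_unique h1 (hR' a b h (lim a b h ha hb hb') z hz hzR)
      exact (div_eq_zero_iff.1 h2).resolve_right (by exact_mod_cast hm.ne')
  filter_upwards [key] with x hx hxH
  have h1 := hx hxH
  have h2 : rf ν x ∉ Hs ν := by
    have : 0 < ⟪x, ν⟫ := hxH
    simp only [Hs, mem_ofPred_eq, inner_rf_nu hν, not_lt]
    linarith
  rw [hqd, evn, indicator_of_mem hxH, indicator_of_notMem h2, add_zero] at h1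
  exact sub_eq_zero.1 h1

end Pool.Agent.MP_71da5e_an
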