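import Pool.Agent.MP_71da5e_an.Asm
import Pool.Agent.MP_71da5e_an.Cross

namespace Pool.Agent.MP_71da5e_an

open MeasureTheory Metric Set Laplacian Filter Topology
open scoped ContDiff ENNReal RealInnerProductSpace

variable {n : ℕ}

lemma lim_pointwise {ν a b : E n} (hν : ‖ν‖ = 1) (k : ℕ) (x : E n) :
    ‖((kap a b k x + kap a b k (rf ν x) : ℝ) : ℂ) - obeam ν a (-b) k x * kbeam ν a b k x‖ ≤
      2 * √(kap a b k x * kap a b k (rf ν x)) := by
  have hr : 0 ≤ ‖x‖ ^ (2 * k + n - 2) := by positivity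
  have e1 : ((kap a b k x + kap a b k (rf ν x) : ℝ) : ℂ) - obeam ν a (-b) k x * kbeam ν a b k x =
      (beam a (-b) k x * beam a b k (rf ν x) + beam a (-b) k (rf ν x) * beam a b k x) /
        ((‖x‖ ^ (2 * k + n - 2) : ℝ) : ℂ) := by
    simp only [kap, norm_rf hν, Complex.ofReal_add, Complex.ofReal_div, ← beam_neg_mul, kbeam,
      obeam]
    ring
  have e2 : √(kap a b k x * kap a b k (rf ν x)) =
      ‖beam a b k x‖ * ‖beam a b k (rf ν x)‖ / ‖x‖ ^ (2 * k + n - 2) := by
    rw [Real.sqrt_eq_iff_mul_self_eq (mul_nonneg (kap_nonneg _ _ _ _) (kap_nonneg _ _ _ _))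
      (by positivity)]
    simp only [kap, norm_rf hν, ← norm_beam_sq]
    ring
  rw [e1, e2, norm_div, Complex.norm_real, Real.norm_of_nonneg hr, ← mul_div_assoc]
  refine div_le_div_of_nonneg_right ((norm_add_le _ _).trans_eq ?_) hr
  simp only [norm_mul, norm_beam_neg]
  ring

theorem beam_limit (hn : 3 ≤ n) {ν a b : E n} (hν : ‖ν‖ = 1) (h : ON a b) (ha : ⟪a, ν⟫ = 0)
    (hb : ⟪b, ν⟫ ≠ 0) (hb' : ⟪b, ν⟫ ^ 2 ≠ 1) {r A : ℝ} (hr : 0 < r) {q₁ q₂ : E n → ℂ}
    (h₁ : Dec A q₁) (h₂ : Dec A q₂) (hyp : Hyp ν {x | r < ‖x‖ ∧ ‖x‖ < r⁻¹} (ball 0 r) q₁ q₂) :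
    Tendsto (fun k => (∫ x, evn ν (fun y => q₁ y - q₂ y) x * kap a b k x) / mass a b k) atTop
      (𝓝 0) := by
  obtain ⟨C, k₀, hC⟩ := asm hn A
  have hH := (isOpen_Hs ν).measurableSet
  have hq := asm_dec_ind (h₁.sub h₂) hH
  have hA := hq.nonneg
  set q := (Hs ν).indicator fun y => q₁ y - q₂ y with hqd
  have t1 : Tendsto (fun k : ℕ => C / k + 2 * (2 * A) *
      ((∫ x, wt x * √(kap a b k x * kap a b k (rf ν x))) / mass a b k)) atTop (𝓝 0) := by
    simpa using (tendsto_const_div_atTop_nhds_zero_nat C).add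
      ((cross hn hν h ha hb hb').const_mul (2 * (2 * A)))
  refine squeeze_zero_norm' ?_ t1
  filter_upwards [eventually_ge_atTop k₀] with k hk
  have hM := mass_pos hn h k
  have i0 := integrable_wt_kap hn h k
  have i0' := integrable_rf hν i0
  have hw : ∀ x, wt (rf ν x) = wt x := fun x => by simp only [wt, norm_rf hν]
  have mk := measurable_kap a b k
  have mk' : Measurable fun x => kap a b k (rf ν x) := mk.comp (contDiff_rf ν).continuous.measurable
  have ig : ∀ κ : E n → ℝ, Measurable κ → (∀ x, 0 ≤ κ x) → Integrable (fun x => wt x * κ x) →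
      Integrable fun x => q x * κ x := fun κ hκ h0 hi => by
    refine Integrable.mono' (hi.const_mul (2 * A))
      (hq.1.mul (Complex.measurable_ofReal.comp hκ)).aestronglyMeasurable (ae_of_all _ fun x => ?_)
    rw [norm_mul, Complex.norm_real, Real.norm_of_nonneg (h0 x), ← mul_assoc]
    exact mul_le_mul_of_nonneg_right (hq.2 x) (h0 x)
  have i1 := ig _ mk (kap_nonneg a b k) i0
  have i2 := ig _ mk' (fun x => kap_nonneg a b k _) (by simpa only [hw] using i0')
  have i3 := asm_integrable hn hν h k hq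
  have e1 : ∫ x, evn ν (fun y => q₁ y - q₂ y) x * kap a b k x =
      ∫ x, q x * ((kap a b k x + kap a b k (rf ν x) : ℝ) : ℂ) := by
    have i4 := integrable_rf hν i2
    simp only [rf_rf hν] at i4
    have e2 := integral_rf hν fun x => q x * (kap a b k (rf ν x) : ℂ)
    simp only [rf_rf hν] at e2
    simp only [evn, ← hqd, add_mul, Complex.ofReal_add, mul_add]
    rw [integral_add i1 i4, integral_add i1 i2, e2]
  have e3 : ∫ x in Hs ν, (q₁ x - q₂ x) * (obeam ν a (-b) k x * kbeam ν a b k x) =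
      ∫ x, q x * (obeam ν a (-b) k x * kbeam ν a b k x) := by
    rw [← integral_indicator hH]
    congr 1
    funext x
    by_cases hx : x ∈ Hs ν <;> simp [hqd, hx]
  have h3 := hC k hk ν a b r q₁ q₂ hν h hr h₁ h₂ hyp
  rw [e3] at h3
  have i5 : Integrable fun x => wt x * √(kap a b k x * kap a b k (rf ν x)) := by
    refine Integrable.mono' (i0.add i0') (continuous_wt.measurable.mul
      (mk.mul mk').sqrt).aestronglyMeasurable (ae_of_all _ fun x => ?_)
    have h0 := kap_nonneg a b k x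
    have h0' := kap_nonneg a b k (rf ν x)
    rw [Real.norm_of_nonneg (mul_nonneg (wt_pos x).le (Real.sqrt_nonneg _)), Pi.add_apply, hw,
      ← mul_add]
    refine mul_le_mul_of_nonneg_left (Real.sqrt_le_iff.2 ⟨by positivity, ?_⟩) (wt_pos x).le
    nlinarith [mul_nonneg h0 h0']
  have i6 : Integrable fun x => q x * ((kap a b k x + kap a b k (rf ν x) : ℝ) : ℂ) := by
    simp only [Complex.ofReal_add, mul_add]
    exact i1.add i2
  have h4 : ‖(∫ x, q x * ((kap a b k x + kap a b k (rf ν x) : ℝ) : ℂ)) -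
      ∫ x, q x * (obeam ν a (-b) k x * kbeam ν a b k x)‖ ≤
      2 * (2 * A) * ∫ x, wt x * √(kap a b k x * kap a b k (rf ν x)) := by
    rw [← integral_sub i6 i3, ← integral_const_mul]
    refine norm_integral_le_of_norm_le (i5.const_mul _) (ae_of_all _ fun x => ?_)
    rw [← mul_sub, norm_mul]
    calc _ ≤ 2 * A * wt x * (2 * √(kap a b k x * kap a b k (rf ν x))) :=
          mul_le_mul (hq.2 x) (lim_pointwise hν k x) (norm_nonneg _)
            (mul_nonneg hA (wt_pos x).le)
      _ = _ := by ring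
  rw [e1, norm_div, Complex.norm_real, Real.norm_of_nonneg hM.le, div_le_iff₀ hM]
  refine (norm_le_norm_add_norm_sub' _ _).trans ((add_le_add h3 h4).trans_eq ?_)
  field_simp

end Pool.Agent.MP_71da5e_an
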