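import Pool.Agent.MP_71da5e_an.Ball3
import Pool.Agent.MP_71da5e_an.Half

namespace Pool.Agent.MP_71da5e_an

open MeasureTheory Metric Set Laplacian Filter Topology
open scoped ContDiff ENNReal RealInnerProductSpace

variable {n : ℕ}

lemma main_rep {q : E n → ℂ} (h : MemLp q ⊤ (volume.restrict (ball 0 1))) :
    ∃ (A : ℝ) (q' : E n → ℂ), Measurable q' ∧ (∀ x, ‖q' x‖ ≤ A) ∧
      q =ᵐ[volume.restrict (ball 0 1)] q' := by
  obtain ⟨A, hA⟩ := eLpNormEssSup_lt_top_iff_isBoundedUnder.1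
    (show eLpNormEssSup q (volume.restrict (ball 0 1)) < ⊤ by simpa using h.2)
  have hA' : ∀ᵐ x ∂volume.restrict (ball (0 : E n) 1), ‖q x‖ ≤ (A : ℝ) :=
    (eventually_map.1 hA).mono fun x hx => by exact_mod_cast hx
  have hm := h.1.measurable_mk
  refine ⟨A, {x | ‖h.1.mk q x‖ ≤ A}.indicator (h.1.mk q),
    hm.indicator (measurableSet_le hm.norm measurable_const), fun x => ?_, ?_⟩
  · by_cases hx : x ∈ {x | ‖h.1.mk q x‖ ≤ A}
    · rw [indicator_of_mem hx]; exact hx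
    · rw [indicator_of_notMem hx, norm_zero]; exact A.2
  · filter_upwards [hA', h.1.ae_eq_mk] with x h1 h2
    rw [indicator_of_mem (show x ∈ {x | ‖h.1.mk q x‖ ≤ A} from show ‖h.1.mk q x‖ ≤ A from h2 ▸ h1),
      h2]

lemma main_green {q q' : E n → ℂ} (h : q =ᵐ[volume.restrict (ball 0 1)] q') :
    green q = green q' := by
  funext u φ
  exact integral_congr_ae (h.mono fun x hx => by simp only [hx])

lemma main_cauchy (Γ : Set (E n)) {q q' : E n → ℂ} (h : q =ᵐ[volume.restrict (ball 0 1)] q') :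
    cauchy Γ q ⊆ cauchy Γ q' := by
  have e := main_green h
  rintro _ ⟨u, hu, rfl⟩
  refine ⟨u, ⟨hu.memL2, e ▸ hu.solves, ?_⟩, ?_⟩
  · simpa only [dirichlet, e] using hu.supp
  · simp only [dirichlet, neumann, e]

theorem main (hn : 3 ≤ n) {Γ : Set (E n)} (hΓ : ∃ U, IsOpen U ∧ Γ = U ∩ sphere 0 1)
    (hne : Γ.Nonempty) {q₁ q₂ : E n → ℂ} (h₁ : MemLp q₁ ⊤ (volume.restrict (ball 0 1)))
    (h₂ : MemLp q₂ ⊤ (volume.restrict (ball 0 1))) (h : cauchy Γ q₁ ⊆ cauchy Γ q₂) :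
    q₁ =ᵐ[volume.restrict (ball 0 1)] q₂ := by
  obtain ⟨A₁, r₁, m₁, b₁, e₁⟩ := main_rep h₁
  obtain ⟨A₂, r₂, m₂, b₂, e₂⟩ := main_rep h₂
  have c₁ : ∀ x, ‖r₁ x‖ ≤ max A₁ A₂ := fun x => (b₁ x).trans (le_max_left _ _)
  have c₂ : ∀ x, ‖r₂ x‖ ≤ max A₁ A₂ := fun x => (b₂ x).trans (le_max_right _ _)
  obtain ⟨p, hp⟩ := hne
  have hp1 : ‖p‖ = 1 := by
    obtain ⟨U, -, rfl⟩ := hΓ
    simpa using hp.2
  obtain ⟨R, hyp⟩ := hyp_of_cauchy hn hΓ hp m₁ m₂ c₁ c₂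
    ((main_cauchy Γ e₁.symm).trans (h.trans (main_cauchy Γ e₂)))
  have h2 : (0 : ℝ) < √2 := by positivity
  have key := ae_inv p h2 hn
    (half hn (by rw [norm_neg, hp1]) (dec_kq hp1 m₁ c₁) (dec_kq hp1 m₂ c₂) hyp)
  refine e₁.trans (EventuallyEq.trans ?_ e₂.symm)
  rw [EventuallyEq, ae_restrict_iff' measurableSet_ball]
  filter_upwards [key] with x hx hxb
  have hx1 : ‖x‖ < 1 := mem_ball_zero_iff.1 hxb
  have hxp : x ≠ p := by rintro rfl; exact hx1.ne hp1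
  have hy := inv_ne h2 hxp
  have hj := jac_pos h2 hy
  have hH : inv p √2 x ∈ Hs (-p) := by
    have h3 := one_sub_norm_inv hp1 hy
    rw [inv_inv' p h2] at h3
    have h4 : 0 < 1 - ‖x‖ ^ 2 := by nlinarith [norm_nonneg x]
    rw [h3] at h4
    exact (mul_pos_iff_of_pos_left (by positivity)).1 h4
  have h5 := hx hH
  rw [indicator_of_mem hH, indicator_of_mem hH, kq, kq, inv_inv' p h2] at h5
  exact mul_left_cancel₀ (by exact_mod_cast (pow_pos hj 2).ne') h5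

end Pool.Agent.MP_71da5e_an
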