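import Pool.Agent.MP_71da5e_an.BeamA

namespace Pool.Agent.MP_71da5e_an

open MeasureTheory Metric Set Laplacian Filter Topology
open scoped ContDiff ENNReal RealInnerProductSpace

variable {n : ℕ}

section Abstract

variable {W : Type*} [NormedAddCommGroup W] [MeasurableSpace W] [BorelSpace W]

lemma peak_abs (μ : Measure W) [IsFiniteMeasure μ] (hμ : ∀ δ, 0 < δ → 0 < μ.real (ball 0 δ))
    {Φ : W → ℂ} (hΦ : Integrable Φ μ) (hc : ContinuousAt Φ 0) :
    (∀ k : ℕ, 0 < ∫ z, (1 + ‖z‖ ^ 2)⁻¹ ^ k ∂μ) ∧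
    Tendsto (fun k : ℕ => ∫ z, ((1 + ‖z‖ ^ 2)⁻¹ ^ k / ∫ z, (1 + ‖z‖ ^ 2)⁻¹ ^ k ∂μ) • Φ z ∂μ) atTop
      (𝓝 (Φ 0)) := by
  have hm : ∀ k : ℕ, Continuous fun z : W => (1 + ‖z‖ ^ 2)⁻¹ ^ k := fun k =>
    (Continuous.inv₀ (by fun_prop) fun z => by positivity).pow k
  have hi : ∀ k : ℕ, Integrable (fun z : W => (1 + ‖z‖ ^ 2)⁻¹ ^ k) μ := fun k =>
    Integrable.of_bound (hm k).measurable.aestronglyMeasurable 1 (Eventually.of_forall fun z => by
      rw [Real.norm_of_nonneg (by positivity)]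
      exact pow_le_one₀ (by positivity) (inv_le_one_of_one_le₀ (by nlinarith [sq_nonneg ‖z‖])))
  have hl : ∀ (k : ℕ) (δ : ℝ), 0 < δ →
      μ.real (ball 0 δ) * (1 + δ ^ 2)⁻¹ ^ k ≤ ∫ z, (1 + ‖z‖ ^ 2)⁻¹ ^ k ∂μ := by
    intro k δ hδ
    refine le_trans ?_ (setIntegral_le_integral (s := ball 0 δ) (hi k)
      (Eventually.of_forall fun z => by positivity))
    rw [← smul_eq_mul, ← setIntegral_const]
    refine setIntegral_mono_on (integrable_const _).integrableOn (hi k).integrableOn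
      measurableSet_ball fun z hz => ?_
    have h1 := mem_ball_zero_iff.1 hz
    gcongr
  have hp : ∀ k : ℕ, 0 < ∫ z, (1 + ‖z‖ ^ 2)⁻¹ ^ k ∂μ := fun k =>
    lt_of_lt_of_le (mul_pos (hμ 1 one_pos) (by positivity)) (hl k 1 one_pos)
  refine ⟨hp, tendsto_integral_peak_smul_of_integrable_of_tendsto MeasurableSet.univ univ_mem
    (measure_ne_top _ _) (Eventually.of_forall fun k z => div_nonneg (by positivity) (hp k).le)
    (fun u hu h0 => ?_) ?_
    (Eventually.of_forall fun k => ((hm k).div_const _).measurable.aestronglyMeasurable) hΦ hc⟩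
  · obtain ⟨δ, hδ, hδu⟩ := Metric.isOpen_iff.1 hu 0 h0
    have h1 := hμ (δ / 2) (half_pos hδ)
    have h2 : Tendsto (fun k : ℕ => ((1 + (δ / 2) ^ 2) / (1 + δ ^ 2)) ^ k /
        μ.real (ball 0 (δ / 2))) atTop (𝓝 (0 / μ.real (ball 0 (δ / 2)))) :=
      (tendsto_pow_atTop_nhds_zero_of_lt_one (by positivity)
        ((div_lt_one (by positivity)).2 (by nlinarith))).div_const _
    rw [zero_div] at h2
    refine Metric.tendstoUniformlyOn_iff.2 fun ε hε => ?_
    filter_upwards [h2.eventually (gt_mem_nhds hε)] with k hk z hz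
    have h3 : δ ≤ ‖z‖ := not_lt.1 fun h => hz (hδu (mem_ball_zero_iff.2 h))
    rw [Pi.zero_apply, dist_zero_left,
      Real.norm_of_nonneg (div_nonneg (by positivity) (hp k).le)]
    refine lt_of_le_of_lt ?_ hk
    calc _ ≤ (1 + δ ^ 2)⁻¹ ^ k / (μ.real (ball 0 (δ / 2)) * (1 + (δ / 2) ^ 2)⁻¹ ^ k) := by
          gcongr
          exact hl k _ (half_pos hδ)
      _ = _ := by
          have h4 : 0 < (1 + (δ / 2) ^ 2) ^ k := by positivity
          have h5 : 0 < (1 + δ ^ 2) ^ k := by positivity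
          rw [div_pow (1 + (δ / 2) ^ 2), inv_pow, inv_pow]
          generalize (1 + (δ / 2) ^ 2) ^ k = s at *
          generalize (1 + δ ^ 2) ^ k = t at *
          field_simp
  · simp only [Measure.restrict_univ, integral_div, div_self (hp _).ne', tendsto_const_nhds]

end Abstract

/-- The orthogonal complement of the plane. -/
noncomputable def peakW (a b : E n) : Submodule ℝ (E n) :=
  LinearMap.ker ((innerSL ℝ a).prod (innerSL ℝ b) : E n →ₗ[ℝ] ℝ × ℝ)

lemma peak_mem {a b z : E n} : z ∈ peakW a b ↔ ⟪a, z⟫ = 0 ∧ ⟪b, z⟫ = 0 := by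
  simp [peakW]

lemma peak_inner {a b : E n} (h : ON a b) (p : ℝ × ℝ) (z : peakW a b) :
    ⟪p.1 • a + p.2 • b + z, a⟫ = p.1 ∧ ⟪p.1 • a + p.2 • b + z, b⟫ = p.2 ∧
      ‖p.1 • a + p.2 • b + z‖ ^ 2 = p.1 ^ 2 + p.2 ^ 2 + ‖z‖ ^ 2 := by
  obtain ⟨h1, h2, h3⟩ := h
  obtain ⟨h4, h5⟩ := peak_mem.1 z.2
  have h6 : ⟪b, a⟫ = 0 := by rwa [real_inner_comm]
  have h7 : ⟪(z : E n), a⟫ = 0 := by rwa [real_inner_comm]
  have h8 : ⟪(z : E n), b⟫ = 0 := by rwa [real_inner_comm]
  refine ⟨?_, ?_, ?_⟩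
  · simp [inner_add_left, inner_smul_left, h1, h6, h7]
  · simp [inner_add_left, inner_smul_left, h2, h3, h8]
  · rw [← real_inner_self_eq_norm_sq]
    simp only [inner_add_left, inner_add_right, real_inner_smul_left, real_inner_smul_right,
      real_inner_self_eq_norm_sq, h1, h2, h3, h4, h5, h6, h7, h8, Submodule.coe_norm, norm_smul,
      Real.norm_eq_abs, mul_one, sq_abs]
    ring

lemma peak_equiv {a b : E n} (h : ON a b) : ∃ L : ((ℝ × ℝ) × peakW a b) ≃L[ℝ] E n,
    ∀ q, L q = q.1.1 • a + q.1.2 • b + q.2 := by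
  let T : ((ℝ × ℝ) × peakW a b) →ₗ[ℝ] E n :=
    ((LinearMap.toSpanSingleton ℝ _ a).coprod (LinearMap.toSpanSingleton ℝ _ b)).coprod
      (peakW a b).subtype
  have hT : ∀ q, T q = q.1.1 • a + q.1.2 • b + q.2 := fun q => rfl
  have h1 : Function.Injective T := by
    refine (injective_iff_map_eq_zero T).2 fun q hq => ?_
    obtain ⟨h2, h3, h4⟩ := peak_inner h q.1 q.2
    rw [← hT, hq] at h2 h3 h4
    rw [inner_zero_left] at h2 h3
    rw [← h2, ← h3] at h4
    exact Prod.ext (Prod.ext h2.symm h3.symm) (by simpa using h4.symm)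
  have h2 : Function.Surjective T := by
    intro x
    obtain ⟨h1, h2, h3⟩ := h
    have h6 : ⟪b, a⟫ = 0 := by rwa [real_inner_comm]
    refine ⟨((⟪a, x⟫, ⟪b, x⟫), ⟨x - ⟪a, x⟫ • a - ⟪b, x⟫ • b, peak_mem.2 ⟨?_, ?_⟩⟩), ?_⟩
    · simp [inner_sub_right, inner_smul_right, h1, h3]
    · simp [inner_sub_right, inner_smul_right, h2, h6]
    · rw [hT]
      simp only
      abel
  exact ⟨(LinearEquiv.ofBijective T ⟨h1, h2⟩).toContinuousLinearEquiv, hT⟩

lemma peak_rank {a b : E n} (h : ON a b) : Module.finrank ℝ (peakW a b) + 2 = n := by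
  obtain ⟨L, -⟩ := peak_equiv h
  have := L.toLinearEquiv.finrank_eq
  simp only [Module.finrank_prod, Module.finrank_self, finrank_euclideanSpace,
    Fintype.card_fin] at this
  omega

lemma peak_coord {a b : E n} (h : ON a b) : ∃ c : ℝ, 0 < c ∧ ∀ F : E n → ℂ, Integrable F →
    ∫ p : ℝ × ℝ, ∫ z : peakW a b, F (p.1 • a + p.2 • b + z) = c * ∫ x, F x := by
  obtain ⟨L, hL⟩ := peak_equiv h
  have : ((volume : Measure (ℝ × ℝ)).prod (volume : Measure (peakW a b))).IsAddHaarMeasure :=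
    Measure.prod.instIsAddHaarMeasure _ _
  have := L.isAddHaarMeasure_map ((volume : Measure (ℝ × ℝ)).prod (volume : Measure (peakW a b)))
  have h1 := Measure.isAddLeftInvariant_eq_smul
    (((volume : Measure (ℝ × ℝ)).prod (volume : Measure (peakW a b))).map L) volume
  refine ⟨_, NNReal.coe_pos.2 (Measure.addHaarScalarFactor_pos_of_isAddHaarMeasure
    (((volume : Measure (ℝ × ℝ)).prod (volume : Measure (peakW a b))).map L) volume),
    fun F hF => ?_⟩
  have h2 := L.toHomeomorph.measurableEmbedding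
  have h3 : Integrable (F ∘ L) ((volume : Measure (ℝ × ℝ)).prod volume) := by
    refine h2.integrable_map_iff.1 ?_
    change Integrable F (Measure.map L _)
    rw [h1]
    exact hF.smul_measure_nnreal
  have h4 := h2.integral_map (μ := (volume : Measure (ℝ × ℝ)).prod volume) F
  change ∫ y, F y ∂(Measure.map L _) = ∫ x, F (L x) ∂_ at h4
  rw [h1, integral_smul_nnreal_measure] at h4
  rw [← Complex.real_smul, ← NNReal.smul_def, h4]
  simpa only [Function.comp, hL] using (integral_prod _ h3).symm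

/-- The weight on the orthogonal complement. -/
noncomputable def peakG (a b : E n) (z : peakW a b) : ℝ := (√(1 + ‖z‖ ^ 2) ^ n)⁻¹

/-- The integral over a cone. -/
noncomputable def peakP (a b : E n) (f : E n → ℂ) (z : peakW a b) : ℂ :=
  ∫ p : ℝ × ℝ, f (p.1 • a + p.2 • b + (√(p.1 ^ 2 + p.2 ^ 2) • z : peakW a b))

lemma peak_G_pos (a b : E n) (z : peakW a b) : 0 < peakG a b z := by unfold peakG; positivity

lemma peak_G_meas (a b : E n) : Measurable (peakG a b) := by unfold peakG; fun_prop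

lemma peak_G_int {a b : E n} (h : ON a b) : Integrable (peakG a b) := by
  have h1 : (Module.finrank ℝ (peakW a b) : ℝ) < n := by
    have := peak_rank h
    exact_mod_cast (by omega)
  refine (integrable_rpow_neg_one_add_norm_sq h1).congr (Eventually.of_forall fun z => ?_)
  simp only [peakG]
  rw [Real.sqrt_eq_rpow, ← Real.rpow_mul_natCast (by positivity), ← Real.rpow_neg (by positivity)]
  congr 1
  ring

lemma peak_int2 : Integrable fun p : ℝ × ℝ => ((1 + (p.1 ^ 2 + p.2 ^ 2)) ^ 2)⁻¹ := by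
  refine (integrable_inv_one_add_sq.mul_prod integrable_inv_one_add_sq).mono'
    (Measurable.aestronglyMeasurable (by fun_prop)) (Eventually.of_forall fun p => ?_)
  rw [Real.norm_of_nonneg (by positivity), ← mul_inv, sq (1 + _)]
  gcongr <;> nlinarith [sq_nonneg p.1, sq_nonneg p.2]

lemma peak_bd {a b : E n} (h : ON a b) {A : ℝ} {f : E n → ℂ} (hf : Dec A f) (p : ℝ × ℝ)
    (z : peakW a b) : ‖f (p.1 • a + p.2 • b + z)‖ ≤ A * ((1 + (p.1 ^ 2 + p.2 ^ 2)) ^ 2)⁻¹ := by
  refine (hf.2 _).trans (mul_le_mul_of_nonneg_left ?_ hf.nonneg)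
  rw [wt, (peak_inner h p z).2.2]
  gcongr ((1 + ?_) ^ 2)⁻¹
  nlinarith [sq_nonneg ‖z‖]

lemma peak_meas (a b : E n) {f : E n → ℂ} (hf : Measurable f) :
    Measurable fun q : (ℝ × ℝ) × peakW a b =>
      f (q.1.1 • a + q.1.2 • b + (√(q.1.1 ^ 2 + q.1.2 ^ 2) • q.2 : peakW a b)) :=
  hf.comp (Continuous.measurable (by fun_prop))

lemma peak_kap {a b : E n} (h : ON a b) (k : ℕ) {p : ℝ × ℝ} (hp : p ≠ 0) (z : peakW a b) :
    √(p.1 ^ 2 + p.2 ^ 2) ^ Module.finrank ℝ (peakW a b) *
      kap a b (k + 1) (p.1 • a + p.2 • b + (√(p.1 ^ 2 + p.2 ^ 2) • z : peakW a b)) =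
      peakG a b z * (1 + ‖z‖ ^ 2)⁻¹ ^ k := by
  have h0 : 0 < p.1 ^ 2 + p.2 ^ 2 := by
    by_contra h1
    exact hp (Prod.ext (by simp only [Prod.fst_zero]; nlinarith [sq_nonneg p.1, sq_nonneg p.2])
      (by simp only [Prod.snd_zero]; nlinarith [sq_nonneg p.1, sq_nonneg p.2]))
  obtain ⟨h1, h2, h3⟩ := peak_inner h p (√(p.1 ^ 2 + p.2 ^ 2) • z)
  have h4 := Real.sq_sqrt h0.le
  have h5 := Real.sqrt_pos.2 h0
  have h6 := Real.sq_sqrt (show 0 ≤ 1 + ‖z‖ ^ 2 by positivity)
  have h7 := Real.sqrt_pos.2 (show 0 < 1 + ‖z‖ ^ 2 by positivity)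
  rw [kap, peakG, h1, h2]
  generalize √(p.1 ^ 2 + p.2 ^ 2) = r at *
  generalize √(1 + ‖z‖ ^ 2) = s at *
  have h8 : ‖p.1 • a + p.2 • b + (r • z : peakW a b)‖ = r * s := by
    refine (sq_eq_sq₀ (norm_nonneg _) (by positivity)).1 ?_
    rw [h3, norm_smul, mul_pow, mul_pow, Real.norm_eq_abs, sq_abs, h6, ← h4]
    ring
  have h9 := peak_rank h
  generalize Module.finrank ℝ (peakW a b) = m at *
  rw [h8, ← h4, ← h6, show 2 * (k + 1) + n - 2 = 2 * k + n by omega]
  clear h1 h2 h3 h8 h6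
  rw [← h9, inv_pow]
  field_simp
  ring

lemma peak_eq (hn : 3 ≤ n) {a b : E n} (h : ON a b) {A : ℝ} {f : E n → ℂ} (hf : Dec A f) (k : ℕ) :
    Integrable (fun x => f x * kap a b (k + 1) x) ∧
    ∫ p : ℝ × ℝ, ∫ z : peakW a b, f (p.1 • a + p.2 • b + z) *
        kap a b (k + 1) (p.1 • a + p.2 • b + z) =
      ∫ z, (1 + ‖z‖ ^ 2)⁻¹ ^ k • peakP a b f z
        ∂volume.withDensity fun z => ENNReal.ofReal (peakG a b z) := by
  constructor
  · refine ((integrable_wt_kap hn h (k + 1)).const_mul A).mono'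
      (hf.1.mul (Complex.measurable_ofReal.comp (measurable_kap a b _))).aestronglyMeasurable
      (Eventually.of_forall fun x => ?_)
    rw [norm_mul, Complex.norm_real, Real.norm_of_nonneg (kap_nonneg _ _ _ _), ← mul_assoc]
    exact mul_le_mul_of_nonneg_right (hf.2 x) (kap_nonneg _ _ _ _)
  rw [integral_withDensity_eq_integral_toReal_smul (peak_G_meas a b).ennreal_ofReal
    (Eventually.of_forall fun _ => ENNReal.ofReal_lt_top)]
  simp only [ENNReal.toReal_ofReal (peak_G_pos a b _).le, smul_smul, peakP, ← integral_smul]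
  refine Eq.trans ?_ (integral_integral_swap ?_)
  · refine integral_congr_ae ?_
    filter_upwards [Measure.ae_ne volume (0 : ℝ × ℝ)] with p hp
    have h1 : 0 < √(p.1 ^ 2 + p.2 ^ 2) := by
      refine lt_of_le_of_ne (Real.sqrt_nonneg _) fun h2 => ?_
      have h3 := peak_kap h 0 hp 0
      rw [← h2, zero_pow (by have := peak_rank h; omega), zero_mul, pow_zero, mul_one] at h3
      exact (peak_G_pos a b 0).ne h3
    have h2 := Measure.integral_comp_smul_of_nonneg volume (fun z : peakW a b =>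
      f (p.1 • a + p.2 • b + z) * kap a b (k + 1) (p.1 • a + p.2 • b + z)) _ (hR := h1.le)
    rw [eq_inv_smul_iff₀ (by positivity), ← integral_smul] at h2
    rw [← h2]
    refine integral_congr_ae (Eventually.of_forall fun z => ?_)
    simp only [← peak_kap h k hp z, Complex.real_smul, Complex.ofReal_mul]
    ring
  · refine ((peak_int2.const_mul A).mul_prod (peak_G_int h)).mono'
      (Measurable.aestronglyMeasurable ?_) (Eventually.of_forall fun q => ?_)
    · exact (((peak_G_meas a b).comp measurable_snd).mul (by fun_prop)).smul (peak_meas a b hf.1)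
    · have h1 := peak_G_pos a b q.2
      simp only [Function.uncurry]
      rw [norm_smul, Real.norm_of_nonneg (by positivity), mul_comm]
      refine mul_le_mul (peak_bd h hf _ _) (mul_le_of_le_one_right h1.le (pow_le_one₀
        (by positivity) (inv_le_one_of_one_le₀ (by nlinarith [sq_nonneg ‖q.2‖])))) (by positivity)
        (mul_nonneg hf.nonneg (by positivity))

lemma peak_lim (hn : 3 ≤ n) {a b : E n} (h : ON a b) : ∃ c : ℕ → ℝ, (∀ k, 0 < c k) ∧
    ∀ (A : ℝ) (f : E n → ℂ), Dec A f → (∀ᵐ p : ℝ × ℝ, ContinuousAt f (p.1 • a + p.2 • b)) →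
    Tendsto (fun k => (∫ x, f x * kap a b (k + 1) x) / c k) atTop
      (𝓝 (∫ p : ℝ × ℝ, f (p.1 • a + p.2 • b))) := by
  obtain ⟨c, hc, h1⟩ := peak_coord h
  have := isFiniteMeasure_withDensity_ofReal (peak_G_int h).2
  set μ := (volume : Measure (peakW a b)).withDensity fun z => ENNReal.ofReal (peakG a b z)
  have hμ : ∀ δ, 0 < δ → 0 < μ.real (ball 0 δ) := fun δ hδ =>
    ENNReal.toReal_pos (fun h2 => (measure_ball_pos volume _ hδ).ne'
      (withDensity_absolutelyContinuous' (peak_G_meas a b).ennreal_ofReal.aemeasurable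
        (Eventually.of_forall fun z => (ENNReal.ofReal_pos.2 (peak_G_pos a b z)).ne') h2))
      (measure_ne_top _ _)
  have hp := (peak_abs μ hμ (integrable_zero _ _ _) continuousAt_const).1
  refine ⟨fun k => (∫ z, (1 + ‖z‖ ^ 2)⁻¹ ^ k ∂μ) / c, fun k => div_pos (hp k) hc,
    fun A f hf hcf => ?_⟩
  have h2 : Integrable (peakP a b f) μ :=
    Integrable.of_bound
      (peak_meas a b hf.1).stronglyMeasurable.integral_prod_left'.aestronglyMeasurable _
      (Eventually.of_forall fun z => norm_integral_le_of_norm_le (peak_int2.const_mul A)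
        (Eventually.of_forall fun p => peak_bd h hf p _))
  have h3 : ContinuousAt (peakP a b f) 0 := by
    refine continuousAt_of_dominated (Eventually.of_forall fun z =>
      ((peak_meas a b hf.1).comp measurable_prodMk_right).aestronglyMeasurable)
      (Eventually.of_forall fun z => Eventually.of_forall fun p => peak_bd h hf p _)
      (peak_int2.const_mul A) (hcf.mono fun p hp => ?_)
    exact ContinuousAt.comp (g := f) (by simpa using hp) (Continuous.continuousAt (by fun_prop))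
  have h4 := (peak_abs μ hμ h2 h3).2
  have h5 : peakP a b f 0 = ∫ p : ℝ × ℝ, f (p.1 • a + p.2 • b) := by simp [peakP]
  rw [h5] at h4
  refine h4.congr fun k => ?_
  obtain ⟨h6, h7⟩ := peak_eq hn h hf k
  have h8 : (c : ℂ) ≠ 0 := Complex.ofReal_ne_zero.2 hc.ne'
  simp only [div_eq_inv_mul, mul_smul, integral_smul]
  rw [← h7, h1 _ h6, Complex.real_smul]
  push_cast
  rw [mul_inv, inv_inv]
  ring

theorem peak (hn : 3 ≤ n) {a b : E n} (h : ON a b) : ∃ m : ℝ, 0 < m ∧ ∀ (A : ℝ) (f : E n → ℂ),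
    Dec A f → (∀ᵐ p : ℝ × ℝ, ContinuousAt f (p.1 • a + p.2 • b)) →
    Tendsto (fun k => (∫ x, f x * kap a b k x) / mass a b k) atTop
      (𝓝 ((∫ p : ℝ × ℝ, f (p.1 • a + p.2 • b)) / m)) := by
  obtain ⟨c, hc, h1⟩ := peak_lim hn h
  have hw : Continuous fun x : E n => (wt x : ℂ) := Complex.continuous_ofReal.comp continuous_wt
  have h2 := h1 1 (fun x => wt x) ⟨hw.measurable, fun x => by
    rw [Complex.norm_real, Real.norm_of_nonneg (wt_pos x).le, one_mul]⟩
    (Eventually.of_forall fun _ => hw.continuousAt)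
  have h3 : 0 < ∫ p : ℝ × ℝ, wt (p.1 • a + p.2 • b) := by
    refine (integral_pos_iff_support_of_nonneg (fun p => (wt_pos _).le)
      (peak_int2.congr (Eventually.of_forall fun p => ?_))).2 ?_
    · have h4 := (peak_inner h p 0).2.2
      simp only [ZeroMemClass.coe_zero, add_zero, norm_zero, ne_eq, OfNat.ofNat_ne_zero,
        not_false_eq_true, zero_pow] at h4
      simp only [wt, h4]
    · rw [Function.support_eq_univ fun p => (wt_pos _).ne']
      exact isOpen_univ.measure_pos _ univ_nonempty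
  refine ⟨_, h3, fun A f hf hcf => (tendsto_add_atTop_iff_nat 1).1 ?_⟩
  rw [integral_complex_ofReal] at h2
  refine ((h1 A f hf hcf).div h2 (Complex.ofReal_ne_zero.2 h3.ne')).congr fun k => ?_
  rw [Pi.div_apply, div_div_div_cancel_right₀ (Complex.ofReal_ne_zero.2 (hc k).ne'), mass,
    ← integral_complex_ofReal]
  simp only [Complex.ofReal_mul]

end Pool.Agent.MP_71da5e_an
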