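import Pool.Agent.MP_71da5e_an.TestL
import Pool.Agent.MP_71da5e_an.Bnd
import Pool.Agent.MP_71da5e_an.Dual
import Pool.Agent.MP_71da5e_an.GreenH

namespace Pool.Agent.MP_71da5e_an

open MeasureTheory Metric Set Laplacian Filter Topology
open scoped ContDiff ENNReal RealInnerProductSpace

variable {n : ℕ}

/-- The test functions used in the duality argument. -/
def solV (ν : E n) (D : Set (E n)) : Submodule ℂ (E n → ℂ) where
  carrier := {φ | Tst φ ∧ (∀ x ∈ Pl ν, φ x = 0) ∧ tsupport φ ∩ Pl ν ⊆ D}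
  zero_mem' := ⟨⟨contDiff_const, HasCompactSupport.zero⟩, fun _ _ => rfl, by simp⟩
  add_mem' := by
    rintro φ ψ ⟨h1, h2, h3⟩ ⟨g1, g2, g3⟩
    refine ⟨⟨h1.1.add g1.1, h1.2.add g1.2⟩, fun x hx => by simp [h2 x hx, g2 x hx], ?_⟩
    rintro x ⟨hx, hx'⟩
    rcases tsupport_add φ ψ hx with h | h
    · exact h3 ⟨h, hx'⟩
    · exact g3 ⟨h, hx'⟩
  smul_mem' := by
    rintro c φ ⟨h1, h2, h3⟩
    refine ⟨⟨h1.1.const_smul c, h1.2.smul_left (f := fun _ => c)⟩,
      fun x hx => by simp [h2 x hx], ?_⟩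
    rintro x ⟨hx, hx'⟩
    exact h3 ⟨tsupport_smul_subset_right (fun _ => c) φ hx, hx'⟩

theorem sol_c2 {φ : E n → ℂ} (h : Tst φ) (x : E n) : ContDiffAt ℝ 2 φ x :=
  (h.1.of_le (ENat.LEInfty.out (m := 2))).contDiffAt

/-- The operator applied to a test function, cut off to the half space. -/
noncomputable def solG (ν : E n) (D : Set (E n)) (q : E n → ℂ) : solV ν D →ₗ[ℂ] (E n → ℂ) where
  toFun φ := (Hs ν).indicator fun x => Δ φ.1 x - q x * φ.1 x
  map_add' φ ψ := by
    ext x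
    by_cases hx : x ∈ Hs ν
    · simp only [indicator_of_mem hx, Submodule.coe_add, Pi.add_apply,
        (sol_c2 φ.2.1 x).laplacian_add (sol_c2 ψ.2.1 x)]
      ring
    · simp [indicator_of_notMem hx]
  map_smul' c φ := by
    ext x
    by_cases hx : x ∈ Hs ν
    · simp only [indicator_of_mem hx, Submodule.coe_smul, Pi.smul_apply,
        InnerProductSpace.laplacian_smul c (sol_c2 φ.2.1 x), smul_eq_mul, RingHom.id_apply]
      ring
    · simp [indicator_of_notMem hx]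

theorem solG_apply (ν : E n) (D : Set (E n)) (q : E n → ℂ) (φ : solV ν D) :
    solG ν D q φ = (Hs ν).indicator fun x => Δ φ.1 x - q x * φ.1 x := rfl

theorem solG_meas (ν : E n) (D : Set (E n)) {q : E n → ℂ} (hq : Measurable q) (φ : solV ν D) :
    Measurable (solG ν D q φ) :=
  (φ.2.1.lap.1.continuous.measurable.sub (hq.mul φ.2.1.1.continuous.measurable)).indicator
    (isOpen_Hs ν).measurableSet

theorem solG_fin (ν : E n) (D : Set (E n)) {A : ℝ} {q : E n → ℂ} (hq : Dec A q) (φ : solV ν D)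
    {a : E n → ℝ} {c : ℝ} (hc : 0 ≤ c) (ha : ∀ x, a x ≤ c) : Q a (solG ν D q φ) ≠ ⊤ := by
  obtain ⟨M₁, hM₁⟩ := φ.2.1.2.exists_bound_of_continuous φ.2.1.1.continuous
  obtain ⟨M₂, hM₂⟩ := φ.2.1.lap.2.exists_bound_of_continuous φ.2.1.lap.1.continuous
  obtain ⟨R, hR⟩ := φ.2.1.2.isCompact.isBounded.subset_closedBall 0
  have hA := hq.nonneg
  refine Q_ne_top_of_bdd (c := c * (M₂ + A * M₁) ^ 2) (R := R) (fun x => ?_) fun x hx => ?_
  · have h1 : ‖solG ν D q φ x‖ ≤ M₂ + A * M₁ := by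
      refine (norm_indicator_le_norm_self (fun x => Δ φ.1 x - q x * φ.1 x) x).trans
        ((norm_sub_le (Δ φ.1 x) _).trans ?_)
      rw [norm_mul]
      have h2 : ‖q x‖ ≤ A := (hq.2 x).trans (mul_le_of_le_one_right hA (wt_le_one x))
      gcongr
      · exact hM₂ x
      · exact hM₁ x
    calc a x * ‖solG ν D q φ x‖ ^ 2 ≤ c * ‖solG ν D q φ x‖ ^ 2 := by gcongr; exact ha x
      _ ≤ _ := by gcongr
  · have h1 : x ∉ tsupport φ.1 := fun h => by
      have := hR h
      rw [mem_closedBall_zero_iff] at this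
      linarith
    rw [solG_apply, indicator_apply_eq_zero]
    intro _
    rw [lap_eq_zero h1, image_eq_zero_of_notMem_tsupport h1]
    simp

theorem sol_HP {ν : E n} (hν : ‖ν‖ = 1) {D G : Set (E n)} (hD : Disjoint D G) (q : E n → ℂ)
    (φ : solV ν D) : HP ν G ((Hs ν).indicator φ.1)
      fun x => solG ν D q φ x + q x * (Hs ν).indicator φ.1 x := by
  have e : (fun x => solG ν D q φ x + q x * (Hs ν).indicator φ.1 x) =
      (Hs ν).indicator (Δ φ.1) := by
    ext x
    by_cases hx : x ∈ Hs ν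
    · simp [solG_apply, indicator_of_mem hx]
    · simp [solG_apply, indicator_of_notMem hx]
  rw [e]
  exact HP_of_test hν φ.2.1 φ.2.2.1 (hD.mono_left φ.2.2.2)

theorem sol (hn : 3 ≤ n) {ν a b : E n} (hν : ‖ν‖ = 1) (h : ON a b) {k : ℕ} (hk : 4 ≤ k)
    {ρ C Λ r A : ℝ} (hρ : 0 < ρ) (hC : 0 < C) (hΛ : 0 < Λ) (hr : 30 * ρ ≤ r) {q : E n → ℂ}
    (hq : Dec A q) (hest : ∀ w G : E n → ℂ, Measurable G →
      HP ν (ball 0 (30 * ρ)) w (fun x => G x + q x * w x) → Q (aW k ρ) w ≤ Q (bW k ρ C Λ) G) :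
    ∃ U : E n → ℂ, Measurable U ∧
      Q (fun x => (bW k ρ C Λ x)⁻¹) U ≤
        Q (fun x => (aW k ρ x)⁻¹) (fun x => Δ (cb ν a b k ρ) x - q x * cb ν a b k ρ x) ∧
      Adm ν {x | r < ‖x‖} q ((Hs ν).indicator fun x => cb ν a b k ρ x - U x) := by
  set f : E n → ℂ := fun x => Δ (cb ν a b k ρ) x - q x * cb ν a b k ρ x with hf
  set D : Set (E n) := {x | r < ‖x‖} with hD
  have hcb := contDiff_cb ν a b k hρ
  have hfm : Measurable f :=
    (contDiff_lap hcb).continuous.measurable.sub (hq.1.mul hcb.continuous.measurable)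
  have hff : Q (fun x => (aW k ρ x)⁻¹) f ≠ ⊤ := by
    obtain ⟨c, -, hc⟩ := fb hn hν h (k := k) (by omega)
    exact ne_top_of_le_ne_top ENNReal.ofReal_ne_top (hc A ρ q hρ hq)
  obtain ⟨c, hc⟩ := bW_le hn hk hρ hC.le hΛ.le
  have hb0 := bW_pos (n := n) k hρ hC hΛ
  have hc0 : 0 ≤ c := (hb0 0).le.trans (hc 0)
  have hdis : Disjoint D (ball 0 (30 * ρ)) := by
    rw [Set.disjoint_left]
    intro x hx hx'
    rw [mem_ball_zero_iff] at hx'
    have : r < ‖x‖ := hx
    linarith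
  have hGm := solG_meas ν D hq.1
  have hHP := sol_HP hν hdis q
  have hfin : ∀ φ, Q (bW k ρ C Λ) (solG ν D q φ) ≠ ⊤ := fun φ => solG_fin ν D hq φ hc0 hc
  have hle : ∀ φ : solV ν D, Q (aW k ρ) ((Hs ν).indicator φ.1) ≤ Q (bW k ρ C Λ) (solG ν D q φ) :=
    fun φ => hest _ _ (hGm φ) (hHP φ)
  have hint : ∀ φ : solV ν D, Integrable fun x => f x * (Hs ν).indicator φ.1 x := fun φ =>
    cs_integrable (measurable_aW k ρ) (aW_pos k hρ) hfm (hHP φ).l2w.1 hff
      (ne_top_of_le_ne_top (hfin φ) (hle φ))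
  let l : solV ν D →ₗ[ℂ] ℂ :=
    { toFun := fun φ => ∫ x, f x * (Hs ν).indicator φ.1 x
      map_add' := fun φ ψ => by
        rw [← integral_add (hint φ) (hint ψ)]
        congr 1
        ext x
        rw [Submodule.coe_add, indicator_add', Pi.add_apply, mul_add]
      map_smul' := fun t φ => by
        rw [RingHom.id_apply, smul_eq_mul, ← integral_const_mul]
        congr 1
        ext x
        by_cases hx : x ∈ Hs ν
        · simp only [indicator_of_mem hx, Submodule.coe_smul, Pi.smul_apply, smul_eq_mul]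
          ring
        · simp [indicator_of_notMem hx] }
  obtain ⟨U, hU, hUQ, hUl⟩ := dual (solG ν D q) l (measurable_bW k ρ C Λ) hb0 hGm hfin hff
    fun φ => (cs_enorm (measurable_aW k ρ) (aW_pos k hρ) hfm (hHP φ).l2w.1).trans
      (mul_le_mul_right (hle φ) _)
  have hUf : Q (fun x => (bW k ρ C Λ x)⁻¹) U ≠ ⊤ := ne_top_of_le_ne_top hff hUQ
  have hU2 : WL2 U := by
    refine ⟨hU, ne_top_of_le_ne_top ?_
      (Q_mono_left (a' := fun x => c * (bW k ρ C Λ x)⁻¹) U fun x => ?_)⟩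
    · rw [Q_const_mul hc0]
      exact ENNReal.mul_ne_top ENNReal.ofReal_ne_top hUf
    · refine (wt_le_one x).trans ?_
      rw [← div_eq_mul_inv, one_le_div (hb0 x)]
      exact hc x
  refine ⟨U, hU, hUQ, ((wl2_cb hn hν h hk hρ).sub hU2).indicator (isOpen_Hs ν).measurableSet,
    fun x hx => indicator_of_notMem hx _, fun φ h1 h2 h3 => ?_⟩
  let v : solV ν D := ⟨φ, h1, h2, h3⟩
  have i1 : Integrable fun x => U x * solG ν D q v x :=
    cs_integrable (measurable_bW k ρ C Λ) hb0 hU (hGm v) hUf (hfin v)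
  have i2 : Integrable fun x => cb ν a b k ρ x * solG ν D q v x :=
    cs_integrable continuous_wt.measurable wt_pos hcb.continuous.measurable (hGm v)
      (Q_cb_ne_top hn hν h hk hρ) (solG_fin ν D hq v zero_le_one wt_le_one)
  have e := test_idq hn hν h hk hρ hq (hHP v)
  have e2 : ∫ x, U x * solG ν D q v x = ∫ x, f x * (Hs ν).indicator φ x := hUl v
  have e3 : (∫ x, U x * solG ν D q v x) - ∫ x, cb ν a b k ρ x * solG ν D q v x = 0 := by
    rw [e2, e, sub_self]
  rw [← integral_sub i1 i2] at e3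
  rw [← e3, pair]
  congr 1
  ext x
  by_cases hx : x ∈ Hs ν
  · simp only [solG_apply, indicator_of_mem hx, v]
    ring
  · simp [solG_apply, indicator_of_notMem hx]

end Pool.Agent.MP_71da5e_an
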