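import Pool.Agent.MP_71da5e_an.BeamB

namespace Pool.Agent.MP_71da5e_an

open MeasureTheory Metric Set Laplacian Filter Topology
open scoped ContDiff ENNReal RealInnerProductSpace

variable {n : ℕ}

theorem testl_supp {φ : E n → ℂ} {R : ℝ} (h : ∀ x, R < ‖x‖ → φ x = 0) : HasCompactSupport φ :=
  HasCompactSupport.intro (isCompact_closedBall (0 : E n) R) fun x hx =>
    h x (by simpa using hx)

theorem testl_int_lap (hn : 3 ≤ n) {ν a b : E n} (hν : ‖ν‖ = 1) (h : ON a b) (k : ℕ)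
    {ρ : ℝ} (hρ : 0 < ρ) {w : E n → ℂ} (hw : WL2 w) :
    Integrable fun x => Δ (cb ν a b k ρ) x * w x := by
  obtain ⟨G, -, hG⟩ := lap_cb hn hν h k
  have := hw.integrable_mul (contDiff_lap (contDiff_cb ν a b k hρ)).continuous
    (testl_supp (R := 2 * ρ) fun x hx => (hG ρ hρ x).2 (Or.inr hx))
  simpa only [mul_comm] using this

theorem testl_int_cb (hn : 3 ≤ n) {ν a b : E n} (hν : ‖ν‖ = 1) (h : ON a b) {k : ℕ} (hk : 4 ≤ k)
    {ρ : ℝ} (hρ : 0 < ρ) {F : E n → ℂ} (hF : WL2 F) :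
    Integrable fun x => cb ν a b k ρ x * F x :=
  cs_integrable continuous_wt.measurable wt_pos (contDiff_cb ν a b k hρ).continuous.measurable
    hF.1 (Q_cb_ne_top hn hν h hk hρ) hF.2

theorem testl_const (hn : 3 ≤ n) {ν a b : E n} (hν : ‖ν‖ = 1) (h : ON a b) {k : ℕ} (hk : 4 ≤ k)
    {ρ S : ℝ} (hρ : 0 < ρ) (hS : 0 < S) {G : Set (E n)} {w F : E n → ℂ} (hw : HP ν G w F) :
    (∫ x, cb ν a b k ρ x * F x) - ∫ x, Δ (cb ν a b k ρ) x * w x =
      (∫ x, cb ν a b k S x * F x) - ∫ x, Δ (cb ν a b k S) x * w x := by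
  have c1 := contDiff_cb ν a b k hρ
  have c2 := contDiff_cb ν a b k hS
  have hT : Tst (cb ν a b k ρ - cb ν a b k S) := by
    refine ⟨c1.sub c2, testl_supp (R := 2 * ρ + 2 * S) fun x hx => ?_⟩
    simp only [Pi.sub_apply, cb]
    rw [chi_eq_one hρ (by linarith), chi_eq_one hS (by linarith), sub_self]
  have h0 := hw.weak _ hT (Or.inl fun x hx => by
    rw [Pi.sub_apply, cb_of_mem_Pl a b k ρ hx, cb_of_mem_Pl a b k S hx, sub_self])
  rw [pair_eq hw.l2w hw.l2F hT] at h0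
  have e1 : ∫ x, F x * (cb ν a b k ρ - cb ν a b k S) x =
      (∫ x, cb ν a b k ρ x * F x) - ∫ x, cb ν a b k S x * F x := by
    rw [← integral_sub (testl_int_cb hn hν h hk hρ hw.l2F) (testl_int_cb hn hν h hk hS hw.l2F)]
    refine integral_congr_ae (Eventually.of_forall fun x => ?_)
    simp only [Pi.sub_apply]; ring
  have e2 : ∫ x, w x * Δ (cb ν a b k ρ - cb ν a b k S) x =
      (∫ x, Δ (cb ν a b k ρ) x * w x) - ∫ x, Δ (cb ν a b k S) x * w x := by
    rw [← integral_sub (testl_int_lap hn hν h k hρ hw.l2w) (testl_int_lap hn hν h k hS hw.l2w)]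
    refine integral_congr_ae (Eventually.of_forall fun x => ?_)
    have := ContDiffAt.laplacian_sub (x := x) (c1.contDiffAt.of_le (by norm_cast))
      (c2.contDiffAt.of_le (by norm_cast))
    simp only [this]; ring
  rw [e1, e2] at h0
  linear_combination h0

theorem testl_lim_cb (hn : 3 ≤ n) {ν a b : E n} (hν : ‖ν‖ = 1) (h : ON a b) {k : ℕ} (hk : 4 ≤ k)
    {F : E n → ℂ} (hF : WL2 F) :
    Tendsto (fun S : ℝ => ∫ x, cb ν a b k S x * F x) atTop (𝓝 0) := by
  have hz : ∀ S : ℝ, 0 < S → ∀ x : E n, ‖x‖ ≤ S → cb ν a b k S x = 0 := fun S hS x hx => by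
    simp [cb, chi_eq_zero hS hx]
  have := tendsto_integral_filter_of_dominated_convergence (μ := volume) (l := atTop)
    (F := fun (S : ℝ) x => cb ν a b k S x * F x) (f := fun _ => 0)
    (fun x => ‖cb ν a b k 1 x * F x‖)
    ((eventually_gt_atTop 0).mono fun S hS =>
      (testl_int_cb hn hν h hk hS hF).aestronglyMeasurable)
    ((eventually_ge_atTop 2).mono fun S hS => Eventually.of_forall fun x => by
      rcases le_or_gt ‖x‖ S with hx | hx
      · rw [hz S (by linarith) x hx, zero_mul, norm_zero]; exact norm_nonneg _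
      · simp only [cb, norm_mul, chi_eq_one one_pos (x := x) (by linarith), Complex.norm_real,
          norm_one, Real.norm_of_nonneg (chi_nonneg S x)]
        gcongr
        exact chi_le_one S x)
    (testl_int_cb hn hν h hk one_pos hF).norm
    (Eventually.of_forall fun x => tendsto_const_nhds.congr' (by
      filter_upwards [eventually_gt_atTop 0, eventually_ge_atTop ‖x‖] with S h1 h2
      rw [hz S h1 x h2, zero_mul]))
  simpa using this

theorem testl_ineq {S G V : ℝ} (hS : 1 ≤ S) (hV : 0 ≤ V) {n k : ℕ} (hn : 3 ≤ n) (hk : 4 ≤ k) :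
    (1 + (2 * S) ^ 2) ^ 2 * (G / S ^ (n + k)) ^ 2 * (2 * S) ^ n * V ≤
      25 * G ^ 2 * 2 ^ n * V * S⁻¹ := by
  have h0 : 0 < S := by linarith
  have h1 : (1 + (2 * S) ^ 2) ^ 2 ≤ 25 * S ^ 4 := by
    have : 1 + (2 * S) ^ 2 ≤ 5 * S ^ 2 := by nlinarith
    calc (1 + (2 * S) ^ 2) ^ 2 ≤ (5 * S ^ 2) ^ 2 := by gcongr
      _ = 25 * S ^ 4 := by ring
  have h2 : S ^ (n + 5) ≤ (S ^ (n + k)) ^ 2 := by
    rw [← pow_mul]; exact pow_le_pow_right₀ hS (by omega)
  calc (1 + (2 * S) ^ 2) ^ 2 * (G / S ^ (n + k)) ^ 2 * (2 * S) ^ n * V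
      ≤ 25 * S ^ 4 * (G ^ 2 / S ^ (n + 5)) * (2 * S) ^ n * V := by
        rw [div_pow]; gcongr
    _ = 25 * G ^ 2 * 2 ^ n * V * S⁻¹ := by
        rw [mul_pow, pow_add]; field_simp

theorem testl_lim_lap (hn : 3 ≤ n) {ν a b : E n} (hν : ‖ν‖ = 1) (h : ON a b) {k : ℕ} (hk : 4 ≤ k)
    {w : E n → ℂ} (hw : WL2 w) :
    Tendsto (fun S : ℝ => ∫ x, Δ (cb ν a b k S) x * w x) atTop (𝓝 0) := by
  obtain ⟨G, hG0, hG⟩ := lap_cb hn hν h k
  obtain ⟨V, hV⟩ : ∃ V, V = (volume (closedBall (0 : E n) 1)).toReal := ⟨_, rfl⟩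
  have hV0 : 0 ≤ V := hV ▸ ENNReal.toReal_nonneg
  have hl : Tendsto (fun S : ℝ => √(25 * G ^ 2 * 2 ^ n * V * S⁻¹) * √(Q wt w).toReal) atTop
      (𝓝 0) := by
    have := ((tendsto_inv_atTop_zero.const_mul (25 * G ^ 2 * 2 ^ n * V)).sqrt).mul_const
      √(Q wt w).toReal
    simpa only [mul_zero, Real.sqrt_zero, zero_mul] using this
  refine squeeze_zero_norm' ?_ hl
  filter_upwards [eventually_ge_atTop 1] with S hS
  have h0 : 0 < S := by linarith
  refine cs_real continuous_wt.measurable wt_pos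
    (contDiff_lap (contDiff_cb ν a b k h0)).continuous.measurable hw.1 (by positivity)
    ENNReal.toReal_nonneg ?_ (ENNReal.ofReal_toReal hw.2).ge
  refine (Q_le_ball (c := (1 + (2 * S) ^ 2) ^ 2 * (G / S ^ (n + k)) ^ 2) (R := 2 * S)
    (by positivity) (by positivity) (fun x => ?_) fun x hx => ?_).trans
    (ENNReal.ofReal_le_ofReal (by rw [← hV]; exact testl_ineq hS hV0 hn hk))
  · rcases le_or_gt ‖x‖ (2 * S) with hx | hx
    · have := (hG S h0 x).1
      rw [wt, inv_inv]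
      gcongr
    · rw [(hG S h0 x).2 (Or.inr hx), norm_zero, zero_pow two_ne_zero, mul_zero]
      positivity
  · rw [(hG S h0 x).2 (Or.inr hx), norm_zero, zero_pow two_ne_zero, mul_zero]

theorem test_id (hn : 3 ≤ n) {ν a b : E n} (hν : ‖ν‖ = 1) (h : ON a b) {k : ℕ} (hk : 4 ≤ k)
    {ρ : ℝ} (hρ : 0 < ρ) {G : Set (E n)} {w F : E n → ℂ} (hw : HP ν G w F) :
    ∫ x, cb ν a b k ρ x * F x = ∫ x, Δ (cb ν a b k ρ) x * w x := by
  have h1 := (testl_lim_cb hn hν h hk hw.l2F).sub (testl_lim_lap hn hν h hk hw.l2w)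
  rw [sub_zero] at h1
  exact sub_eq_zero.1 (tendsto_nhds_unique (tendsto_const_nhds.congr'
    ((eventually_gt_atTop 0).mono fun S hS => testl_const hn hν h hk hρ hS hw)) h1)

theorem test_idq (hn : 3 ≤ n) {ν a b : E n} (hν : ‖ν‖ = 1) (h : ON a b) {k : ℕ} (hk : 4 ≤ k)
    {ρ : ℝ} (hρ : 0 < ρ) {G : Set (E n)} {A : ℝ} {q w g : E n → ℂ} (hq : Dec A q)
    (hw : HP ν G w fun x => g x + q x * w x) :
    ∫ x, cb ν a b k ρ x * g x =
      ∫ x, (Δ (cb ν a b k ρ) x - q x * cb ν a b k ρ x) * w x := by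
  have h1 := test_id hn hν h hk hρ hw
  have i1 := testl_int_cb hn hν h hk hρ hw.l2F
  have i2 := testl_int_cb hn hν h hk hρ (hw.l2w.dec hq)
  have i3 := testl_int_lap hn hν h k hρ hw.l2w
  calc ∫ x, cb ν a b k ρ x * g x
      = ∫ x, (cb ν a b k ρ x * (g x + q x * w x) - cb ν a b k ρ x * (q x * w x)) :=
        integral_congr_ae (Eventually.of_forall fun x => by ring)
    _ = ∫ x, (Δ (cb ν a b k ρ) x * w x - cb ν a b k ρ x * (q x * w x)) := by
        rw [integral_sub i1 i2, integral_sub i3 i2, h1]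
    _ = _ := integral_congr_ae (Eventually.of_forall fun x => by ring)

end Pool.Agent.MP_71da5e_an
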